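import Pool.Agent.N641.VB.Main4
import Pool.Agent.N755.VB.TRN
import Pool.Agent.N8.VB.TRW
import Pool.Agent.N385.VB.TOP
import Pool.Agent.N394.VB.RADD
import Pool.Agent.N426.VB.ULT
import Pool.Agent.N353.VB.UP
import Pool.Agent.N765.VB.LS
import Pool.Agent.N592.VB.REF
import Pool.Agent.N97.VB.OPN
import Pool.Agent.N227.VB.FIN
import Pool.Agent.N849.VB.ISO
import Pool.Agent.N160.VB.ALG1
import Pool.Agent.N694.VB.ALG2
import Pool.Agent.N776.VB.ALGF
import Pool.Agent.N907.VB.IND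
import Pool.Agent.N227.VB.SET
import Pool.Agent.helper595.VB.FA
import Pool.Agent.N568.VB.TAU
import Pool.Agent.N588.VB.Cns
import Pool.Agent.N216.VB.QUO
import Pool.Agent.N279.VB.Lift
import Pool.Agent.N424.VB.E
import Pool.Agent.N424.VB.GLU
import Pool.Agent.N614.VB.WS
import Pool.Agent.N887.VB.CAT
import Pool.Agent.N966.VB.TM1
import Pool.Agent.N232.VB.TM2
import Pool.Agent.N394.VB.TRL
import Pool.Agent.N402.VB.UNQ
import Pool.Agent.N887.VB.EXS
import Pool.Agent.N353.VB.SIL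
import Pool.Agent.N8.VB.ST1
import Pool.Agent.N227.VB.ST2
import Pool.Agent.N765.VB.ST3
import Pool.Agent.N568.VB.MEA
import Pool.Agent.N999.VB.MEW
import Pool.Agent.N745.VB.NAT
import Pool.Agent.N265.VB.CHI
import Pool.Agent.N691.VB.CNS

set_option autoImplicit false

/-!
# Project VB (helper641): all leaves together
-/

namespace Pool.Agent.N641.VB

theorem lv : Lv := by
  have ws : S_WS := Pool.Agent.N614.VB.WS
  have trn : S_TRN := Pool.Agent.N755.VB.TRN
  have trw : S_TRW := Pool.Agent.N8.VB.TRW.TRW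
  have top : S_TOP := Pool.Agent.N385.VB.TOP
  have radd : S_RADD := Pool.Agent.N394.VB.RADD trn
  have ult : S_ULT := Pool.Agent.N426.VB.ULT
  have up : S_UP := Pool.Agent.N353.VB.UP ult
  have ls : S_LS := Pool.Agent.N765.VB.LS trn top
  have ref : S_REF := Pool.Agent.N592.VB.REF trn up
  have opn : S_OPN := Pool.Agent.N97.VB.OPN
  have fin : S_FIN := Pool.Agent.N227.VB.FIN
  have iso : S_ISO := Pool.Agent.N849.VB.ISO
  have alg1 : S_ALG1 := Pool.Agent.N160.VB.ALG1.ALG1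
  have alg2 : S_ALG2 := Pool.Agent.N694.VB.ALG2
  have algf : S_ALGF := Pool.Agent.N776.VB.ALGF trn radd up ref opn iso alg1 alg2
  have ind : S_IND := Pool.Agent.N907.VB.IND
  have set : S_SET := Pool.Agent.N227.VB.SET
  have fa : S_FA := Pool.Agent.helper595.VB.FA
  have tau : S_TAU := Pool.Agent.N568.VB.TAU trn radd ref fin ind
  have con : S_CON := Pool.Agent.N588.VB.CON ls set fa tau
  have quo : S_QUO := Pool.Agent.N216.VB.Q.QUO
  have lift : S_LIFT := Pool.Agent.N279.VB.LIFT set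
  have e : S_E := Pool.Agent.N424.VB.E lift quo
  have glu : S_GLU := Pool.Agent.N424.VB.GLU
  have cat : S_CAT := Pool.Agent.N887.VB.CAT fin
  have tm1 : S_TM1 := Pool.Agent.N966.VB.TM1
  have tm2 : S_TM2 := Pool.Agent.N232.VB.TM2 tm1
  have trl : S_TRL := Pool.Agent.N394.VB.TRL
  have unq : S_UNQ := Pool.Agent.N402.VB.UNQ trl
  have exs : S_EXS := Pool.Agent.N887.VB.EXS tm1 tm2
  have sil : S_SIL := Pool.Agent.N353.VB.SIL
  have mea : S_MEA := Pool.Agent.N568.VB.Mea.MEA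
  have mew : S_MEW := Pool.Agent.N999.VB.MEW
  have st1 : S_ST1 := Pool.Agent.N8.VB.ST1 sil
  have st2 : S_ST2 := Pool.Agent.N227.VB.ST2.ST2 sil mea
  have st3 : S_ST3 := Pool.Agent.N765.VB.ST3.ST3 sil mea mew
  have nat : S_NAT := Pool.Agent.N745.VB.NAT
  have chi : S_CHI := Pool.Agent.N265.VB.CHI
  have cns : S_CNS := Pool.Agent.N691.VB.CNS
  exact ⟨trn, trw, radd, ls, algf, con, quo, e, ws, cat, glu, unq, exs, st1, st2, st3, nat, chi,
    cns⟩

end Pool.Agent.N641.VB
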