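import Pool.Agent.N641.VB.Stm2

set_option autoImplicit false

/-!
# Project VB (helper641): structures bi-interpretable with algebras with a measure: statements
-/

namespace Pool.Agent.N641.VB

open FirstOrder FirstOrder.Language

/-- formulas for an `r`-dimensional interpretation of `L`-structures in Boolean algebras with a
measure (with `n'` parameters), and for an interpretation of the algebra in the structure (with `n`
parameters) -/
structure Sch (L : FirstOrder.Language.{0, 0}) (M : Type) where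
  /-- number of parameters in the structure -/
  n : ℕ
  /-- number of parameters in the algebra -/
  n' : ℕ
  /-- dimension -/
  r : ℕ
  /-- the order of the algebra, in the structure -/
  φ : L.Formula (Fin n ⊕ Fin 2)
  /-- the measure of the algebra, in the structure -/
  ψ : M → L.Formula (Fin n ⊕ Fin 1)
  /-- the universe of the structure, in the algebra -/
  δ : (LM M).Formula (Fin n' ⊕ Fin r)
  /-- the relations of the structure, in the algebra -/
  ρ : (l : ℕ) → L.Relations l → (LM M).Formula (Fin n' ⊕ Fin l × Fin r)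
  /-- the graphs of the functions of the structure, in the algebra -/
  γ : (l : ℕ) → L.Functions l → (LM M).Formula (Fin n' ⊕ Fin (l + 1) × Fin r)
  /-- the composition of the interpretations, in the algebra -/
  κ : (LM M).Formula (Fin n' ⊕ Fin r ⊕ Fin 1)
  /-- coordinates of the parameters of the structure -/
  π : Fin n → Fin r → Fin n'

/-- the structure `S` and the algebra `(bo, mu)` are interpreted in each other by the formulas of
`σ` -/
structure BiInt {L : FirstOrder.Language.{0, 0}} {M : Type} (σ : Sch L M) (S : L.Structure ℕ)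
    (bo : BooleanAlgebra ℕ) (mu : ℕ → M) (q : Fin σ.n' → ℕ) (p : Fin σ.n → ℕ)
    (g : ℕ → Fin σ.r → ℕ) (f : ℕ → ℕ) : Prop where
  inj : Function.Injective g
  surj : Function.Surjective f
  uni : ∀ x : Fin σ.r → ℕ,
    @Formula.Realize (LM M) ℕ (str bo.le mu) _ σ.δ (Sum.elim q x) ↔ ∃ s, g s = x
  rel : ∀ (l : ℕ) (R : L.Relations l) (v : Fin l → ℕ),
    @Formula.Realize (LM M) ℕ (str bo.le mu) _ (σ.ρ l R) (Sum.elim q fun x => g (v x.1) x.2) ↔
      @Structure.RelMap L ℕ S l R v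
  fun_ : ∀ (l : ℕ) (F : L.Functions l) (v : Fin (l + 1) → ℕ),
    @Formula.Realize (LM M) ℕ (str bo.le mu) _ (σ.γ l F) (Sum.elim q fun x => g (v x.1) x.2) ↔
      @Structure.funMap L ℕ S l F (fun i => v i.castSucc) = v (Fin.last l)
  le : ∀ v : Fin 2 → ℕ, @Formula.Realize L ℕ S _ σ.φ (Sum.elim p v) ↔
    bo.le (f (v 0)) (f (v 1))
  val : ∀ (c : M) (v : Fin 1 → ℕ), @Formula.Realize L ℕ S _ (σ.ψ c) (Sum.elim p v) ↔
    mu (f (v 0)) = c
  comp : ∀ (s b : ℕ), @Formula.Realize (LM M) ℕ (str bo.le mu) _ σ.κ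
    (Sum.elim q (Sum.elim (g s) fun _ => b)) ↔ f s = b
  par : ∀ j i, g (p j) i = q (σ.π j i)

/-- the structure on the definable set of `r`-tuples -/
noncomputable def JS {L : FirstOrder.Language.{0, 0}} {M : Type} (σ : Sch L M) {A : Type}
    [BooleanAlgebra A] (mu : A → M) (q : Fin σ.n' → A)
    (u0 : {x : Fin σ.r → A // @Formula.Realize (LM M) A (str (· ≤ ·) mu) _ σ.δ (Sum.elim q x)}) :
    L.Structure
      {x : Fin σ.r → A // @Formula.Realize (LM M) A (str (· ≤ ·) mu) _ σ.δ (Sum.elim q x)} := by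
  classical
  exact
  { funMap := fun {l} F v =>
      if h : ∃ w : {x : Fin σ.r → A //
          @Formula.Realize (LM M) A (str (· ≤ ·) mu) _ σ.δ (Sum.elim q x)},
        @Formula.Realize (LM M) A (str (· ≤ ·) mu) _ (σ.γ l F)
          (Sum.elim q fun x => ((Fin.snoc (fun i => (v i).1) w.1 : Fin (l + 1) → Fin σ.r → A)
            x.1) x.2) then h.choose else u0
    RelMap := fun {l} R v => @Formula.Realize (LM M) A (str (· ≤ ·) mu) _ (σ.ρ l R)
      (Sum.elim q fun x => (v x.1).1 x.2) }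

/-- the graphs are functional -/
def Fnl {L : FirstOrder.Language.{0, 0}} {M : Type} (σ : Sch L M) {A : Type}
    [BooleanAlgebra A] (mu : A → M) (q : Fin σ.n' → A) : Prop :=
  ∀ (l : ℕ) (F : L.Functions l) (v : Fin l → {x : Fin σ.r → A //
      @Formula.Realize (LM M) A (str (· ≤ ·) mu) _ σ.δ (Sum.elim q x)}),
    ∃! w : {x : Fin σ.r → A // @Formula.Realize (LM M) A (str (· ≤ ·) mu) _ σ.δ (Sum.elim q x)},
      @Formula.Realize (LM M) A (str (· ≤ ·) mu) _ (σ.γ l F)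
        (Sum.elim q fun x => ((Fin.snoc (fun i => (v i).1) w.1 : Fin (l + 1) → Fin σ.r → A)
          x.1) x.2)

/-- TM3: formulas of the interpreted structure are translated -/
def S_TM3 : Prop := ∀ (L : FirstOrder.Language.{0, 0}) (M : Type) (σ : Sch L M) (k : ℕ)
  (χ : L.Formula (Fin k)), ∃ χ' : (LM M).Formula (Fin σ.n' ⊕ Fin k × Fin σ.r),
  ∀ (A : Type) [BooleanAlgebra A] (mu : A → M) (q : Fin σ.n' → A)
    (u0 : {x : Fin σ.r → A // @Formula.Realize (LM M) A (str (· ≤ ·) mu) _ σ.δ (Sum.elim q x)}),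
    Fnl σ mu q →
    ∀ v : Fin k → {x : Fin σ.r → A //
      @Formula.Realize (LM M) A (str (· ≤ ·) mu) _ σ.δ (Sum.elim q x)},
    @Formula.Realize L _ (JS σ mu q u0) _ χ v ↔
      @Formula.Realize (LM M) A (str (· ≤ ·) mu) _ χ' (Sum.elim q fun x => (v x.1).1 x.2)

/-- TM4: formulas of the algebra are determined by types -/
def S_TM4 : Prop := ∀ (M : Type) [AddCommMonoid M] (n : ℕ) (χ : (LM M).Formula (Fin n)),
  ∃ k, ∀ (A A' : Type) [BooleanAlgebra A] [BooleanAlgebra A'] (mu : A → M) (mu' : A' → M)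
    (p : Fin n → A) (p' : Fin n → A'), AM mu → AM mu' →
    (∀ ε, tp mu k (cell p ε) = tp mu' k (cell p' ε)) →
    (@Formula.Realize (LM M) A (str (· ≤ ·) mu) _ χ p ↔
      @Formula.Realize (LM M) A' (str (· ≤ ·) mu') _ χ p')

/-- EX3: transfer along algebras with the same types -/
def S_EX3 : Prop := ∀ (L : FirstOrder.Language.{0, 0}) (M : Type) [AddCommMonoid M] [Finite M]
  (σ : Sch L M) (S : L.Structure ℕ) (bo bo' : BooleanAlgebra ℕ) (mu mu' : ℕ → M)
  (q q' : Fin σ.n' → ℕ) (p : Fin σ.n → ℕ) (g : ℕ → Fin σ.r → ℕ) (f : ℕ → ℕ),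
  BiInt σ S bo mu q p g f → @AM M _ ℕ bo mu → @AM M _ ℕ bo' mu' →
  (∀ ε, @ft M ℕ bo mu (@cell ℕ bo σ.n' q ε) = @ft M ℕ bo' mu' (@cell ℕ bo' σ.n' q' ε)) →
  ∃ (S' : L.Structure ℕ) (p' : Fin σ.n → ℕ) (g' : ℕ → Fin σ.r → ℕ) (f' : ℕ → ℕ),
    BiInt σ S' bo' mu' q' p' g' f' ∧
    ∀ T : L.Theory, @Theory.Model L ℕ S T → @Theory.Model L ℕ S' T

/-- UN3: uniqueness -/
def S_UN3 : Prop := ∀ (L : FirstOrder.Language.{0, 0}) (M : Type)
  (σ : Sch L M) (S S' : L.Structure ℕ) (bo bo' : BooleanAlgebra ℕ) (mu mu' : ℕ → M)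
  (q q' : Fin σ.n' → ℕ) (p p' : Fin σ.n → ℕ) (g g' : ℕ → Fin σ.r → ℕ) (f f' : ℕ → ℕ),
  BiInt σ S bo mu q p g f → BiInt σ S' bo' mu' q' p' g' f' →
  ∀ e : ℕ ≃ ℕ, (∀ a b, bo.le a b ↔ bo'.le (e a) (e b)) → (∀ a, mu' (e a) = mu a) →
  (∀ j, e (q j) = q' j) → Nonempty (@FirstOrder.Language.Equiv L ℕ ℕ S S')

/-- an algebra interpreted in the structure -/
structure Dec1 {L : FirstOrder.Language.{0, 0}} {M : Type} (S : L.Structure ℕ) {n : ℕ}
    (p : Fin n → ℕ) (φ : L.Formula (Fin n ⊕ Fin 2)) (ψ : M → L.Formula (Fin n ⊕ Fin 1))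
    (bo : BooleanAlgebra ℕ) (mu : ℕ → M) (f : ℕ → ℕ) : Prop where
  surj : Function.Surjective f
  le : ∀ v : Fin 2 → ℕ, @Formula.Realize L ℕ S _ φ (Sum.elim p v) ↔
    bo.le (f (v 0)) (f (v 1))
  val : ∀ (c : M) (v : Fin 1 → ℕ), @Formula.Realize L ℕ S _ (ψ c) (Sum.elim p v) ↔
    mu (f (v 0)) = c

/-- ST4: countably many types in the interpreted Boolean algebras -/
def S_ST4 : Prop := ∀ (L : FirstOrder.Language.{0, 0}), Countable L.Symbols →
  ∀ (T : L.Theory) (M : Type) [AddCommMonoid M] [Finite M] (n : ℕ)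
  (φ : L.Formula (Fin n ⊕ Fin 2)) (ψ : M → L.Formula (Fin n ⊕ Fin 1)), ¬ Perfect L T →
  {t : FT M | ∃ (S : L.Structure ℕ) (p : Fin n → ℕ) (bo : BooleanAlgebra ℕ) (mu : ℕ → M)
    (f : ℕ → ℕ) (a : ℕ), @Theory.Model L ℕ S T ∧ Dec1 S p φ ψ bo mu f ∧ @AM M _ ℕ bo mu ∧
      @ft M ℕ bo mu a = t}.Countable

/-- ST5: countably many codes in the interpreted Boolean algebras -/
def S_ST5 : Prop := ∀ (L : FirstOrder.Language.{0, 0}), Countable L.Symbols →
  ∀ (T : L.Theory) (M : Type) [AddCommMonoid M] [Finite M] (n : ℕ)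
  (φ : L.Formula (Fin n ⊕ Fin 2)) (ψ : M → L.Formula (Fin n ⊕ Fin 1)) (G : Set (FT M)),
  G.Countable → ¬ Perfect L T →
  {w : Set ℕ | ∃ (S : L.Structure ℕ) (p : Fin n → ℕ) (bo : BooleanAlgebra ℕ) (mu : ℕ → M)
    (f : ℕ → ℕ) (a : ℕ), @Theory.Model L ℕ S T ∧ Dec1 S p φ ψ bo mu f ∧ @AM M _ ℕ bo mu ∧
      @WW ℕ bo (fun b => @ft M ℕ bo mu b ∈ G) a = w}.Countable

/-- CTS: there are countably many schemes for a finite language -/
def S_CTS : Prop := ∀ (L : FirstOrder.Language.{0, 0}), Finite L.Symbols →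
  ∀ (M : Type) [Finite M], Countable (Sch L M)

end Pool.Agent.N641.VB
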