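import Pool.Agent.N641.VB.Main4
import Pool.Agent.N641.VB.Stm3

set_option autoImplicit false
set_option linter.style.haveILetI false
set_option linter.unusedVariables false

/-!
# Project VB (helper641): assembly, part 5, bi-interpretable structures
-/

namespace Pool.Agent.N641.VB

open FirstOrder FirstOrder.Language

/-- realisation of prescribed cells in algebras on `ℕ` -/
theorem real0 (H : Lv) {M : Type} [AddCommMonoid M] [Finite M]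
    {n : ℕ} {p : Fin n → ℕ} {bo : BooleanAlgebra ℕ} {mu : ℕ → M} (hA : @AM M _ ℕ bo mu)
    (A : (Fin n → Bool) → Type) [iA : ∀ ε, BooleanAlgebra (A ε)] [∀ ε, Countable (A ε)]
    (nu : ∀ ε, A ε → M) (hn : ∀ ε, AM (nu ε))
    (ht : ∀ ε, ft (nu ε) ⊤ = @ft M ℕ bo mu (@cell ℕ bo n p ε)) :
    ∃ (p' : Fin n → ℕ) (bo' : BooleanAlgebra ℕ) (mu' : ℕ → M)
      (em : ∀ ε, A ε → ℕ), @AM M _ ℕ bo' mu' ∧
      (∀ ε, @ft M ℕ bo mu (@cell ℕ bo n p ε) = @ft M ℕ bo' mu' (@cell ℕ bo' n p' ε)) ∧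
      (∀ ε b c, b ≤ c ↔ bo'.le (em ε b) (em ε c)) ∧
      (∀ ε c, bo'.le c (em ε ⊤) → ∃ b, em ε b = c) ∧
      ∀ ε b, mu' (em ε b) = nu ε b := by
  obtain ⟨B, iB, ν, q, emb, h1, h2, h3, h4, h5, h6⟩ := H.glu M n A nu hn
  have hc : ∀ ε, ft ν (cell q ε) = @ft M ℕ bo mu (@cell ℕ bo n p ε) := by
    intro ε
    rw [← ht ε, ← h3 ε]
    refine H.trn M (A ε) B (nu ε) ν (emb ε) ⊤ ?_ ?_ ?_ ⊤ le_rfl
    · exact fun b _ c _ => h4 ε b c
    · intro c hc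
      rw [h3 ε] at hc
      obtain ⟨b, hb⟩ := h5 ε c hc
      exact ⟨b, le_top, hb⟩
    · exact fun b _ => h6 ε b
  haveI : Infinite B := by
    by_contra hB
    haveI : Finite B := not_infinite_iff_finite.1 hB
    obtain ⟨e, -, -⟩ := @H.cat M _ _ B ℕ iB bo h1 _ ν mu n q p h2 hA hc
      (fun ε => dv_of_finite h2 _)
    haveI : Finite ℕ := Finite.of_equiv B e.toEquiv
    exact not_finite ℕ
  obtain ⟨bo', mu', e, g1, g2, g3, g4⟩ := H.nat M B ν h2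
  have hft : ∀ b, @ft M ℕ bo' mu' (e b) = ft ν b := by
    intro b
    refine @H.trn M _ B ℕ iB bo' ν mu' e ⊤ ?_ ?_ ?_ b le_top
    · exact fun b _ c _ => g2 b c
    · exact fun c _ => ⟨e.symm c, le_top, e.apply_symm_apply c⟩
    · exact fun b _ => g3 b
  refine ⟨_, bo', mu', fun ε b => e (emb ε b), g1,
    fun ε => by rw [← g4 n q ε, hft, hc], ?_, ?_, ?_⟩
  · intro ε b c
    rw [h4 ε b c, g2]
  · intro ε c hc
    have hc' : e.symm c ≤ emb ε ⊤ := by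
      rw [g2, e.apply_symm_apply]
      exact hc
    rw [h3 ε] at hc'
    obtain ⟨b, hb⟩ := h5 ε _ hc'
    exact ⟨b, by
      show e (emb ε b) = c
      rw [hb, e.apply_symm_apply]⟩
  · intro ε b
    rw [g3, h6]

open Classical in
/-- a family with one exceptional member -/
theorem family0 (H : Lv) {M : Type} [AddCommMonoid M] [Finite M] {n : ℕ} {p : Fin n → ℕ} {bo : BooleanAlgebra ℕ} {mu : ℕ → M}
    (hA : @AM M _ ℕ bo mu)
    (ε0 : Fin n → Bool) (A : Type) [iA : BooleanAlgebra A] [Countable A] (nu : A → M)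
    (hn : AM nu) (ht : ft nu ⊤ = @ft M ℕ bo mu (@cell ℕ bo n p ε0)) :
    ∃ (p' : Fin n → ℕ) (bo' : BooleanAlgebra ℕ) (mu' : ℕ → M)
      (em : A → ℕ), @AM M _ ℕ bo' mu' ∧
      (∀ ε, @ft M ℕ bo mu (@cell ℕ bo n p ε) = @ft M ℕ bo' mu' (@cell ℕ bo' n p' ε)) ∧
      (∀ b c, b ≤ c ↔ bo'.le (em b) (em c)) ∧
      (∀ c, bo'.le c (em ⊤) → ∃ b, em b = c) ∧
      ∀ b, mu' (em b) = nu b := by
  have h0 : ∀ ε : Fin n → Bool, ∃ (B : Type) (_ : BooleanAlgebra B) (ν : B → M), Countable B ∧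
      AM ν ∧ ft ν ⊤ = @ft M ℕ bo mu (@cell ℕ bo n p ε) := fun ε =>
    H.ls M _ ⟨ℕ, bo, mu, _, hA, rfl⟩
  choose B iB ν hB1 hB2 hB3 using h0
  let X : (Fin n → Bool) → Σ' (C : Type) (_ : BooleanAlgebra C), C → M := fun ε =>
    if ε = ε0 then ⟨A, iA, nu⟩ else ⟨B ε, iB ε, ν ε⟩
  have hX0 : X ε0 = ⟨A, iA, nu⟩ := if_pos rfl
  have hX1 : ∀ ε, ε ≠ ε0 → X ε = ⟨B ε, iB ε, ν ε⟩ := fun ε h => if_neg h
  letI : ∀ ε, BooleanAlgebra (X ε).1 := fun ε => (X ε).2.1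
  haveI : ∀ ε, Countable (X ε).1 := by
    intro ε
    by_cases h : ε = ε0
    · rw [h, hX0]
      infer_instance
    · rw [hX1 ε h]
      exact hB1 ε
  have hAM : ∀ ε, AM (X ε).2.2 := by
    intro ε
    by_cases h : ε = ε0
    · subst h
      have : ∀ (Y : Σ' (C : Type) (_ : BooleanAlgebra C), C → M), Y = ⟨A, iA, nu⟩ →
          @AM M _ Y.1 Y.2.1 Y.2.2 := by
        rintro Y rfl
        exact hn
      exact this _ hX0
    · have : ∀ (Y : Σ' (C : Type) (_ : BooleanAlgebra C), C → M), Y = ⟨B ε, iB ε, ν ε⟩ →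
          @AM M _ Y.1 Y.2.1 Y.2.2 := by
        rintro Y rfl
        exact hB2 ε
      exact this _ (hX1 ε h)
  have hft : ∀ ε, ft (X ε).2.2 ⊤ = @ft M ℕ bo mu (@cell ℕ bo n p ε) := by
    intro ε
    by_cases h : ε = ε0
    · subst h
      have : ∀ (Y : Σ' (C : Type) (_ : BooleanAlgebra C), C → M), Y = ⟨A, iA, nu⟩ →
          @ft M Y.1 Y.2.1 Y.2.2 (@Top.top Y.1 Y.2.1.toTop) =
            @ft M ℕ bo mu (@cell ℕ bo n p ε) := by
        rintro Y rfl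
        exact ht
      exact this _ hX0
    · have : ∀ (Y : Σ' (C : Type) (_ : BooleanAlgebra C), C → M), Y = ⟨B ε, iB ε, ν ε⟩ →
          @ft M Y.1 Y.2.1 Y.2.2 (@Top.top Y.1 Y.2.1.toTop) =
            @ft M ℕ bo mu (@cell ℕ bo n p ε) := by
        rintro Y rfl
        exact hB3 ε
      exact this _ (hX1 ε h)
  obtain ⟨p', bo', mu', em, k1, k2, k4, k5, k6⟩ :=
    real0 H (p := p) hA (fun ε => (X ε).1) (fun ε => (X ε).2.2) hAM hft
  have key : ∀ (Y : Σ' (C : Type) (_ : BooleanAlgebra C), C → M) (em : Y.1 → ℕ),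
      Y = ⟨A, iA, nu⟩ → (∀ b c : Y.1, Y.2.1.le b c ↔ bo'.le (em b) (em c)) →
      (∀ c, bo'.le c (em (@Top.top Y.1 Y.2.1.toTop)) → ∃ b, em b = c) →
      (∀ b, mu' (em b) = Y.2.2 b) →
      ∃ em' : A → ℕ, (∀ b c, b ≤ c ↔ bo'.le (em' b) (em' c)) ∧
        (∀ c, bo'.le c (em' ⊤) → ∃ b, em' b = c) ∧ ∀ b, mu' (em' b) = nu b := by
    rintro Y em rfl g1 g2 g3
    exact ⟨em, g1, g2, g3⟩
  obtain ⟨em', g1, g2, g3⟩ := key (X ε0) (em ε0) hX0 (k4 ε0) (k5 ε0) (k6 ε0)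
  exact ⟨p', bo', mu', em', k1, k2, g1, g2, g3⟩


section

variable {L : FirstOrder.Language.{0, 0}} {M : Type} [AddCommMonoid M] [Finite M]

/-- the types realised in the interpreted algebras -/
def RT3 {n : ℕ} (T : L.Theory) (φ : L.Formula (Fin n ⊕ Fin 2))
    (ψ : M → L.Formula (Fin n ⊕ Fin 1)) : Set (FT M) :=
  {t : FT M | ∃ (S : L.Structure ℕ) (p : Fin n → ℕ) (bo : BooleanAlgebra ℕ) (mu : ℕ → M)
    (f : ℕ → ℕ) (a : ℕ), @Theory.Model L ℕ S T ∧ Dec1 S p φ ψ bo mu f ∧ @AM M _ ℕ bo mu ∧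
      @ft M ℕ bo mu a = t}

theorem BiInt.dec {σ : Sch L M} {S : L.Structure ℕ} {bo : BooleanAlgebra ℕ} {mu : ℕ → M}
    {q : Fin σ.n' → ℕ} {p : Fin σ.n → ℕ} {g : ℕ → Fin σ.r → ℕ} {f : ℕ → ℕ}
    (h : BiInt σ S bo mu q p g f) : Dec1 S p σ.φ σ.ψ bo mu f :=
  ⟨h.surj, h.le, h.val⟩

variable {T : L.Theory} {σ : Sch L M}
  {S : L.Structure ℕ} {bo : BooleanAlgebra ℕ} {mu : ℕ → M}
  {q : Fin σ.n' → ℕ} {p : Fin σ.n → ℕ} {g : ℕ → Fin σ.r → ℕ} {f : ℕ → ℕ}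

theorem dv_sub3 (H : Lv) (EX3 : S_EX3) (hS : @Theory.Model L ℕ S T)
    (hB : BiInt σ S bo mu q p g f) (hA : @AM M _ ℕ bo mu) (ε0 : Fin σ.n' → Bool) :
    Dv (@ft M ℕ bo mu (@cell ℕ bo σ.n' q ε0)) ⊆ RT3 T σ.φ σ.ψ := by
  rintro u ⟨hu, v, hv, huv⟩
  obtain ⟨A1, i1, nu1, c1, m1, t1⟩ := H.ls M u hu
  obtain ⟨A2, i2, nu2, c2, m2, t2⟩ := H.ls M v hv
  obtain ⟨q', bo', mu', em, k2, kc, k4, k5, k6⟩ := family0 H hA ε0 (A1 × A2)
    (mprod nu1 nu2) (mprod_am m1 m2) (by rw [ft_prod_top H.trn m1 m2, t1, t2, huv])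
  obtain ⟨S', p', g', f', kB, k3⟩ := EX3 L M σ S bo bo' mu mu' q q' p g f hB hA k2 kc
  refine ⟨S', p', bo', mu', f', em ((⊤ : A1), (⊥ : A2)), k3 T hS, kB.dec, k2, ?_⟩
  rw [ft_em H k4 k5 k6, ft_left H.trn m2, t1]

theorem dv_fin3 (H : Lv) (EX3 : S_EX3) (ST4 : S_ST4) (ST5 : S_ST5) (hL : Countable L.Symbols)
    (hP : ¬ Perfect L T) (hS : @Theory.Model L ℕ S T)
    (hB : BiInt σ S bo mu q p g f) (hA : @AM M _ ℕ bo mu) (ε0 : Fin σ.n' → Bool) :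
    (Dv (@ft M ℕ bo mu (@cell ℕ bo σ.n' q ε0))).Finite := by
  by_contra hinf
  have hRT : (RT3 T σ.φ σ.ψ).Countable := ST4 L hL T M σ.n σ.φ σ.ψ hP
  have hct : (Dv (@ft M ℕ bo mu (@cell ℕ bo σ.n' q ε0))).Countable :=
    hRT.mono (dv_sub3 H EX3 hS hB hA ε0)
  obtain ⟨e, ⟨he1, w, hw, hew⟩, hG⟩ := H.algf M _ ⟨ℕ, bo, mu, _, hA, rfl⟩ hinf hct
  obtain ⟨A2, i2, nu2, c2, m2, t2⟩ := H.ls M w hw
  let G : Set (FT M) := {u | u ∈ RT3 T σ.φ σ.ψ ∧ (Dv u).Finite}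
  have hGc : G.Countable := hRT.mono fun u hu => hu.1
  have hcodes := ST5 L hL T M σ.n σ.φ σ.ψ G hGc hP
  refine absurd (hcodes.mono (s₁ := {w : Set ℕ | w.Infinite}) ?_) ?_
  · intro W hW
    obtain ⟨B, iB, b1, b2, b3⟩ := exists_code H.e H.ws W hW
    obtain ⟨A1, i1, nu1, π, c1, m1, t1, p1, p2, p3, p4⟩ := H.con M e hG B
    obtain ⟨q', bo', mu', em, k2, kc, k4, k5, k6⟩ := family0 H hA ε0 (A1 × A2)
      (mprod nu1 nu2) (mprod_am m1 m2) (by rw [ft_prod_top H.trn m1 m2, t1, t2, hew])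
    obtain ⟨S', p', g', f', kB, k3⟩ := EX3 L M σ S bo bo' mu mu' q q' p g f hB hA k2 kc
    refine ⟨S', p', bo', mu', f', em ((⊤ : A1), (⊥ : A2)), k3 T hS, kB.dec, k2, ?_⟩
    have hRT' : ∀ a, @ft M ℕ bo' mu' a ∈ RT3 T σ.φ σ.ψ := fun a =>
      ⟨S', p', bo', mu', f', a, k3 T hS, kB.dec, k2, rfl⟩
    have hπ : π ⊤ = ⊤ := by
      obtain ⟨x, hx⟩ := p1 ⊤
      have h1 : π (x ⊔ ⊤) = π x ⊔ π ⊤ := p2 x ⊤
      rw [sup_top_eq, hx, top_sup_eq] at h1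
      exact h1
    have hq := (H.quo A1 B π (fun a => (Dv (ft nu1 a)).Finite) p1 p2 p3 p4).2.2 ⊤
    rw [hπ, b3] at hq
    rw [← hq]
    refine @H.trw A1 ℕ i1 bo' (fun x => em (x, ⊥)) ⊤ (fun a => (Dv (ft nu1 a)).Finite)
      (fun b => @ft M ℕ bo' mu' b ∈ G) ?_ ?_ ?_ ?_ ?_
    · intro b _ c _
      rw [← k4]
      exact ⟨fun h => Prod.mk_le_mk.2 ⟨h, le_rfl⟩, fun h => (Prod.mk_le_mk.1 h).1⟩
    · intro c hc
      have h1 : bo'.le c (em ⊤) := bo'.le_trans c _ _ hc ((k4 _ _).1 le_top)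
      obtain ⟨b, hb⟩ := k5 c h1
      subst hb
      have h2 : b ≤ ((⊤ : A1), (⊥ : A2)) := (k4 _ _).2 hc
      have h3 := (Prod.mk_le_mk (a₁ := b.1) (b₁ := b.2)).1 h2
      exact ⟨b.1, le_top, congrArg em (Prod.ext rfl (le_bot_iff.1 h3.2).symm)⟩
    · intro b _
      show @ft M ℕ bo' mu' (em (b, ⊥)) ∈ G ↔ _
      have h1 : @ft M ℕ bo' mu' (em (b, ⊥)) = ft nu1 b := by
        rw [ft_em H k4 k5 k6, ft_left H.trn m2]
      constructor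
      · intro h
        have h2 := h.2
        rw [h1] at h2
        exact h2
      · intro h
        refine ⟨hRT' _, ?_⟩
        rw [h1]
        exact h
    · intro a b hba h
      exact Set.Finite.subset h (dv_trans H.radd (ft_dv m1 hba))
    · intro a b hba h
      refine ⟨hRT' _, ?_⟩
      exact Set.Finite.subset h.2 (dv_trans H.radd (@ft_dv M _ ℕ bo' mu' k2 a b hba))
  · intro hc
    have h1 : (Set.univ : Set (Set ℕ)).Countable := by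
      have h3 := Set.countable_setOf_finite_subset (Set.countable_univ (α := ℕ))
      have h2 : ({w : Set ℕ | w.Finite} : Set (Set ℕ)).Countable :=
        h3.mono (by
          intro w hw
          exact ⟨hw, Set.subset_univ w⟩)
      refine (h2.union hc).mono fun w _ => ?_
      by_cases h : w.Finite
      · exact Or.inl h
      · exact Or.inr h
    haveI : Countable (Set ℕ) := Set.countable_univ_iff.1 h1
    obtain ⟨f, hf⟩ := exists_injective_nat (Set ℕ)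
    exact Function.cantor_injective f hf


/-- the models with a fixed scheme -/
def K3 (T : L.Theory) (σ : Sch L M) (S : L.Structure ℕ) : Prop :=
  @Theory.Model L ℕ S T ∧ ∃ (bo : BooleanAlgebra ℕ) (mu : ℕ → M) (q : Fin σ.n' → ℕ)
    (p : Fin σ.n → ℕ) (g : ℕ → Fin σ.r → ℕ) (f : ℕ → ℕ),
    BiInt σ S bo mu q p g f ∧ @AM M _ ℕ bo mu

theorem few_sigma3 (H : Lv) (EX3 : S_EX3) (ST4 : S_ST4) (ST5 : S_ST5) (UN3 : S_UN3)
    (hL : Countable L.Symbols) (T : L.Theory) (hP : ¬ Perfect L T) (σ : Sch L M) :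
    Few (K3 T σ) := by
  have hRT : (RT3 T σ.φ σ.ψ).Countable := ST4 L hL T M σ.n σ.φ σ.ψ hP
  refine Few.of_inv (D := (Fin σ.n' → Bool) → FT M)
    (fun S d => ∃ (bo : BooleanAlgebra ℕ) (mu : ℕ → M) (q : Fin σ.n' → ℕ)
      (p : Fin σ.n → ℕ) (g : ℕ → Fin σ.r → ℕ) (f : ℕ → ℕ),
      BiInt σ S bo mu q p g f ∧ @AM M _ ℕ bo mu ∧
      d = fun ε => @ft M ℕ bo mu (@cell ℕ bo σ.n' q ε))
    {θ : (Fin σ.n' → Bool) → FT M | ∀ ε, θ ε ∈ RT3 T σ.φ σ.ψ}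
    (Set.countable_pi fun _ => hRT) ?_ ?_
  · rintro S ⟨hS, bo, mu, q, p, g, f, hB, hA⟩
    refine ⟨_, fun ε => ?_, bo, mu, q, p, g, f, hB, hA, rfl⟩
    exact ⟨S, p, bo, mu, f, _, hS, hB.dec, hA, rfl⟩
  · rintro S S' d ⟨hS, -⟩ ⟨hS', -⟩ ⟨bo, mu, q, p, g, f, hB, hA, rfl⟩
      ⟨bo', mu', q', p', g', f', hB', hA', hd⟩
    obtain ⟨e, e1, e2⟩ := @H.cat M _ _ ℕ ℕ bo bo' _ _ mu mu' σ.n' q q' hA hA'
      (fun ε => congrFun hd ε) (fun ε => dv_fin3 H EX3 ST4 ST5 hL hP hS hB hA ε)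
    refine UN3 L M σ S S' bo bo' mu mu' q q' p p' g g' f f' hB hB' e.toEquiv ?_ e1 e2
    intro a b
    exact (@OrderIso.le_iff_le ℕ ℕ bo.toLE bo'.toLE e a b).symm

end

/-- the dichotomy for theories of bi-interpretable structures, finite languages -/
theorem few_all3 (H : Lv) (EX3 : S_EX3) (ST4 : S_ST4) (ST5 : S_ST5) (UN3 : S_UN3) (CTS : S_CTS)
    {L : FirstOrder.Language.{0, 0}} (hL : Finite L.Symbols)
    (T : L.Theory) (hP : ¬ Perfect L T) :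
    Few (fun S : L.Structure ℕ => ∃ (m : ℕ) (i : AddCommMonoid (Fin m)) (σ : Sch L (Fin m)),
      K3 T σ S) := by
  have hc : Countable L.Symbols := Finite.to_countable
  refine Few.iUnion fun m => ?_
  haveI : Countable (AddCommMonoid (Fin m)) := H.cns m
  refine Few.iUnion fun i => ?_
  haveI : Countable (Sch L (Fin m)) := CTS L hL (Fin m)
  exact Few.iUnion fun σ => few_sigma3 H EX3 ST4 ST5 UN3 hc T hP σ

end Pool.Agent.N641.VB
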