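import Pool.Agent.N641.VB.All
import Pool.Agent.N641.VB.Main5
import Pool.Agent.N619.VB.EX3
import Pool.Agent.N887.VB.TM3
import Pool.Agent.N478.VB.TM4
import Pool.Agent.N293.VB.ST4
import Pool.Agent.N81.VB.ST5
import Pool.Agent.N377.VB.UN3
import Pool.Agent.N564.VB.CTS

set_option autoImplicit false

/-!
# Project VB (helper641): the leaves of the third part
-/

namespace Pool.Agent.N641.VB

theorem tm3 : S_TM3 := Pool.Agent.N887.VB.TM3

theorem tm4 : S_TM4 := Pool.Agent.N478.VB.TM4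

theorem ex3 : S_EX3 := Pool.Agent.N619.VB.EX3 tm3 tm4

theorem st4 : S_ST4 := Pool.Agent.N293.VB.ST4.ST4 Pool.Agent.N353.VB.SIL
  Pool.Agent.N568.VB.Mea.MEA

theorem st5 : S_ST5 := Pool.Agent.N81.VB.ST5.ST5 Pool.Agent.N353.VB.SIL
  Pool.Agent.N568.VB.Mea.MEA Pool.Agent.N999.VB.MEW

theorem un3 : S_UN3 := Pool.Agent.N377.VB.UN3

theorem cts : S_CTS := Pool.Agent.N564.VB.CTS

end Pool.Agent.N641.VB
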