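import Pool.Agent.N641.VB.Stm7

set_option autoImplicit false

/-!
# Project VB (helper641): rings with `x ^ m = x` of arbitrary characteristic: statements
-/

namespace Pool.Agent.N641.VB

open FirstOrder FirstOrder.Language

/-- `ev c x` is the idempotent of the set of the points at which `x` has the value `c`; the values
are added and multiplied by the partial operations `plus`, `times` -/
structure EvG {R : Type} [iR : CommRing R] {C : Type} (plus times : C → C → C → Prop)
    (zer one : Set C) (ev : C → R → R) : Prop where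
  idem : ∀ c x, ev c x * ev c x = ev c x
  orth : ∀ c d x, c ≠ d → ev c x * ev d x = 0
  total : ∀ x b, (∀ c, b * ev c x = 0) → b = 0
  inj : ∀ x y, (∀ c, ev c x = ev c y) → x = y
  glue : ∀ b x y c, b * b = b → ev c (b * x + (1 - b) * y) = b * ev c x + (1 - b) * ev c y
  add : ∀ c d e x y, plus c d e → ev c x * ev d y * ev e (x + y) = ev c x * ev d y
  add' : ∀ c d x y, (∀ e, ¬ plus c d e) → ev c x * ev d y = 0
  mul : ∀ c d e x y, times c d e → ev c x * ev d y * ev e (x * y) = ev c x * ev d y
  mul' : ∀ c d x y, (∀ e, ¬ times c d e) → ev c x * ev d y = 0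
  idp : ∀ x, x * x = x ↔ ∀ c, c ∉ zer → c ∉ one → ev c x = 0
  val : ∀ x y, x * x = x → ((∀ c ∈ one, ev c x * y = ev c x) ↔ x * y = x)
  ideal : ∀ c, DefP (strR iR) (fun v : Fin 1 → R => v 0 * v 0 = v 0 ∧ ∃ x, v 0 * ev c x = v 0)

/-- RND: the theorem of Arens and Kaplansky for rings with `x ^ m = x` -/
def S_RND : Prop := ∀ (m : ℕ), 2 ≤ m → ∀ (R : Type) [CommRing R] [Countable R],
  (∀ x : R, x ^ m = x) → ∃ (C : Type) (_ : Finite C) (plus times : C → C → C → Prop)
    (zer one : Set C) (ev : C → R → R), EvG plus times zer one ev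

/-- RNE: rings with `x ^ m = x` are bi-interpretable with Boolean algebras with ideals -/
def S_RNE : Prop := ∀ (R : CommRing ℕ) (C : Type) [Finite C] (plus times : C → C → C → Prop)
  (zer one : Set C) (ev : C → ℕ → ℕ), @EvG ℕ R C plus times zer one ev → BM6 (strR R)

end Pool.Agent.N641.VB
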