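import Pool.Agent.N641.VB.Stm8
import Pool.Agent.N521.VB.RNB
import Pool.Agent.N584.VB.RNA
import Pool.Agent.N564.VB.RCB
import Pool.Agent.N329.VB.RCA
import Pool.Agent.N575.VB.BMD
import Pool.Agent.N56.VB.DPC
import Pool.Agent.N700.VB.AUB
import Pool.Agent.N221.VB.AUA
import Pool.Agent.N641.VB.Stm9
import Pool.Agent.N941.VB.RNE
import Pool.Agent.N42.VB.RND

set_option autoImplicit false

/-!
# Project VB (helper641): the leaves of the examples
-/

namespace Pool.Agent.N641.VB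

theorem dpc : S_DPC := Pool.Agent.N56.VB.DPC

theorem bmd : S_BMD := Pool.Agent.N575.VB.BMD

theorem rcb : S_RCB := Pool.Agent.N564.VB.RCB dpc bmd Pool.Agent.N329.VB.RCA

theorem rna : S_RNA := Pool.Agent.N584.VB.RNA

theorem rnb : S_RNB := Pool.Agent.N521.VB.RNB dpc bmd

theorem aub : S_AUB := Pool.Agent.N700.VB.AUB.AUB dpc bmd Pool.Agent.N221.VB.AUA.AUA

theorem rnd : S_RND := Pool.Agent.N42.VB.RND.RND rna dpc

theorem rne : S_RNE := Pool.Agent.N941.VB.RNE dpc bmd

end Pool.Agent.N641.VB
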