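import Pool.Agent.N641.VB.Stm7

set_option autoImplicit false

/-!
# Project VB (helper641): Boolean algebras with an automorphism of prime order: statements
-/

namespace Pool.Agent.N641.VB

open FirstOrder FirstOrder.Language

/-- `c` is the disjoint union of the `p` translates of some `d` -/
def FreeP (p : ℕ) {B : Type} [BooleanAlgebra B] (s : B → B) (c : B) : Prop :=
  ∃ d : B, (∀ i j, i < p → j < p → i ≠ j → s^[i] d ⊓ s^[j] d = ⊥) ∧
    ∀ x, (∀ i < p, s^[i] d ≤ x) ↔ c ≤ x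

/-- AUA: structure of Boolean algebras with an automorphism of prime order -/
def S_AUA : Prop := ∀ (p : ℕ) [Fact p.Prime] (B : Type) [BooleanAlgebra B] [Countable B]
  (s : B → B), (∀ a b, a ≤ b ↔ s a ≤ s b) → (∀ a, s^[p] a = a) →
  ∃ Φ : B → ZMod p → B,
    (∀ b i, s (Φ b i) = Φ b i) ∧ (∀ a b, a ≤ b ↔ ∀ i, Φ a i ≤ Φ b i) ∧
    (∀ b i, Φ (s b) i = Φ b (i - 1)) ∧ (∀ b, s b = b → ∀ i, Φ b i = b) ∧
    (∀ b i j, FreeP p s (symmDiff (Φ b i) (Φ b j))) ∧
    (∀ c : ZMod p → B, (∀ i, s (c i) = c i) → (∀ i j, FreeP p s (symmDiff (c i) (c j))) →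
      ∃ b, Φ b = c)

/-- AUB: Boolean algebras with an automorphism of prime order are bi-interpretable with Boolean
algebras with an ideal -/
def S_AUB : Prop := ∀ (p : ℕ) [Fact p.Prime] (bo : BooleanAlgebra ℕ) (s : ℕ → ℕ),
  (∀ a b, bo.le a b ↔ bo.le (s a) (s b)) → (∀ a, s^[p] a = a) → BM6 (strA bo.le s)

end Pool.Agent.N641.VB
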