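import Pool.Agent.N641.VB.Stm10
import Pool.Agent.N641.VB.Stm8

set_option autoImplicit false

/-!
# Project VB (helper641): Boolean algebras with an automorphism of finite order
-/

namespace Pool.Agent.N641.VB

open FirstOrder FirstOrder.Language

theorem autf_term {G β : Type} (le : ℕ → ℕ → Prop) (s : G → ℕ → ℕ) (a : ℕ → ℕ) (k : G → ℕ)
    (hk : ∀ g x, s g x = a^[k g] x) (t : (LG G).Term β) :
    ∃ t' : LA.Term β, ∀ v : β → ℕ,
      @Term.realize LA ℕ (strA le a) _ v t' = @Term.realize (LG G) ℕ (strG le s) _ v t := by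
  induction t with
  | var i => exact ⟨Term.var i, fun v => rfl⟩
  | @func l F ts ih =>
    cases F with
    | act g =>
      obtain ⟨t', ht'⟩ := ih 0
      have h : ∀ n : ℕ, ∃ t'' : LA.Term β, ∀ v : β → ℕ,
          @Term.realize LA ℕ (strA le a) _ v t'' =
            a^[n] (@Term.realize (LG G) ℕ (strG le s) _ v (ts 0)) := by
        intro n
        induction n with
        | zero => exact ⟨t', ht'⟩
        | succ n ihn =>
          obtain ⟨t'', ht''⟩ := ihn
          refine ⟨Term.func (L := LA) (l := 1) FunA.s (fun _ => t''), fun v => ?_⟩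
          show a (@Term.realize LA ℕ (strA le a) _ v t'') = _
          rw [ht'', Function.iterate_succ_apply']
      obtain ⟨t'', ht''⟩ := h (k g)
      refine ⟨t'', fun v => ?_⟩
      rw [ht'']
      show _ = s g (@Term.realize (LG G) ℕ (strG le s) _ v (ts 0))
      rw [hk]

theorem autf_formula {G : Type} (le : ℕ → ℕ → Prop) (s : G → ℕ → ℕ) (a : ℕ → ℕ) (k : G → ℕ)
    (hk : ∀ g x, s g x = a^[k g] x) {α : Type} (χ : (LG G).Formula α) :
    ∃ χ' : LA.Formula α, ∀ v : α → ℕ,
      @Formula.Realize LA ℕ (strA le a) _ χ' v ↔ @Formula.Realize (LG G) ℕ (strG le s) _ χ v := by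
  letI i1 := strA le a
  letI i2 := strG le s
  choose ft hft using fun (n : ℕ) (t : (LG G).Term (α ⊕ Fin n)) =>
    autf_term le s a k hk t
  let fr : ∀ n, (LG G).Relations n → LA.Relations n := fun n R => match R with
    | .le => SymO.le
  refine ⟨BoundedFormula.mapTermRel (g := id) ft fr (fun _ => id) χ, fun v => ?_⟩
  refine BoundedFormula.realize_mapTermRel_id ?_ ?_
  · intro n t xs
    exact hft n t _
  · intro n R x
    cases R with
    | le => rfl

theorem autf_transfer {G : Type} (le : ℕ → ℕ → Prop) (s : G → ℕ → ℕ) (a : ℕ → ℕ) (k : G → ℕ)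
    (hk : ∀ g x, s g x = a^[k g] x) (g0 : G) (hg0 : ∀ x, s g0 x = a x)
    (h : BM6 (strG le s)) : BM6 (strA le a) := by
  obtain ⟨M, i1, i2, bo, mu, σ, q, p, g, f, h1, h2⟩ := h
  choose tr htr using fun (α : Type) (χ : (LG G).Formula α) => autf_formula le s a k hk χ
  let σ' : Sc6 LA M :=
    { n := σ.n
      n' := σ.n'
      t := σ.t
      r := σ.r
      dom := tr _ σ.dom
      φ := tr _ σ.φ
      ψ := fun c => tr _ (σ.ψ c)
      δ := σ.δ
      ε := σ.ε
      ρ := fun l R => match l, R with
        | _, .le => σ.ρ 2 RelG.le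
      γ := fun l F => match l, F with
        | _, .s => σ.γ 1 (FunG.act g0)
      κ := σ.κ
      π := σ.π }
  refine ⟨M, i1, i2, bo, mu, σ', q, p, g, f, h1, ⟨?_, ?_, ?_, ?_⟩⟩
  · refine @In6.mk LA M σ' ℕ bo mu q ℕ (strA le a) g ?_ ?_ ?_ ?_
    · exact h2.inn.onto
    · exact h2.inn.eq
    · intro l R v hv
      cases R with
      | le => exact h2.inn.rel 2 RelG.le v hv
    · intro l F v hv
      cases F with
      | s =>
        refine (h2.inn.fun_ 1 (FunG.act g0) v hv).trans ?_
        show s g0 _ = _ ↔ a _ = _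
        rw [hg0]
  · refine ⟨?_, ?_, ?_⟩
    · intro b
      obtain ⟨x, hx, hb⟩ := h2.dec.surj b
      exact ⟨x, (htr _ _ _).2 hx, hb⟩
    · intro v hv
      exact (htr _ _ _).trans (h2.dec.le v fun i => (htr _ _ _).1 (hv i))
    · intro c x hx
      exact (htr _ _ _).trans (h2.dec.val c x ((htr _ _ _).1 hx))
  · intro v b hv
    refine (h2.comp v b hv).trans (and_congr ?_ Iff.rfl)
    exact (htr _ _ _).symm
  · exact h2.par

theorem autf (AGB : S_AGB) (n : ℕ) (hn : 0 < n) (bo : BooleanAlgebra ℕ) (a : ℕ → ℕ)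
    (h1 : ∀ x y, bo.le x y ↔ bo.le (a x) (a y)) (h2 : ∀ x, a^[n] x = x) :
    BM6 (strA bo.le a) := by
  haveI : NeZero n := ⟨hn.ne'⟩
  have hmod : ∀ m x, a^[m % n] x = a^[m] x := fun m x =>
    Function.IsPeriodicPt.iterate_mod_apply (show Function.IsPeriodicPt a n x from h2 x) m
  have hle : ∀ m x y, bo.le x y ↔ bo.le (a^[m] x) (a^[m] y) := by
    intro m
    induction m with
    | zero => exact fun x y => Iff.rfl
    | succ m ih =>
      intro x y
      rw [Function.iterate_succ_apply', Function.iterate_succ_apply']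
      exact (ih x y).trans (h1 _ _)
  let s : Multiplicative (ZMod n) → ℕ → ℕ := fun g => a^[(Multiplicative.toAdd g).val]
  refine autf_transfer bo.le s a (fun g => (Multiplicative.toAdd g).val) (fun g x => rfl)
    (Multiplicative.ofAdd 1) (fun x => ?_) ?_
  · show a^[(1 : ZMod n).val] x = a x
    rw [ZMod.val_one_eq_one_mod, hmod]
    rfl
  · refine AGB (Multiplicative (ZMod n)) bo s (fun g x y => hle _ x y) (fun x => ?_)
      (fun g h x => ?_)
    · show a^[(0 : ZMod n).val] x = x
      rw [ZMod.val_zero]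
      rfl
    · show a^[(Multiplicative.toAdd g + Multiplicative.toAdd h).val] x =
        a^[(Multiplicative.toAdd g).val] (a^[(Multiplicative.toAdd h).val] x)
      rw [ZMod.val_add, hmod, Function.iterate_add_apply]

end Pool.Agent.N641.VB
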