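import Mathlib

set_option autoImplicit false

/-!
# Project VB (helper641): Boolean algebras with additive measures, definitions

Finite types `tp` of elements of Boolean algebras with a finitely additive measure in a finite
commutative monoid, full types `ft`, their addition, and the ideals used for codes.
-/

namespace Pool.Agent.N641.VB

variable {M : Type} [AddCommMonoid M]

/-- `mu` is a finitely additive measure -/
structure AM {A : Type} [BooleanAlgebra A] (mu : A → M) : Prop where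
  bot : mu ⊥ = 0
  sup : ∀ (a b : A), Disjoint a b → mu (a ⊔ b) = mu a + mu b

/-- the values of types of depth `k` -/
def TP (M : Type) : ℕ → Type
  | 0 => Prop
  | k + 1 => M × Set (TP M k × TP M k)

/-- the type of depth `k` of an element -/
def tp {A : Type} [BooleanAlgebra A] (mu : A → M) : (k : ℕ) → A → TP M k
  | 0, a => (a = ⊥ : Prop)
  | k + 1, a => (mu a, {q | ∃ b ≤ a, q = (tp mu k b, tp mu k (a \ b))})

/-- the zero type -/
def pz : (k : ℕ) → TP M k
  | 0 => True
  | k + 1 => (0, {(pz k, pz k)})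

/-- the sum of types -/
def pa : (k : ℕ) → TP M k → TP M k → TP M k
  | 0, p, q => And p q
  | k + 1, s, t => (s.1 + t.1,
      {q | ∃ x ∈ s.2, ∃ y ∈ t.2, q = (pa k x.1 y.1, pa k x.2 y.2)})

theorem pa_comm : ∀ (k : ℕ) (s t : TP M k), pa k s t = pa k t s
  | 0, p, q => propext and_comm
  | k + 1, s, t => by
    refine Prod.ext (add_comm _ _) ?_
    ext q
    constructor
    · rintro ⟨x, hx, y, hy, rfl⟩
      exact ⟨y, hy, x, hx, by rw [pa_comm k, pa_comm k x.2]⟩
    · rintro ⟨x, hx, y, hy, rfl⟩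
      exact ⟨y, hy, x, hx, by rw [pa_comm k, pa_comm k x.2]⟩

theorem pa_assoc : ∀ (k : ℕ) (s t u : TP M k), pa k (pa k s t) u = pa k s (pa k t u)
  | 0, p, q, r => propext and_assoc
  | k + 1, s, t, u => by
    refine Prod.ext (add_assoc _ _ _) ?_
    ext q
    constructor
    · rintro ⟨_, ⟨x, hx, y, hy, rfl⟩, z, hz, rfl⟩
      exact ⟨x, hx, _, ⟨y, hy, z, hz, rfl⟩, by simp only [pa_assoc k]⟩
    · rintro ⟨x, hx, _, ⟨y, hy, z, hz, rfl⟩, rfl⟩
      exact ⟨_, ⟨x, hx, y, hy, rfl⟩, z, hz, by simp only [pa_assoc k]⟩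

theorem pz_pa : ∀ (k : ℕ) (s : TP M k), pa k (pz k) s = s
  | 0, p => propext ⟨fun h => h.2, fun h => ⟨trivial, h⟩⟩
  | k + 1, s => by
    refine Prod.ext (zero_add _) ?_
    ext q
    constructor
    · rintro ⟨x, hx, y, hy, rfl⟩
      rw [Set.mem_singleton_iff.1 hx]
      simp only [pz_pa k]
      exact hy
    · intro hq
      exact ⟨_, rfl, q, hq, by simp only [pz_pa k]⟩

instance instZ (k : ℕ) : Zero (TP M k) := ⟨pz k⟩

instance instA (k : ℕ) : _root_.Add (TP M k) := ⟨pa k⟩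

instance instTP (k : ℕ) : AddCommMonoid (TP M k) where
  add_assoc := pa_assoc k
  zero_add := pz_pa k
  add_zero := fun s => (pa_comm k s (pz k)).trans (pz_pa k s)
  add_comm := pa_comm k
  nsmul := nsmulRec

/-- full types -/
abbrev FT (M : Type) : Type := (k : ℕ) → TP M k

/-- the full type of an element -/
def ft {A : Type} [BooleanAlgebra A] (mu : A → M) (a : A) : FT M :=
  fun k => tp mu k a

/-- additivity of types -/
theorem tp_sup {A : Type} [BooleanAlgebra A] {mu : A → M} (hm : AM mu) :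
    ∀ (k : ℕ) (a b : A), Disjoint a b → tp mu k (a ⊔ b) = tp mu k a + tp mu k b
  | 0, a, b, _ => propext sup_eq_bot_iff
  | k + 1, a, b, h => by
    refine Prod.ext (hm.sup a b h) ?_
    ext q
    constructor
    · rintro ⟨c, hc, rfl⟩
      have h1 : tp mu k c = tp mu k (c ⊓ a) + tp mu k (c ⊓ b) := by
        rw [← tp_sup hm k _ _ (h.mono inf_le_right inf_le_right), ← inf_sup_left,
          inf_eq_left.2 hc]
      have h2 : tp mu k ((a ⊔ b) \ c) = tp mu k (a \ (c ⊓ a)) + tp mu k (b \ (c ⊓ b)) := by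
        rw [← tp_sup hm k _ _ (h.mono sdiff_le sdiff_le), sup_sdiff, sdiff_inf_self_right,
          sdiff_inf_self_right]
      rw [h1, h2]
      exact ⟨_, ⟨c ⊓ a, inf_le_right, rfl⟩, _, ⟨c ⊓ b, inf_le_right, rfl⟩, rfl⟩
    · rintro ⟨_, ⟨c, hc, rfl⟩, _, ⟨d, hd, rfl⟩, rfl⟩
      refine ⟨c ⊔ d, sup_le_sup hc hd, ?_⟩
      have h1 : tp mu k (c ⊔ d) = tp mu k c + tp mu k d := tp_sup hm k _ _ (h.mono hc hd)
      have h2 : tp mu k ((a ⊔ b) \ (c ⊔ d)) = tp mu k (a \ c) + tp mu k (b \ d) := by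
        rw [← tp_sup hm k _ _ (h.mono sdiff_le sdiff_le)]
        congr 1
        have e1 : a \ (c ⊔ d) = a \ c := by
          rw [← sdiff_sdiff_left]
          exact (((h.mono_left sdiff_le).mono_right hd) : Disjoint (a \ c) d).sdiff_eq_left
        have e2 : b \ (c ⊔ d) = b \ d := by
          rw [sup_comm, ← sdiff_sdiff_left]
          exact (((h.symm.mono_left sdiff_le).mono_right hc) : Disjoint (b \ d) c).sdiff_eq_left
        rw [sup_sdiff, e1, e2]
      rw [h1, h2]
      rfl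

theorem ft_sup {A : Type} [BooleanAlgebra A] {mu : A → M} (hm : AM mu)
    (a b : A) (h : Disjoint a b) : ft mu (a ⊔ b) = ft mu a + ft mu b :=
  funext fun k => tp_sup hm k a b h

theorem tp_bot {A : Type} [BooleanAlgebra A] {mu : A → M} (hm : AM mu) :
    ∀ k : ℕ, tp mu k (⊥ : A) = 0
  | 0 => propext ⟨fun _ => trivial, fun _ => rfl⟩
  | k + 1 => by
    refine Prod.ext hm.bot ?_
    ext q
    constructor
    · rintro ⟨c, hc, rfl⟩
      rw [le_bot_iff.1 hc, sdiff_self, tp_bot hm k]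
      rfl
    · intro hq
      refine ⟨⊥, le_rfl, ?_⟩
      rw [sdiff_self, tp_bot hm k]
      exact hq

theorem ft_bot {A : Type} [BooleanAlgebra A] {mu : A → M} (hm : AM mu) :
    ft mu (⊥ : A) = 0 := funext fun k => tp_bot hm k

/-- the type of depth `k + 1` determines the type of depth `k` -/
theorem tp_dn {A A' : Type} [BooleanAlgebra A] [BooleanAlgebra A'] {mu : A → M} {mu' : A' → M} :
    ∀ (k : ℕ) (a : A) (a' : A'), tp mu (k + 1) a = tp mu' (k + 1) a' → tp mu k a = tp mu' k a'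
  | 0, a, a', h => by
    have h2 : ∀ (C C' : Type) [BooleanAlgebra C] [BooleanAlgebra C'] (nu : C → M) (nu' : C' → M)
        (c : C) (c' : C'), tp nu 1 c = tp nu' 1 c' → c' = ⊥ → c = ⊥ := by
      intro C C' _ _ nu nu' c c' hc e
      have h3 : ((tp nu 0 (⊥ : C), tp nu 0 (c \ ⊥)) : TP M 0 × TP M 0) ∈ (tp nu 1 c).2 :=
        ⟨⊥, bot_le, rfl⟩
      rw [hc] at h3
      obtain ⟨b, hb, h4⟩ := h3
      have h5 : tp nu 0 (c \ ⊥) = tp nu' 0 (c' \ b) := congrArg Prod.snd h4
      have h6 : (c \ ⊥ = ⊥) = (c' \ b = ⊥) := h5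
      rw [sdiff_bot] at h6
      rw [h6, e, bot_sdiff]
    exact propext ⟨fun e => h2 A' A mu' mu a' a h.symm e, fun e => h2 A A' mu mu' a a' h e⟩
  | k + 1, a, a', h => by
    have h1 : mu a = mu' a' := congrArg Prod.fst h
    have h2 : ∀ (C C' : Type) [BooleanAlgebra C] [BooleanAlgebra C'] (nu : C → M) (nu' : C' → M)
        (c : C) (c' : C'), tp nu (k + 2) c = tp nu' (k + 2) c' → ∀ q,
        q ∈ (tp nu (k + 1) c).2 → q ∈ (tp nu' (k + 1) c').2 := by
      intro C C' _ _ nu nu' c c' hc q hq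
      obtain ⟨b, hb, rfl⟩ := hq
      have h3 : ((tp nu (k + 1) b, tp nu (k + 1) (c \ b)) : TP M (k + 1) × TP M (k + 1)) ∈
        (tp nu (k + 2) c).2 := ⟨b, hb, rfl⟩
      rw [hc] at h3
      obtain ⟨b', hb', h4⟩ := h3
      refine ⟨b', hb', Prod.ext ?_ ?_⟩
      · exact tp_dn k _ _ (congrArg Prod.fst h4)
      · exact tp_dn k _ _ (congrArg Prod.snd h4)
    refine Prod.ext h1 (Set.ext fun q => ⟨h2 A A' mu mu' a a' h q, h2 A' A mu' mu a' a h.symm q⟩)

theorem tp_mono {A A' : Type} [BooleanAlgebra A] [BooleanAlgebra A'] {mu : A → M} {mu' : A' → M}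
    {a : A} {a' : A'} {j k : ℕ} (hjk : j ≤ k) (h : tp mu k a = tp mu' k a') :
    tp mu j a = tp mu' j a' := by
  induction k with
  | zero =>
    obtain rfl : j = 0 := Nat.le_zero.1 hjk
    exact h
  | succ k ih =>
    rcases Nat.eq_or_lt_of_le hjk with rfl | h1
    · exact h
    · exact ih (Nat.lt_succ_iff.1 h1) (tp_dn k a a' h)

theorem tp_finite [Finite M] : ∀ k : ℕ, Finite (TP M k)
  | 0 => inferInstanceAs (Finite Prop)
  | k + 1 => by
    haveI := tp_finite k
    exact inferInstanceAs (Finite (M × Set (TP M k × TP M k)))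

instance instF [Finite M] (k : ℕ) : Finite (TP M k) := tp_finite k

/-- realised full types -/
def Rl (t : FT M) : Prop :=
  ∃ (A : Type) (_ : BooleanAlgebra A) (mu : A → M) (a : A), AM mu ∧ ft mu a = t

/-- the divisors of a type -/
def Dv (t : FT M) : Set (FT M) := {u | Rl u ∧ ∃ v, Rl v ∧ u + v = t}

/-- the product of two algebras -/
def mprod {A B : Type} (mu : A → M) (nu : B → M) : A × B → M := fun x => mu x.1 + nu x.2

/-- the ideals `DD n` over the ideal `D0` -/
def DD {A : Type} [BooleanAlgebra A] (D0 : A → Prop) : ℕ → A → Prop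
  | 0, a => D0 a
  | n + 1, a => ∃ s : Finset A,
      (∀ c ∈ s, ∀ d ≤ c, DD D0 n d ∨ DD D0 n (c \ d)) ∧ a ≤ s.sup id

/-- atomless modulo `DD n` -/
def AL {A : Type} [BooleanAlgebra A] (D0 : A → Prop) (n : ℕ) (a : A) : Prop :=
  ∀ c ≤ a, ¬ DD D0 n c → ∃ d ≤ c, ¬ DD D0 n d ∧ ¬ DD D0 n (c \ d)

/-- pure elements of rank `n` -/
def PP {A : Type} [BooleanAlgebra A] (D0 : A → Prop) (n : ℕ) (a : A) : Prop :=
  ¬ DD D0 n a ∧ AL D0 n a ∧ ∀ c ≤ a, ∀ m < n, AL D0 m c → DD D0 n c

/-- the code of an element -/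
def WW {A : Type} [BooleanAlgebra A] (D0 : A → Prop) (a : A) : Set ℕ := {n | ∃ b ≤ a, PP D0 n b}

open Classical in
/-- the cells of a tuple -/
noncomputable def cell {A : Type} [BooleanAlgebra A] {n : ℕ} (p : Fin n → A)
    (ε : Fin n → Bool) : A := Finset.univ.inf fun i => if ε i then p i else (p i)ᶜ

end Pool.Agent.N641.VB
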