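import Pool.Agent.N641.VB.FinalMain
import Pool.Agent.N641.VB.AutFin

set_option autoImplicit false

/-!
# Project VB (helper641): the final theorem with groups of automorphisms
-/

namespace Pool.Agent.N641.VB.Final

open FirstOrder FirstOrder.Language Pool.Agent.N641.VB

theorem ctbl_LG (G : Type) [Finite G] : Countable (LG G).Symbols := by
  have : Countable G := Finite.to_countable
  have : ∀ k, Countable ((LG G).Functions k) := fun k => by
    have : Function.Injective (fun r : FunG G k => match r with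
      | .act g => g) := by
      intro r s hrs
      cases r
      cases s
      simp_all
    exact this.countable
  have : ∀ k, Countable ((LG G).Relations k) := fun k => by
    have : Function.Injective (fun _ : RelG k => ()) := by
      intro r s _
      cases r
      cases s
      rfl
    exact this.countable
  exact inferInstanceAs (Countable ((Σ l, (LG G).Functions l) ⊕ Σ l, (LG G).Relations l))

theorem main7 (AGB : S_AGB) :
    (∀ (L : FirstOrder.Language.{0, 0}), Countable L.Symbols → ∀ (T : L.Theory),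
      (∀ S : L.Structure ℕ, @Theory.Model L ℕ S T → ∃ S' : L.Structure ℕ,
        (∀ χ : L.Sentence, @Sentence.Realize L ℕ S χ ↔ @Sentence.Realize L ℕ S' χ) ∧
        ∃ (M : Type) (_ : AddCommMonoid M) (_ : Finite M) (bo : BooleanAlgebra ℕ) (mu : ℕ → M),
          FinitelyAdditive bo mu ∧ BiInterpretable (algebraStructure bo mu) S') →
      StrongDichotomy L T) ∧
    (∀ (M : Type) [AddCommMonoid M] [Finite M] (T : (AlgebraLanguage M).Theory),
      (∀ S : (AlgebraLanguage M).Structure ℕ, @Theory.Model (AlgebraLanguage M) ℕ S T →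
        ∃ (bo : BooleanAlgebra ℕ) (mu : ℕ → M), FinitelyAdditive bo mu ∧
          S = algebraStructure bo mu) →
      StrongDichotomy (AlgebraLanguage M) T) ∧
    (∀ (r : ℕ) (T : (LI r).Theory),
      (∀ S : (LI r).Structure ℕ, @Theory.Model (LI r) ℕ S T →
        ∃ (bo : BooleanAlgebra ℕ) (I : Fin r → Set ℕ), (∀ i, IsId bo (I i)) ∧ S = strI bo I) →
      StrongDichotomy (LI r) T) ∧
    (∀ T : LO.Theory,
      (∀ S : LO.Structure ℕ, @Theory.Model LO ℕ S T → ∃ D : DistribLattice ℕ,
        (∀ a b c : ℕ, D.le a b → D.le b c → ∃ d, D.inf b d = a ∧ D.sup b d = c) ∧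
        S = strO D.le) →
      StrongDichotomy LO T) ∧
    (∀ T : LR.Theory,
      (∀ S : LR.Structure ℕ, @Theory.Model LR ℕ S T → ∃ (m : ℕ) (R : CommRing ℕ),
        2 ≤ m ∧ (∀ x, R.npow m x = x) ∧ S = strR R) →
      StrongDichotomy LR T) ∧
    (∀ T : LA.Theory,
      (∀ S : LA.Structure ℕ, @Theory.Model LA ℕ S T → ∃ (n : ℕ) (bo : BooleanAlgebra ℕ)
        (s : ℕ → ℕ), 0 < n ∧ (∀ a b, bo.le a b ↔ bo.le (s a) (s b)) ∧ (∀ a, s^[n] a = a) ∧
        S = strA bo.le s) →
      StrongDichotomy LA T) ∧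
    (∀ (G : Type) [CommGroup G] [Finite G] (T : (LG G).Theory),
      (∀ S : (LG G).Structure ℕ, @Theory.Model (LG G) ℕ S T → ∃ (bo : BooleanAlgebra ℕ)
        (s : G → ℕ → ℕ), (∀ g a b, bo.le a b ↔ bo.le (s g a) (s g b)) ∧ (∀ a, s 1 a = a) ∧
        (∀ g h a, s (g * h) a = s g (s h a)) ∧ S = strG bo.le s) →
      StrongDichotomy (LG G) T) := by
  refine ⟨main.1, main.2.1, main.2.2.1, main.2.2.2.1, main.2.2.2.2.1, ?_, ?_⟩
  · intro T hT
    refine strong_of_bm6 ctbl_aut fun S hS => ?_
    obtain ⟨n, bo, s, hn, h1, h2, rfl⟩ := hT S hS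
    exact ⟨_, fun _ => Iff.rfl, autf AGB n hn bo s h1 h2⟩
  · intro G _ _ T hT
    refine strong_of_bm6 (ctbl_LG G) fun S hS => ?_
    obtain ⟨bo, s, h1, h2, h3, rfl⟩ := hT S hS
    exact ⟨_, fun _ => Iff.rfl, AGB G bo s h1 h2 h3⟩

end Pool.Agent.N641.VB.Final
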