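import Pool.Agent.N641.VB.Final7
import Pool.Agent.N619.VB.AGA
import Pool.Agent.N280.VB.AGB

set_option autoImplicit false

/-!
# Project VB (helper641): the leaves on groups of automorphisms
-/

namespace Pool.Agent.N641.VB

theorem aga : S_AGA := Pool.Agent.N619.VB.AGAp.AGA

theorem agb : S_AGB := Pool.Agent.N280.VB.AGB.AGB dpc bmd aga

end Pool.Agent.N641.VB
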