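import Mathlib

set_option autoImplicit false

/-!
# Project VB (helper641): definitions for the final theorem
-/

namespace Pool.Agent.N641.VB.Final

open FirstOrder FirstOrder.Language

/-- Formulas for an interpretation of `L'`-structures in `L`-structures, with `n` parameters and of
dimension `r`: the domain, equality, the relations and the graphs of the functions. -/
structure Interpretation (L L' : FirstOrder.Language.{0, 0}) where
  n : ℕ
  r : ℕ
  dom : L.Formula (Fin n ⊕ Fin r)
  eqv : L.Formula (Fin n ⊕ Fin 2 × Fin r)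
  rel : (l : ℕ) → L'.Relations l → L.Formula (Fin n ⊕ Fin l × Fin r)
  graph : (l : ℕ) → L'.Functions l → L.Formula (Fin n ⊕ Fin (l + 1) × Fin r)

/-- The structure `S'` is interpreted in the structure `S` with parameters `p` by the formulas `I`
via `f`, which maps the `r`-tuples in the domain onto the universe of `S'`. -/
structure Interprets {L L' : FirstOrder.Language.{0, 0}} (I : Interpretation L L')
    (S : L.Structure ℕ) (p : Fin I.n → ℕ) (S' : L'.Structure ℕ) (f : (Fin I.r → ℕ) → ℕ) :
    Prop where
  onto : ∀ s, ∃ x, @Formula.Realize L ℕ S _ I.dom (Sum.elim p x) ∧ f x = s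
  eqv : ∀ v : Fin 2 × Fin I.r → ℕ,
    (∀ i, @Formula.Realize L ℕ S _ I.dom (Sum.elim p fun j => v (i, j))) →
    (@Formula.Realize L ℕ S _ I.eqv (Sum.elim p v) ↔
      f (fun j => v (0, j)) = f (fun j => v (1, j)))
  rel : ∀ (l : ℕ) (R : L'.Relations l) (v : Fin l × Fin I.r → ℕ),
    (∀ i, @Formula.Realize L ℕ S _ I.dom (Sum.elim p fun j => v (i, j))) →
    (@Formula.Realize L ℕ S _ (I.rel l R) (Sum.elim p v) ↔
      @Structure.RelMap L' ℕ S' l R (fun i => f fun j => v (i, j)))
  graph : ∀ (l : ℕ) (F : L'.Functions l) (v : Fin (l + 1) × Fin I.r → ℕ),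
    (∀ i, @Formula.Realize L ℕ S _ I.dom (Sum.elim p fun j => v (i, j))) →
    (@Formula.Realize L ℕ S _ (I.graph l F) (Sum.elim p v) ↔
      @Structure.funMap L' ℕ S' l F (fun i => f fun j => v (i.castSucc, j)) =
        f (fun j => v (Fin.last l, j)))

/-- The structures `A` and `S` are bi-interpretable with parameters (in a weak sense: only the
composition of the interpretations in `A` has to be definable in `A`). -/
def BiInterpretable {L L' : FirstOrder.Language.{0, 0}} (A : L'.Structure ℕ)
    (S : L.Structure ℕ) : Prop :=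
  ∃ (I : Interpretation L' L) (q : Fin I.n → ℕ) (g : (Fin I.r → ℕ) → ℕ)
    (J : Interpretation L L') (p : Fin J.n → ℕ) (f : (Fin J.r → ℕ) → ℕ)
    (κ : L'.Formula (Fin I.n ⊕ (Fin J.r × Fin I.r) ⊕ Fin 1)),
    Interprets I A q S g ∧ Interprets J S p A f ∧
    ∀ (v : Fin J.r × Fin I.r → ℕ) (b : ℕ),
      (∀ i, @Formula.Realize L' ℕ A _ I.dom (Sum.elim q fun j => v (i, j))) →
      (@Formula.Realize L' ℕ A _ κ (Sum.elim q (Sum.elim v fun _ => b)) ↔
        @Formula.Realize L ℕ S _ J.dom (Sum.elim p fun i => g fun j => v (i, j)) ∧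
          f (fun i => g fun j => v (i, j)) = b)

/-- The relation symbols: the order and a unary predicate for each value of the measure. -/
inductive Symbol (M : Type) : ℕ → Type
  | le : Symbol M 2
  | value (c : M) : Symbol M 1

/-- The language of Boolean algebras with a measure with values in `M`. -/
def AlgebraLanguage (M : Type) : FirstOrder.Language.{0, 0} := ⟨fun _ => Empty, Symbol M⟩

/-- The structure given by a Boolean algebra with universe `ℕ` and a map. -/
@[reducible] def algebraStructure {M : Type} (bo : BooleanAlgebra ℕ) (mu : ℕ → M) :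
    (AlgebraLanguage M).Structure ℕ where
  funMap := fun {_} F _ => Empty.elim F
  RelMap := fun {_} R => match R with
    | .le => fun v => bo.le (v 0) (v 1)
    | .value c => fun v => mu (v 0) = c

/-- `mu` is finitely additive. -/
def FinitelyAdditive {M : Type} [AddCommMonoid M] (bo : BooleanAlgebra ℕ) (mu : ℕ → M) : Prop :=
  mu bo.bot = 0 ∧ ∀ a b, bo.inf a b = bo.bot → mu (bo.sup a b) = mu a + mu b

/-- There are perfectly many models with universe `ℕ` (second alternative of the frozen statement):
some continuous family of models, indexed by the Cantor space, consists of pairwise non-isomorphic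
models. -/
def PerfectlyMany (L : FirstOrder.Language.{0, 0}) (T : L.Theory) : Prop :=
  ∃ f : (ℕ → Bool) → L.Structure ℕ,
    (∀ x : ℕ → Bool, @FirstOrder.Language.Theory.Model L ℕ (f x) T) ∧
    (∀ x y : ℕ → Bool,
        Nonempty (@FirstOrder.Language.Equiv L ℕ ℕ (f x) (f y)) → x = y) ∧
    (∀ (n : ℕ) (R : L.Relations n) (a : Fin n → ℕ),
        IsClopen {x : ℕ → Bool | @FirstOrder.Language.Structure.RelMap L ℕ (f x) n R a}) ∧
    (∀ (n : ℕ) (F : L.Functions n) (a : Fin n → ℕ) (b : ℕ),
        IsOpen {x : ℕ → Bool | @FirstOrder.Language.Structure.funMap L ℕ (f x) n F a = b})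

/-- The strong form of the dichotomy of Q1: the models with universe `ℕ` fall into countably many
isomorphism classes, and elementarily equivalent ones are isomorphic, or there are perfectly many
models. -/
def StrongDichotomy (L : FirstOrder.Language.{0, 0}) (T : L.Theory) : Prop :=
  ((∃ g : ℕ → L.Structure ℕ, ∀ S : L.Structure ℕ,
      @FirstOrder.Language.Theory.Model L ℕ S T →
        ∃ n : ℕ, Nonempty (@FirstOrder.Language.Equiv L ℕ ℕ S (g n))) ∧
    ∀ S S' : L.Structure ℕ, @FirstOrder.Language.Theory.Model L ℕ S T →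
      @FirstOrder.Language.Theory.Model L ℕ S' T →
      (∀ χ : L.Sentence, @FirstOrder.Language.Sentence.Realize L ℕ S χ ↔
        @FirstOrder.Language.Sentence.Realize L ℕ S' χ) →
      Nonempty (@FirstOrder.Language.Equiv L ℕ ℕ S S')) ∨
  PerfectlyMany L T

end Pool.Agent.N641.VB.Final
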