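import Mathlib

set_option autoImplicit false

/-!
# Project VB (helper641): languages of the examples
-/

namespace Pool.Agent.N641.VB

open FirstOrder FirstOrder.Language

/-- the relation symbols for the order and `r` ideals -/
inductive SymI (r : ℕ) : ℕ → Type
  | le : SymI r 2
  | ideal (i : Fin r) : SymI r 1

/-- the language of Boolean algebras with `r` distinguished ideals -/
def LI (r : ℕ) : FirstOrder.Language.{0, 0} := ⟨fun _ => Empty, SymI r⟩

/-- the structure given by a Boolean algebra and `r` sets -/
@[reducible] def strI {r : ℕ} (bo : BooleanAlgebra ℕ) (I : Fin r → Set ℕ) :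
    (LI r).Structure ℕ where
  funMap := fun {_} f _ => Empty.elim f
  RelMap := fun {_} R => match R with
    | .le => fun v => bo.le (v 0) (v 1)
    | .ideal i => fun v => v 0 ∈ I i

/-- ideals (possibly the whole algebra) -/
def IsId (bo : BooleanAlgebra ℕ) (I : Set ℕ) : Prop :=
  bo.bot ∈ I ∧ ∀ a b, bo.sup a b ∈ I ↔ a ∈ I ∧ b ∈ I

/-- the symbol for an order -/
inductive SymO : ℕ → Type
  | le : SymO 2

/-- the language of orders -/
def LO : FirstOrder.Language.{0, 0} := ⟨fun _ => Empty, SymO⟩

/-- the structure given by a relation -/
@[reducible] def strO {U : Type} (le : U → U → Prop) : LO.Structure U where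
  funMap := fun {_} f _ => Empty.elim f
  RelMap := fun {_} R => match R with
    | .le => fun v => le (v 0) (v 1)

/-- the symbols for rings -/
inductive SymR : ℕ → Type
  | add : SymR 2
  | mul : SymR 2

/-- the language of rings (addition and multiplication) -/
def LR : FirstOrder.Language.{0, 0} := ⟨SymR, fun _ => Empty⟩

/-- the structure given by a ring -/
@[reducible] def strR {U : Type} (R : CommRing U) : LR.Structure U where
  funMap := fun {_} F => match F with
    | .add => fun v => R.add (v 0) (v 1)
    | .mul => fun v => R.mul (v 0) (v 1)
  RelMap := fun {_} R _ => Empty.elim R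

/-- the symbol for an automorphism -/
inductive FunA : ℕ → Type
  | s : FunA 1

/-- the language of orders with a unary function -/
def LA : FirstOrder.Language.{0, 0} := ⟨FunA, SymO⟩

/-- the structure given by a relation and a map -/
@[reducible] def strA {U : Type} (le : U → U → Prop) (s : U → U) : LA.Structure U where
  funMap := fun {_} F => match F with
    | .s => fun v => s (v 0)
  RelMap := fun {_} R => match R with
    | .le => fun v => le (v 0) (v 1)

end Pool.Agent.N641.VB
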