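import Pool.Agent.N641.VB.Main8
import Pool.Agent.N641.VB.Lang

set_option autoImplicit false
set_option linter.style.haveILetI false
set_option linter.unusedVariables false

/-!
# Project VB (helper641): Boolean algebras with distinguished ideals
-/

namespace Pool.Agent.N641.VB

open FirstOrder FirstOrder.Language

theorem ctbl_LI (r : ℕ) : Countable (LI r).Symbols := by
  haveI : ∀ k, Countable ((LI r).Functions k) := fun k => inferInstanceAs (Countable Empty)
  haveI : ∀ k, Countable ((LI r).Relations k) := fun k => by
    have : Function.Injective (fun s : SymI r k => match s with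
      | .le => (none : Option (Fin r))
      | .ideal c => some c) := by
      intro s t hst
      cases s <;> cases t <;> simp_all
    exact this.countable
  exact inferInstanceAs (Countable ((Σ l, (LI r).Functions l) ⊕ Σ l, (LI r).Relations l))

/-- the monoid of the subsets of a finite set with the union -/
@[reducible] def unionMonoid (r : ℕ) : AddCommMonoid (Finset (Fin r)) where
  add := fun a b => a ∪ b
  zero := ∅
  add_assoc := fun a b c => Finset.union_assoc a b c
  zero_add := fun a => Finset.empty_union a
  add_zero := fun a => Finset.union_empty a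
  add_comm := fun a b => Finset.union_comm a b
  nsmul := @nsmulRec _ ⟨∅⟩ ⟨fun a b => a ∪ b⟩

open Classical in
/-- the measure given by the ideals -/
noncomputable def muI {r : ℕ} (I : Fin r → Set ℕ) (a : ℕ) : Finset (Fin r) :=
  Finset.univ.filter fun i => a ∉ I i

theorem am_muI {r : ℕ} {bo : BooleanAlgebra ℕ} {I : Fin r → Set ℕ} (h : ∀ i, IsId bo (I i)) :
    @AM _ (unionMonoid r) ℕ bo (muI I) := by
  classical
  refine @AM.mk _ (unionMonoid r) ℕ bo _ ?_ ?_
  · show muI I _ = (∅ : Finset (Fin r))
    ext i
    simp only [muI, Finset.mem_filter, Finset.mem_univ, true_and, Finset.notMem_empty, iff_false,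
      not_not]
    exact (h i).1
  · intro a b _
    show muI I _ = muI I a ∪ muI I b
    ext i
    simp only [muI, Finset.mem_filter, Finset.mem_univ, true_and, Finset.mem_union]
    have := (h i).2 a b
    tauto

theorem bms_ideals {r : ℕ} {bo : BooleanAlgebra ℕ} {I : Fin r → Set ℕ}
    (h : ∀ i, IsId bo (I i)) : BMS (strI bo I) := by
  classical
  letI := unionMonoid r
  let φ : (LI r).Formula (Fin 0 ⊕ Fin 2) :=
    Relations.formula (SymI.le : (LI r).Relations 2) (fun j => Term.var (Sum.inr j))
  let θ : Fin r → (LI r).Formula (Fin 0 ⊕ Fin 1) := fun i =>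
    Relations.formula (SymI.ideal i : (LI r).Relations 1) (fun j => Term.var (Sum.inr j))
  let ψ : Finset (Fin r) → (LI r).Formula (Fin 0 ⊕ Fin 1) := fun c =>
    BoundedFormula.iInf fun i : Fin r => if i ∈ c then ∼(θ i) else θ i
  refine good_of_def (M := Finset (Fin r)) (p := (Fin.elim0 : Fin 0 → ℕ)) (φ := φ) (ψ := ψ)
    (am_muI h) ⟨?_, ?_⟩ ⟨?_, ?_⟩
  · intro v
    letI := strI bo I
    show Formula.Realize (Relations.formula _ _) _ ↔ _
    rw [Formula.realize_rel]
    exact Iff.rfl
  · intro c v
    letI := strI bo I
    have hθ : ∀ i, (θ i).Realize (Sum.elim Fin.elim0 v) ↔ v 0 ∈ I i := by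
      intro i
      show Formula.Realize (Relations.formula _ _) _ ↔ _
      rw [Formula.realize_rel]
      exact Iff.rfl
    show BoundedFormula.Realize (BoundedFormula.iInf _) _ _ ↔ _
    rw [BoundedFormula.realize_iInf]
    constructor
    · intro h1
      ext i
      have h2 := h1 i
      simp only [muI, Finset.mem_filter, Finset.mem_univ, true_and]
      by_cases hi : i ∈ c
      · rw [if_pos hi] at h2
        have h3 : ¬ (θ i).Realize (Sum.elim Fin.elim0 v) := h2
        rw [hθ] at h3
        exact ⟨fun _ => hi, fun _ => h3⟩
      · rw [if_neg hi] at h2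
        have h3 : (θ i).Realize (Sum.elim Fin.elim0 v) := h2
        rw [hθ] at h3
        exact ⟨fun h4 => absurd h3 h4, fun h4 => absurd h4 hi⟩
    · rintro rfl i
      by_cases hi : i ∈ muI I (v 0)
      · rw [if_pos hi]
        show ¬ (θ i).Realize (Sum.elim Fin.elim0 v)
        rw [hθ]
        simpa [muI] using hi
      · rw [if_neg hi]
        show (θ i).Realize (Sum.elim Fin.elim0 v)
        rw [hθ]
        simpa [muI] using hi
  · intro l R
    cases R with
    | le =>
      refine ⟨Relations.formula (Sym.le : (LM (Finset (Fin r))).Relations 2)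
        (fun j => Term.var (Sum.inr j)), fun v => ?_⟩
      letI := str bo.le (muI I)
      rw [Formula.realize_rel]
      exact Iff.rfl
    | ideal i =>
      refine ⟨BoundedFormula.iSup fun c : {c : Finset (Fin r) // i ∉ c} => fval c.1,
        fun v => ?_⟩
      have key : ∀ c : Finset (Fin r), @Formula.Realize (LM (Finset (Fin r))) ℕ
          (str bo.le (muI I)) _ (fval c) (Sum.elim (Fin.elim0 : Fin 0 → ℕ) v) ↔
          muI I (v 0) = c := fun c => (dec_str bo (muI I)).val c v
      letI := str bo.le (muI I)
      show BoundedFormula.Realize (BoundedFormula.iSup _) _ _ ↔ _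
      rw [BoundedFormula.realize_iSup]
      constructor
      · rintro ⟨c, hc⟩
        have h2 : muI I (v 0) = c.1 := (key c.1).1 hc
        have h3 := c.2
        rw [← h2] at h3
        have h4 : v 0 ∈ I i := by simpa [muI] using h3
        exact h4
      · intro h1
        have h2 : v 0 ∈ I i := h1
        exact ⟨⟨muI I (v 0), by simpa [muI] using h2⟩, (key _).2 rfl⟩
  · intro l F
    exact Empty.elim F

end Pool.Agent.N641.VB
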