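import Pool.Agent.N641.VB.Pub
import Pool.Agent.N641.VB.Ideals
import Pool.Agent.N641.VB.All6
import Pool.Agent.N641.VB.FinalDefs

set_option autoImplicit false
set_option linter.style.haveILetI false

/-!
# Project VB (helper641): the final theorem
-/

namespace Pool.Agent.N641.VB.Final

open FirstOrder FirstOrder.Language Pool.Agent.N641.VB


/-- renaming of the values -/
def ren {M N : Type} (e : M → N) : AlgebraLanguage M →ᴸ LM N where
  onFunction := fun {_} F => Empty.elim F
  onRelation := fun {_} R => match R with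
    | .le => .le
    | .value c => .val (e c)

theorem realize_ren {M N : Type} (e : M ≃ N) (bo : BooleanAlgebra ℕ) (mu : ℕ → M) {α : Type}
    (χ : (AlgebraLanguage M).Formula α) (v : α → ℕ) :
    @Formula.Realize (LM N) ℕ (str bo.le (fun a => e (mu a))) _ ((ren e).onFormula χ) v ↔
      @Formula.Realize (AlgebraLanguage M) ℕ (algebraStructure bo mu) _ χ v := by
  letI i1 := algebraStructure bo mu
  letI i2 := str bo.le (fun a => e (mu a))
  haveI : (ren (⇑e)).IsExpansionOn ℕ := by
    refine ⟨fun F => Empty.elim F, ?_⟩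
    intro l R x
    cases R with
    | le => rfl
    | value c => exact propext (e.injective.eq_iff)
  exact LHom.realize_onFormula (ren e) χ

theorem am_gen {M N : Type} [AddCommMonoid M] [AddCommMonoid N] (e : M ≃ N)
    (h0 : e 0 = 0) (ha : ∀ x y, e (x + y) = e x + e y) {A : Type} [BooleanAlgebra A]
    {mu : A → M} (h : mu ⊥ = 0 ∧ ∀ a b, a ⊓ b = ⊥ → mu (a ⊔ b) = mu a + mu b) :
    AM (fun a => e (mu a)) := by
  refine ⟨by rw [h.1, h0], fun a b hab => ?_⟩
  rw [h.2 a b hab.eq_bot, ha]

theorem am_ren {M N : Type} [iM : AddCommMonoid M] [iN : AddCommMonoid N] (e : M ≃ N)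
    (h0 : e 0 = 0) (ha : ∀ x y, e (x + y) = e x + e y) {bo : BooleanAlgebra ℕ} {mu : ℕ → M}
    (h : FinitelyAdditive bo mu) : @AM N _ ℕ bo (fun a => e (mu a)) :=
  @am_gen M N _ _ e h0 ha ℕ bo mu h

section

variable {L : FirstOrder.Language.{0, 0}} {M N : Type}

/-- the formulas of the interpretations in the format of the proof -/
def toSc (e : M ≃ N) (I : Interpretation (AlgebraLanguage M) L)
    (J : Interpretation L (AlgebraLanguage M))
    (κ : (AlgebraLanguage M).Formula (Fin I.n ⊕ (Fin J.r × Fin I.r) ⊕ Fin 1)) : Sc6 L N where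
  n := J.n
  n' := I.n + J.n * I.r
  t := J.r
  r := I.r
  dom := J.dom
  φ := J.rel 2 Symbol.le
  ψ := fun c => Formula.relabel (Sum.map id Prod.snd) (J.rel 1 (Symbol.value (e.symm c)))
  δ := Formula.relabel (Sum.map (Fin.castAdd _) id) ((ren e).onFormula I.dom)
  ε := Formula.relabel (Sum.map (Fin.castAdd _) id) ((ren e).onFormula I.eqv)
  ρ := fun l R => Formula.relabel (Sum.map (Fin.castAdd _) id) ((ren e).onFormula (I.rel l R))
  γ := fun l F => Formula.relabel (Sum.map (Fin.castAdd _) id) ((ren e).onFormula (I.graph l F))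
  κ := Formula.relabel (Sum.map (Fin.castAdd _) id) ((ren e).onFormula κ)
  π := fun j i => Fin.natAdd I.n (finProdFinEquiv (j, i))

theorem bi6_of (e : M ≃ N) {bo : BooleanAlgebra ℕ} {mu : ℕ → M} {S : L.Structure ℕ}
    (I : Interpretation (AlgebraLanguage M) L) (q : Fin I.n → ℕ) (g : (Fin I.r → ℕ) → ℕ)
    (J : Interpretation L (AlgebraLanguage M)) (p : Fin J.n → ℕ) (f : (Fin J.r → ℕ) → ℕ)
    (κ : (AlgebraLanguage M).Formula (Fin I.n ⊕ (Fin J.r × Fin I.r) ⊕ Fin 1))
    (h1 : Interprets I (algebraStructure bo mu) q S g)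
    (h2 : Interprets J S p (algebraStructure bo mu) f)
    (h3 : ∀ (v : Fin J.r × Fin I.r → ℕ) (b : ℕ),
      (∀ i, @Formula.Realize _ ℕ (algebraStructure bo mu) _ I.dom
        (Sum.elim q fun j => v (i, j))) →
      (@Formula.Realize _ ℕ (algebraStructure bo mu) _ κ (Sum.elim q (Sum.elim v fun _ => b)) ↔
        @Formula.Realize L ℕ S _ J.dom (Sum.elim p fun i => g fun j => v (i, j)) ∧
          f (fun i => g fun j => v (i, j)) = b)) :
    ∃ q2 : Fin (toSc e I J κ).n' → ℕ,
      Bi6 (toSc e I J κ) S bo (fun a => e (mu a)) q2 p g f := by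
  choose w hw1 hw2 using fun j => h1.onto (p j)
  let q2 : Fin (I.n + J.n * I.r) → ℕ := Fin.append q
    (fun k => w (finProdFinEquiv.symm k).1 (finProdFinEquiv.symm k).2)
  have hq2 : ∀ i, q2 (Fin.castAdd (J.n * I.r) i) = q i := fun i => Fin.append_left _ _ i
  have key : ∀ {α : Type} (χ : (AlgebraLanguage M).Formula (Fin I.n ⊕ α)) (v : α → ℕ),
      @Formula.Realize (LM N) ℕ (str bo.le (fun a => e (mu a))) _
        (Formula.relabel (Sum.map (Fin.castAdd (J.n * I.r)) id) ((ren e).onFormula χ))
        (Sum.elim q2 v) ↔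
      @Formula.Realize _ ℕ (algebraStructure bo mu) _ χ (Sum.elim q v) := by
    intro α χ v
    rw [← realize_ren e bo mu χ]
    letI := str bo.le (fun a => e (mu a))
    rw [Formula.realize_relabel]
    refine iff_of_eq (congrArg _ (funext fun x => ?_))
    rcases x with i | i
    · exact hq2 i
    · rfl
  refine ⟨q2, ⟨?_, ?_, ?_, ?_⟩⟩
  · refine @In6.mk L N (toSc e I J κ) ℕ bo _ q2 ℕ S g ?_ ?_ ?_ ?_
    · intro s
      obtain ⟨x, hx, hs⟩ := h1.onto s
      exact ⟨x, (key _ _).2 hx, hs⟩
    · intro v hv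
      exact (key _ _).trans (h1.eqv v fun i => (key _ _).1 (hv i))
    · intro l R v hv
      exact (key _ _).trans (h1.rel l R v fun i => (key _ _).1 (hv i))
    · intro l F v hv
      exact (key _ _).trans (h1.graph l F v fun i => (key _ _).1 (hv i))
  · refine ⟨h2.onto, ?_, ?_⟩
    · intro v hv
      exact h2.rel 2 Symbol.le v hv
    · intro c x hx
      have h4 := h2.rel 1 (Symbol.value (e.symm c)) (fun y => x y.2) (fun i => hx)
      have h5 : @Structure.RelMap _ ℕ (algebraStructure bo mu) 1
          (Symbol.value (e.symm c) : (AlgebraLanguage M).Relations 1)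
          (fun _ => f x) ↔ e (mu (f x)) = c := by
        show mu (f x) = e.symm c ↔ _
        exact (Equiv.eq_symm_apply e)
      refine Iff.trans ?_ (h4.trans h5)
      letI := S
      show Formula.Realize (Formula.relabel _ _) _ ↔ _
      rw [Formula.realize_relabel]
      refine iff_of_eq (congrArg _ (funext fun y => ?_))
      rcases y with i | i <;> rfl
  · intro v b hv
    exact (key _ _).trans (h3 v b fun i => (key _ _).1 (hv i))
  · intro j
    have h4 : (fun i => q2 (Fin.natAdd I.n (finProdFinEquiv (j, i)))) = w j := by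
      funext i
      show Fin.append q _ _ = _
      rw [Fin.append_right, Equiv.symm_apply_apply]
    refine ⟨?_, ?_⟩
    · show @Formula.Realize (LM N) ℕ (str bo.le (fun a => e (mu a))) _ _
        (Sum.elim q2 fun i => q2 (Fin.natAdd I.n (finProdFinEquiv (j, i))))
      rw [h4]
      exact (key _ _).2 (hw1 j)
    · show g (fun i => q2 (Fin.natAdd I.n (finProdFinEquiv (j, i)))) = p j
      rw [h4, hw2]

end

theorem bm6_of {L : FirstOrder.Language.{0, 0}} {S : L.Structure ℕ} {M : Type}
    [iM : AddCommMonoid M] [Finite M] {bo : BooleanAlgebra ℕ} {mu : ℕ → M}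
    (h : FinitelyAdditive bo mu) (hb : BiInterpretable (algebraStructure bo mu) S) : BM6 S := by
  obtain ⟨I, q, g, J, p, f, κ, h1, h2, h3⟩ := hb
  obtain ⟨q2, h4⟩ := bi6_of (Equiv.refl M) I q g J p f κ h1 h2 h3
  exact ⟨M, iM, inferInstance, bo, mu, toSc (Equiv.refl M) I J κ, q2, p, g, f,
    am_ren (Equiv.refl M) rfl (fun _ _ => rfl) h, h4⟩

theorem strong_of_bm6 {L : FirstOrder.Language.{0, 0}} (hL : Countable L.Symbols)
    {T : L.Theory} (hT : ∀ S : L.Structure ℕ, @Theory.Model L ℕ S T →
      ∃ S' : L.Structure ℕ, EEq S S' ∧ BM6 S') : StrongDichotomy L T := by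
  by_cases hP : Perfect L T
  · exact Or.inr hP
  · obtain ⟨h1, h2⟩ := dichotomy6 hL hP hT
    exact Or.inl ⟨h2, h1⟩

theorem strong_of_bms {L : FirstOrder.Language.{0, 0}} (hL : Countable L.Symbols)
    {T : L.Theory} (hT : ∀ S : L.Structure ℕ, @Theory.Model L ℕ S T → BMS S) :
    StrongDichotomy L T := by
  by_cases hP : Perfect L T
  · exact Or.inr hP
  · obtain ⟨h1, h2⟩ := dichotomy hL hP (fun S hS => ⟨S, fun _ => Iff.rfl, hT S hS⟩)
    exact Or.inl ⟨h2, h1⟩

theorem bms_alg {M : Type} [AddCommMonoid M] [Finite M] {bo : BooleanAlgebra ℕ} {mu : ℕ → M}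
    (h : FinitelyAdditive bo mu) : BMS (algebraStructure bo mu) := by
  let φ : (AlgebraLanguage M).Formula (Fin 0 ⊕ Fin 2) :=
    Relations.formula (Symbol.le : (AlgebraLanguage M).Relations 2)
      (fun j => Term.var (Sum.inr j))
  let ψ : M → (AlgebraLanguage M).Formula (Fin 0 ⊕ Fin 1) := fun c =>
    Relations.formula (Symbol.value c : (AlgebraLanguage M).Relations 1)
      (fun j => Term.var (Sum.inr j))
  refine good_of_def (M := M) (p := (Fin.elim0 : Fin 0 → ℕ)) (φ := φ) (ψ := ψ)
    (am_ren (Equiv.refl M) rfl (fun _ _ => rfl) h) ⟨?_, ?_⟩ ⟨?_, ?_⟩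
  · intro v
    letI := algebraStructure bo mu
    show Formula.Realize (Relations.formula _ _) _ ↔ _
    rw [Formula.realize_rel]
    exact Iff.rfl
  · intro c v
    letI := algebraStructure bo mu
    show Formula.Realize (Relations.formula _ _) _ ↔ _
    rw [Formula.realize_rel]
    exact Iff.rfl
  · intro l R
    cases R with
    | le => exact ⟨fle M, (dec_str bo mu).le⟩
    | value c => exact ⟨fval c, (dec_str bo mu).val c⟩
  · intro l F
    exact Empty.elim F

theorem ctbl_alg (M : Type) [Finite M] : Countable (AlgebraLanguage M).Symbols := by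
  haveI : Countable M := Finite.to_countable
  haveI : ∀ k, Countable ((AlgebraLanguage M).Functions k) := fun k =>
    inferInstanceAs (Countable Empty)
  haveI : ∀ k, Countable ((AlgebraLanguage M).Relations k) := fun k => by
    have : Function.Injective (fun r : Symbol M k => match r with
      | .le => (none : Option M)
      | .value c => some c) := by
      intro r s hrs
      cases r <;> cases s <;> simp_all
    exact this.countable
  exact inferInstanceAs (Countable ((Σ l, (AlgebraLanguage M).Functions l) ⊕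
    Σ l, (AlgebraLanguage M).Relations l))

theorem ctbl_order : Countable LO.Symbols := by
  haveI : ∀ k, Countable (LO.Functions k) := fun k => inferInstanceAs (Countable Empty)
  haveI : ∀ k, Countable (LO.Relations k) := fun k => by
    have : Function.Injective (fun _ : SymO k => ()) := by
      intro r s _
      cases r
      cases s
      rfl
    exact this.countable
  exact inferInstanceAs (Countable ((Σ l, LO.Functions l) ⊕ Σ l, LO.Relations l))

theorem ctbl_ring : Countable LR.Symbols := by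
  haveI : ∀ k, Countable (LR.Relations k) := fun k => inferInstanceAs (Countable Empty)
  haveI : ∀ k, Countable (LR.Functions k) := fun k => by
    have : Function.Injective (fun r : SymR k => match r with
      | .add => true
      | .mul => false) := by
      intro r s hrs
      cases r <;> cases s <;> simp_all
    exact this.countable
  exact inferInstanceAs (Countable ((Σ l, LR.Functions l) ⊕ Σ l, LR.Relations l))

theorem ctbl_aut : Countable LA.Symbols := by
  haveI : ∀ k, Countable (LA.Functions k) := fun k => by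
    have : Function.Injective (fun _ : FunA k => ()) := by
      intro r s _
      cases r
      cases s
      rfl
    exact this.countable
  haveI : ∀ k, Countable (LA.Relations k) := fun k => by
    have : Function.Injective (fun _ : SymO k => ()) := by
      intro r s _
      cases r
      cases s
      rfl
    exact this.countable
  exact inferInstanceAs (Countable ((Σ l, LA.Functions l) ⊕ Σ l, LA.Relations l))

theorem bm6_ring {m : ℕ} (hm : 2 ≤ m)
    (R : CommRing ℕ) (h2 : ∀ x, R.npow m x = x) : BM6 (strR R) := by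
  obtain ⟨C, hC, plus, times, zer, one, ev, hev⟩ := @rnd m hm ℕ R inferInstance h2
  exact @rne R C hC plus times zer one ev hev

theorem main :
    (∀ (L : FirstOrder.Language.{0, 0}), Countable L.Symbols → ∀ (T : L.Theory),
      (∀ S : L.Structure ℕ, @Theory.Model L ℕ S T → ∃ S' : L.Structure ℕ,
        (∀ χ : L.Sentence, @Sentence.Realize L ℕ S χ ↔ @Sentence.Realize L ℕ S' χ) ∧
        ∃ (M : Type) (_ : AddCommMonoid M) (_ : Finite M) (bo : BooleanAlgebra ℕ) (mu : ℕ → M),
          FinitelyAdditive bo mu ∧ BiInterpretable (algebraStructure bo mu) S') →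
      StrongDichotomy L T) ∧
    (∀ (M : Type) [AddCommMonoid M] [Finite M] (T : (AlgebraLanguage M).Theory),
      (∀ S : (AlgebraLanguage M).Structure ℕ, @Theory.Model (AlgebraLanguage M) ℕ S T →
        ∃ (bo : BooleanAlgebra ℕ) (mu : ℕ → M), FinitelyAdditive bo mu ∧
          S = algebraStructure bo mu) →
      StrongDichotomy (AlgebraLanguage M) T) ∧
    (∀ (r : ℕ) (T : (LI r).Theory),
      (∀ S : (LI r).Structure ℕ, @Theory.Model (LI r) ℕ S T →
        ∃ (bo : BooleanAlgebra ℕ) (I : Fin r → Set ℕ), (∀ i, IsId bo (I i)) ∧ S = strI bo I) →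
      StrongDichotomy (LI r) T) ∧
    (∀ T : LO.Theory,
      (∀ S : LO.Structure ℕ, @Theory.Model LO ℕ S T → ∃ D : DistribLattice ℕ,
        (∀ a b c : ℕ, D.le a b → D.le b c → ∃ d, D.inf b d = a ∧ D.sup b d = c) ∧
        S = strO D.le) →
      StrongDichotomy LO T) ∧
    (∀ T : LR.Theory,
      (∀ S : LR.Structure ℕ, @Theory.Model LR ℕ S T → ∃ (m : ℕ) (R : CommRing ℕ),
        2 ≤ m ∧ (∀ x, R.npow m x = x) ∧ S = strR R) →
      StrongDichotomy LR T) ∧
    (∀ T : LA.Theory,
      (∀ S : LA.Structure ℕ, @Theory.Model LA ℕ S T → ∃ (p : ℕ) (bo : BooleanAlgebra ℕ)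
        (s : ℕ → ℕ), p.Prime ∧ (∀ a b, bo.le a b ↔ bo.le (s a) (s b)) ∧ (∀ a, s^[p] a = a) ∧
        S = strA bo.le s) →
      StrongDichotomy LA T) := by
  refine ⟨?_, ?_, ?_, ?_, ?_, ?_⟩
  · intro L hL T hT
    refine strong_of_bm6 hL fun S hS => ?_
    obtain ⟨S', h1, M, i1, i2, bo, mu, h2, h3⟩ := hT S hS
    exact ⟨S', h1, bm6_of h2 h3⟩
  · intro M _ _ T hT
    refine strong_of_bms (ctbl_alg M) fun S hS => ?_
    obtain ⟨bo, mu, hA, rfl⟩ := hT S hS
    exact bms_alg hA
  · intro r T hT
    refine strong_of_bms (ctbl_LI r) fun S hS => ?_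
    obtain ⟨bo, I, hI, rfl⟩ := hT S hS
    exact bms_ideals hI
  · intro T hT
    refine strong_of_bm6 ctbl_order fun S hS => ?_
    obtain ⟨D, hD, rfl⟩ := hT S hS
    exact ⟨_, fun _ => Iff.rfl, rcb D hD⟩
  · intro T hT
    refine strong_of_bm6 ctbl_ring fun S hS => ?_
    obtain ⟨m, R, hm, h2, rfl⟩ := hT S hS
    exact ⟨_, fun _ => Iff.rfl, bm6_ring hm R h2⟩
  · intro T hT
    refine strong_of_bm6 ctbl_aut fun S hS => ?_
    obtain ⟨p, bo, s, hp, h1, h2, rfl⟩ := hT S hS
    haveI : Fact p.Prime := ⟨hp⟩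
    exact ⟨_, fun _ => Iff.rfl, aub p bo s h1 h2⟩

end Pool.Agent.N641.VB.Final
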