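import Mathlib

set_option autoImplicit false

/-!
# Project VB (helper641): language of Boolean algebras with a group of automorphisms
-/

namespace Pool.Agent.N641.VB

open FirstOrder FirstOrder.Language

/-- the symbols for the elements of the group -/
inductive FunG (G : Type) : ℕ → Type
  | act (g : G) : FunG G 1

/-- the symbol for the order -/
inductive RelG : ℕ → Type
  | le : RelG 2

/-- the language of orders with unary functions for the elements of `G` -/
def LG (G : Type) : FirstOrder.Language.{0, 0} := ⟨FunG G, RelG⟩

/-- the structure given by a relation and maps -/
@[reducible] def strG {G U : Type} (le : U → U → Prop) (s : G → U → U) : (LG G).Structure U where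
  funMap := fun {_} F => match F with
    | .act g => fun v => s g (v 0)
  RelMap := fun {_} R => match R with
    | .le => fun v => le (v 0) (v 1)

end Pool.Agent.N641.VB
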