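import Pool.Agent.N641.VB.Stm2

set_option autoImplicit false
set_option linter.style.haveILetI false
set_option linter.unusedVariables false

/-!
# Project VB (helper641): assembly, part 1
-/

namespace Pool.Agent.N641.VB

open FirstOrder FirstOrder.Language

/-- the leaves that are used in the assembly -/
structure Lv : Prop where
  trn : S_TRN
  trw : S_TRW
  radd : S_RADD
  ls : S_LS
  algf : S_ALGF
  con : S_CON
  quo : S_QUO
  e : S_E
  ws : S_WS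
  cat : S_CAT
  glu : S_GLU
  unq : S_UNQ
  exs : S_EXS
  st1 : S_ST1
  st2 : S_ST2
  st3 : S_ST3
  nat : S_NAT
  chi : S_CHI
  cns : S_CNS

section basic

variable {M : Type} [AddCommMonoid M]

theorem rl_ft {A : Type} [BooleanAlgebra A] {mu : A → M} (hm : AM mu) (a : A) : Rl (ft mu a) :=
  ⟨A, inferInstance, mu, a, hm, rfl⟩

theorem rl_split {u : FT M} (hu : Rl u) (k : ℕ) :
    ((u k, 0) : TP M k × TP M k) ∈ (u (k + 1)).2 := by
  obtain ⟨A, _, mu, a, hm, rfl⟩ := hu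
  refine ⟨a, le_rfl, ?_⟩
  rw [sdiff_self, tp_bot hm k]
  rfl

theorem rl_split' {u : FT M} (hu : Rl u) (k : ℕ) :
    ((0, u k) : TP M k × TP M k) ∈ (u (k + 1)).2 := by
  obtain ⟨A, _, mu, a, hm, rfl⟩ := hu
  refine ⟨⊥, bot_le, ?_⟩
  rw [sdiff_bot, tp_bot hm k]
  rfl

theorem mem_split {A : Type} [BooleanAlgebra A] {mu : A → M} {a : A} {u v : FT M}
    (hu : Rl u) (hv : Rl v) (h : u + v = ft mu a) (k : ℕ) :
    ∃ b ≤ a, tp mu k b = u k ∧ tp mu k (a \ b) = v k := by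
  have h1 : ((u k, v k) : TP M k × TP M k) ∈ ((u + v) (k + 1)).2 := by
    refine ⟨_, rl_split hu k, _, rl_split' hv k, ?_⟩
    refine Prod.ext ?_ ?_
    · exact (add_zero (u k)).symm
    · exact (zero_add (v k)).symm
  rw [h] at h1
  obtain ⟨b, hb, hq⟩ := h1
  exact ⟨b, hb, (congrArg Prod.fst hq).symm, (congrArg Prod.snd hq).symm⟩

theorem dv_of_finite {A : Type} [BooleanAlgebra A] [Finite A] {mu : A → M} (hm : AM mu) (a : A) :
    (Dv (ft mu a)).Finite := by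
  refine (Set.finite_range (ft mu)).subset ?_
  rintro u ⟨hu, v, hv, h⟩
  choose b hb using fun k => mem_split hu hv h k
  obtain ⟨c, hc⟩ := Finite.exists_infinite_fiber b
  refine ⟨c, ?_⟩
  funext k
  obtain ⟨j, hj, hkj⟩ := (Set.infinite_coe_iff.1 hc).exists_gt k
  obtain ⟨A', _, mu', a', hm', rfl⟩ := hu
  have h1 : tp mu j c = tp mu' j a' := by
    have h2 : b j = c := hj
    rw [← h2]
    exact (hb j).2.1
  exact tp_mono hkj.le h1

theorem dv_trans {u v : FT M} (radd : S_RADD) (h : u ∈ Dv v) : Dv u ⊆ Dv v := by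
  obtain ⟨hu, w, hw, rfl⟩ := h
  rintro x ⟨hx, y, hy, rfl⟩
  exact ⟨hx, y + w, radd M y w hy hw, by rw [add_assoc]⟩

theorem ft_dv {A : Type} [BooleanAlgebra A] {mu : A → M} (hm : AM mu) {a b : A} (h : b ≤ a) :
    ft mu b ∈ Dv (ft mu a) := by
  refine ⟨rl_ft hm b, ft mu (a \ b), rl_ft hm _, ?_⟩
  rw [← ft_sup hm b (a \ b) disjoint_sdiff_self_right, sup_sdiff_cancel_right h]

theorem mprod_am {A B : Type} [BooleanAlgebra A] [BooleanAlgebra B] {mu : A → M} {nu : B → M}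
    (hm : AM mu) (hn : AM nu) : AM (mprod mu nu) where
  bot := by
    show mu ⊥ + nu ⊥ = 0
    rw [hm.bot, hn.bot, add_zero]
  sup := fun a b h => by
    show mu (a.1 ⊔ b.1) + nu (a.2 ⊔ b.2) = (mu a.1 + nu a.2) + (mu b.1 + nu b.2)
    have h1 : Disjoint a.1 b.1 ∧ Disjoint a.2 b.2 := Prod.disjoint_iff.1 h
    rw [hm.sup _ _ h1.1, hn.sup _ _ h1.2, add_add_add_comm]

theorem ft_left (trn : S_TRN) {A B : Type} [BooleanAlgebra A] [BooleanAlgebra B] {mu : A → M}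
    {nu : B → M} (hn : AM nu) (a : A) : ft (mprod mu nu) (a, (⊥ : B)) = ft mu a := by
  refine trn M A (A × B) mu (mprod mu nu) (fun x => (x, ⊥)) a ?_ ?_ ?_ a le_rfl
  · intro b _ c _
    exact ⟨fun h => Prod.mk_le_mk.2 ⟨h, le_rfl⟩, fun h => (Prod.mk_le_mk.1 h).1⟩
  · rintro ⟨c, d⟩ h
    have h1 := Prod.mk_le_mk.1 h
    exact ⟨c, h1.1, Prod.ext rfl (le_bot_iff.1 h1.2).symm⟩
  · intro b _
    show mu b + nu ⊥ = mu b
    rw [hn.bot, add_zero]

theorem ft_right (trn : S_TRN) {A B : Type} [BooleanAlgebra A] [BooleanAlgebra B] {mu : A → M}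
    {nu : B → M} (hm : AM mu) (b : B) : ft (mprod mu nu) ((⊥ : A), b) = ft nu b := by
  refine trn M B (A × B) nu (mprod mu nu) (fun x => (⊥, x)) b ?_ ?_ ?_ b le_rfl
  · intro b _ c _
    exact ⟨fun h => Prod.mk_le_mk.2 ⟨le_rfl, h⟩, fun h => (Prod.mk_le_mk.1 h).2⟩
  · rintro ⟨c, d⟩ h
    have h1 := Prod.mk_le_mk.1 h
    exact ⟨d, h1.2, Prod.ext (le_bot_iff.1 h1.1).symm rfl⟩
  · intro b _
    show mu ⊥ + nu b = nu b
    rw [hm.bot, zero_add]

theorem ft_prod_top (trn : S_TRN) {A B : Type} [BooleanAlgebra A] [BooleanAlgebra B] {mu : A → M}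
    {nu : B → M} (hm : AM mu) (hn : AM nu) :
    ft (mprod mu nu) (⊤ : A × B) = ft mu ⊤ + ft nu ⊤ := by
  have h1 : (⊤ : A × B) = ((⊤ : A), (⊥ : B)) ⊔ ((⊥ : A), (⊤ : B)) := by
    rw [Prod.mk_sup_mk, sup_bot_eq, bot_sup_eq]
    rfl
  rw [h1, ft_sup (mprod_am hm hn), ft_left trn hn, ft_right trn hm]
  exact Prod.disjoint_iff.2 ⟨disjoint_bot_right, disjoint_bot_left⟩

end basic

/-- codes -/
theorem exists_code (e : S_E) (ws : S_WS) (w : Set ℕ) (hw : w.Infinite) :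
    ∃ (B : Type) (_ : BooleanAlgebra B), Countable B ∧ Nontrivial B ∧
      WW (fun b : B => b = ⊥) ⊤ = w := by
  classical
  haveI : Infinite w := hw.to_subtype
  let g : ℕ → ℕ := fun n => (Nat.orderEmbeddingOfSet w n : ℕ)
  have hg : StrictMono g := (Nat.orderEmbeddingOfSet w).strictMono
  have hr : Set.range g = w := Nat.orderEmbeddingOfSet_range w
  choose E iE hE using fun i => e (g i)
  haveI : ∀ i, Countable (E i) := fun i => (hE i).1
  obtain ⟨B, iB, h1, h2, h3⟩ := @ws E iE this g hg fun i => (hE i).2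
  exact ⟨B, iB, h1, h2, h3.trans hr⟩

/-- realisation of prescribed cells in models -/
theorem real (H : Lv) {L : FirstOrder.Language.{0, 0}} {M : Type} [AddCommMonoid M] [Finite M]
    {n : ℕ} {φ : L.Formula (Fin n ⊕ Fin 2)} {ψ : M → L.Formula (Fin n ⊕ Fin 1)}
    {S : L.Structure ℕ} {p : Fin n → ℕ} {bo : BooleanAlgebra ℕ} {mu : ℕ → M}
    (hD : Dec S p φ ψ bo mu) (hE : Enc S p bo mu) (hA : @AM M _ ℕ bo mu)
    (A : (Fin n → Bool) → Type) [iA : ∀ ε, BooleanAlgebra (A ε)] [∀ ε, Countable (A ε)]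
    (nu : ∀ ε, A ε → M) (hn : ∀ ε, AM (nu ε))
    (ht : ∀ ε, ft (nu ε) ⊤ = @ft M ℕ bo mu (@cell ℕ bo n p ε)) :
    ∃ (S' : L.Structure ℕ) (p' : Fin n → ℕ) (bo' : BooleanAlgebra ℕ) (mu' : ℕ → M)
      (em : ∀ ε, A ε → ℕ), Dec S' p' φ ψ bo' mu' ∧ @AM M _ ℕ bo' mu' ∧
      (∀ T : L.Theory, @Theory.Model L ℕ S T → @Theory.Model L ℕ S' T) ∧
      (∀ ε b c, b ≤ c ↔ bo'.le (em ε b) (em ε c)) ∧
      (∀ ε c, bo'.le c (em ε ⊤) → ∃ b, em ε b = c) ∧
      ∀ ε b, mu' (em ε b) = nu ε b := by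
  obtain ⟨B, iB, ν, q, emb, h1, h2, h3, h4, h5, h6⟩ := H.glu M n A nu hn
  have hc : ∀ ε, ft ν (cell q ε) = @ft M ℕ bo mu (@cell ℕ bo n p ε) := by
    intro ε
    rw [← ht ε, ← h3 ε]
    refine H.trn M (A ε) B (nu ε) ν (emb ε) ⊤ ?_ ?_ ?_ ⊤ le_rfl
    · exact fun b _ c _ => h4 ε b c
    · intro c hc
      rw [h3 ε] at hc
      obtain ⟨b, hb⟩ := h5 ε c hc
      exact ⟨b, le_top, hb⟩
    · exact fun b _ => h6 ε b
  haveI : Infinite B := by
    by_contra hB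
    haveI : Finite B := not_infinite_iff_finite.1 hB
    obtain ⟨e, -, -⟩ := @H.cat M _ _ B ℕ iB bo h1 _ ν mu n q p h2 hA hc
      (fun ε => dv_of_finite h2 _)
    haveI : Finite ℕ := Finite.of_equiv B e.toEquiv
    exact not_finite ℕ
  obtain ⟨bo', mu', e, g1, g2, g3, g4⟩ := H.nat M B ν h2
  have hft : ∀ b, @ft M ℕ bo' mu' (e b) = ft ν b := by
    intro b
    refine @H.trn M _ B ℕ iB bo' ν mu' e ⊤ ?_ ?_ ?_ b le_top
    · exact fun b _ c _ => g2 b c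
    · exact fun c _ => ⟨e.symm c, le_top, e.apply_symm_apply c⟩
    · exact fun b _ => g3 b
  obtain ⟨S', k1, k2⟩ := H.exs L M n φ ψ S p (fun j => e (q j)) bo bo' mu mu' hD hE hA g1
    (fun ε => by rw [← g4 n q ε, hft, hc])
  refine ⟨S', _, bo', mu', fun ε b => e (emb ε b), k1, g1, k2, ?_, ?_, ?_⟩
  · intro ε b c
    rw [h4 ε b c, g2]
  · intro ε c hc
    have hc' : e.symm c ≤ emb ε ⊤ := by
      rw [g2, e.apply_symm_apply]
      exact hc
    rw [h3 ε] at hc'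
    obtain ⟨b, hb⟩ := h5 ε _ hc'
    exact ⟨b, by
      show e (emb ε b) = c
      rw [hb, e.apply_symm_apply]⟩
  · intro ε b
    rw [g3, h6]

end Pool.Agent.N641.VB
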