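import Pool.Agent.N641.VB.Main

set_option autoImplicit false
set_option linter.style.haveILetI false
set_option linter.unusedVariables false

/-!
# Project VB (helper641): assembly, part 2
-/

namespace Pool.Agent.N641.VB

open FirstOrder FirstOrder.Language

section

variable {L : FirstOrder.Language.{0, 0}} {M : Type} [AddCommMonoid M] [Finite M] {n : ℕ}

/-- the types realised in the algebras of the models -/
def RT (T : L.Theory) (φ : L.Formula (Fin n ⊕ Fin 2)) (ψ : M → L.Formula (Fin n ⊕ Fin 1)) :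
    Set (FT M) :=
  {t : FT M | ∃ (S : L.Structure ℕ) (p : Fin n → ℕ) (bo : BooleanAlgebra ℕ) (mu : ℕ → M)
    (a : ℕ), @Theory.Model L ℕ S T ∧ Dec S p φ ψ bo mu ∧ @AM M _ ℕ bo mu ∧
      @ft M ℕ bo mu a = t}

open Classical in
/-- a family with one exceptional member -/
theorem family (H : Lv) {φ : L.Formula (Fin n ⊕ Fin 2)} {ψ : M → L.Formula (Fin n ⊕ Fin 1)}
    {S : L.Structure ℕ} {p : Fin n → ℕ} {bo : BooleanAlgebra ℕ} {mu : ℕ → M}
    (hD : Dec S p φ ψ bo mu) (hE : Enc S p bo mu) (hA : @AM M _ ℕ bo mu)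
    (ε0 : Fin n → Bool) (A : Type) [iA : BooleanAlgebra A] [Countable A] (nu : A → M)
    (hn : AM nu) (ht : ft nu ⊤ = @ft M ℕ bo mu (@cell ℕ bo n p ε0)) :
    ∃ (S' : L.Structure ℕ) (p' : Fin n → ℕ) (bo' : BooleanAlgebra ℕ) (mu' : ℕ → M)
      (em : A → ℕ), Dec S' p' φ ψ bo' mu' ∧ @AM M _ ℕ bo' mu' ∧
      (∀ T : L.Theory, @Theory.Model L ℕ S T → @Theory.Model L ℕ S' T) ∧
      (∀ b c, b ≤ c ↔ bo'.le (em b) (em c)) ∧
      (∀ c, bo'.le c (em ⊤) → ∃ b, em b = c) ∧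
      ∀ b, mu' (em b) = nu b := by
  have h0 : ∀ ε : Fin n → Bool, ∃ (B : Type) (_ : BooleanAlgebra B) (ν : B → M), Countable B ∧
      AM ν ∧ ft ν ⊤ = @ft M ℕ bo mu (@cell ℕ bo n p ε) := fun ε =>
    H.ls M _ ⟨ℕ, bo, mu, _, hA, rfl⟩
  choose B iB ν hB1 hB2 hB3 using h0
  let X : (Fin n → Bool) → Σ' (C : Type) (_ : BooleanAlgebra C), C → M := fun ε =>
    if ε = ε0 then ⟨A, iA, nu⟩ else ⟨B ε, iB ε, ν ε⟩
  have hX0 : X ε0 = ⟨A, iA, nu⟩ := if_pos rfl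
  have hX1 : ∀ ε, ε ≠ ε0 → X ε = ⟨B ε, iB ε, ν ε⟩ := fun ε h => if_neg h
  letI : ∀ ε, BooleanAlgebra (X ε).1 := fun ε => (X ε).2.1
  haveI : ∀ ε, Countable (X ε).1 := by
    intro ε
    by_cases h : ε = ε0
    · rw [h, hX0]
      infer_instance
    · rw [hX1 ε h]
      exact hB1 ε
  have hAM : ∀ ε, AM (X ε).2.2 := by
    intro ε
    by_cases h : ε = ε0
    · subst h
      have : ∀ (Y : Σ' (C : Type) (_ : BooleanAlgebra C), C → M), Y = ⟨A, iA, nu⟩ →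
          @AM M _ Y.1 Y.2.1 Y.2.2 := by
        rintro Y rfl
        exact hn
      exact this _ hX0
    · have : ∀ (Y : Σ' (C : Type) (_ : BooleanAlgebra C), C → M), Y = ⟨B ε, iB ε, ν ε⟩ →
          @AM M _ Y.1 Y.2.1 Y.2.2 := by
        rintro Y rfl
        exact hB2 ε
      exact this _ (hX1 ε h)
  have hft : ∀ ε, ft (X ε).2.2 ⊤ = @ft M ℕ bo mu (@cell ℕ bo n p ε) := by
    intro ε
    by_cases h : ε = ε0
    · subst h
      have : ∀ (Y : Σ' (C : Type) (_ : BooleanAlgebra C), C → M), Y = ⟨A, iA, nu⟩ →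
          @ft M Y.1 Y.2.1 Y.2.2 (@Top.top Y.1 Y.2.1.toTop) =
            @ft M ℕ bo mu (@cell ℕ bo n p ε) := by
        rintro Y rfl
        exact ht
      exact this _ hX0
    · have : ∀ (Y : Σ' (C : Type) (_ : BooleanAlgebra C), C → M), Y = ⟨B ε, iB ε, ν ε⟩ →
          @ft M Y.1 Y.2.1 Y.2.2 (@Top.top Y.1 Y.2.1.toTop) =
            @ft M ℕ bo mu (@cell ℕ bo n p ε) := by
        rintro Y rfl
        exact hB3 ε
      exact this _ (hX1 ε h)
  obtain ⟨S', p', bo', mu', em, k1, k2, k3, k4, k5, k6⟩ :=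
    real H hD hE hA (fun ε => (X ε).1) (fun ε => (X ε).2.2) hAM hft
  have key : ∀ (Y : Σ' (C : Type) (_ : BooleanAlgebra C), C → M) (em : Y.1 → ℕ),
      Y = ⟨A, iA, nu⟩ → (∀ b c : Y.1, Y.2.1.le b c ↔ bo'.le (em b) (em c)) →
      (∀ c, bo'.le c (em (@Top.top Y.1 Y.2.1.toTop)) → ∃ b, em b = c) →
      (∀ b, mu' (em b) = Y.2.2 b) →
      ∃ em' : A → ℕ, (∀ b c, b ≤ c ↔ bo'.le (em' b) (em' c)) ∧
        (∀ c, bo'.le c (em' ⊤) → ∃ b, em' b = c) ∧ ∀ b, mu' (em' b) = nu b := by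
    rintro Y em rfl g1 g2 g3
    exact ⟨em, g1, g2, g3⟩
  obtain ⟨em', g1, g2, g3⟩ := key (X ε0) (em ε0) hX0 (k4 ε0) (k5 ε0) (k6 ε0)
  exact ⟨S', p', bo', mu', em', k1, k2, k3, g1, g2, g3⟩

/-- the types of the image -/
theorem ft_em (H : Lv) {A : Type} [iA : BooleanAlgebra A] {nu : A → M} {bo' : BooleanAlgebra ℕ}
    {mu' : ℕ → M} {em : A → ℕ} (h1 : ∀ b c, b ≤ c ↔ bo'.le (em b) (em c))
    (h2 : ∀ c, bo'.le c (em ⊤) → ∃ b, em b = c) (h3 : ∀ b, mu' (em b) = nu b) (a : A) :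
    @ft M ℕ bo' mu' (em a) = ft nu a := by
  refine @H.trn M _ A ℕ iA bo' nu mu' em ⊤ ?_ ?_ ?_ a le_top
  · exact fun b _ c _ => h1 b c
  · intro c hc
    obtain ⟨b, hb⟩ := h2 c hc
    exact ⟨b, le_top, hb⟩
  · exact fun b _ => h3 b

variable {T : L.Theory} {φ : L.Formula (Fin n ⊕ Fin 2)} {ψ : M → L.Formula (Fin n ⊕ Fin 1)}
  {S : L.Structure ℕ} {p : Fin n → ℕ} {bo : BooleanAlgebra ℕ} {mu : ℕ → M}

/-- the divisors of the types of the cells are realised in models -/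
theorem dv_sub (H : Lv) (hS : @Theory.Model L ℕ S T)
    (hD : Dec S p φ ψ bo mu) (hE : Enc S p bo mu) (hA : @AM M _ ℕ bo mu) (ε0 : Fin n → Bool) :
    Dv (@ft M ℕ bo mu (@cell ℕ bo n p ε0)) ⊆ RT T φ ψ := by
  rintro u ⟨hu, v, hv, huv⟩
  obtain ⟨A1, i1, nu1, c1, m1, t1⟩ := H.ls M u hu
  obtain ⟨A2, i2, nu2, c2, m2, t2⟩ := H.ls M v hv
  obtain ⟨S', p', bo', mu', em, k1, k2, k3, k4, k5, k6⟩ := family H hD hE hA ε0 (A1 × A2)
    (mprod nu1 nu2) (mprod_am m1 m2) (by rw [ft_prod_top H.trn m1 m2, t1, t2, huv])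
  refine ⟨S', p', bo', mu', em ((⊤ : A1), (⊥ : A2)), k3 T hS, k1, k2, ?_⟩
  rw [ft_em H k4 k5 k6, ft_left H.trn m2, t1]

/-- the types of the cells have finitely many divisors if there are not perfectly many models -/
theorem dv_fin (H : Lv) (hL : Countable L.Symbols) (hP : ¬ Perfect L T)
    (hS : @Theory.Model L ℕ S T)
    (hD : Dec S p φ ψ bo mu) (hE : Enc S p bo mu) (hA : @AM M _ ℕ bo mu) (ε0 : Fin n → Bool) :
    (Dv (@ft M ℕ bo mu (@cell ℕ bo n p ε0))).Finite := by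
  by_contra hinf
  have hRT : (RT T φ ψ).Countable := H.st2 L hL T M n φ ψ hP
  have hct : (Dv (@ft M ℕ bo mu (@cell ℕ bo n p ε0))).Countable :=
    hRT.mono (dv_sub H hS hD hE hA ε0)
  obtain ⟨e, ⟨he1, w, hw, hew⟩, hG⟩ := H.algf M _ ⟨ℕ, bo, mu, _, hA, rfl⟩ hinf hct
  obtain ⟨A2, i2, nu2, c2, m2, t2⟩ := H.ls M w hw
  let G : Set (FT M) := {u | u ∈ RT T φ ψ ∧ (Dv u).Finite}
  have hGc : G.Countable := hRT.mono fun u hu => hu.1
  have hcodes := H.st3 L hL T M n φ ψ G hGc hP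
  refine absurd (hcodes.mono (s₁ := {w : Set ℕ | w.Infinite}) ?_) ?_
  · intro W hW
    obtain ⟨B, iB, b1, b2, b3⟩ := exists_code H.e H.ws W hW
    obtain ⟨A1, i1, nu1, π, c1, m1, t1, p1, p2, p3, p4⟩ := H.con M e hG B
    obtain ⟨S', p', bo', mu', em, k1, k2, k3, k4, k5, k6⟩ := family H hD hE hA ε0 (A1 × A2)
      (mprod nu1 nu2) (mprod_am m1 m2) (by rw [ft_prod_top H.trn m1 m2, t1, t2, hew])
    refine ⟨S', p', bo', mu', em ((⊤ : A1), (⊥ : A2)), k3 T hS, k1, k2, ?_⟩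
    have hRT' : ∀ a, @ft M ℕ bo' mu' a ∈ RT T φ ψ := fun a =>
      ⟨S', p', bo', mu', a, k3 T hS, k1, k2, rfl⟩
    have hπ : π ⊤ = ⊤ := by
      obtain ⟨x, hx⟩ := p1 ⊤
      have h1 : π (x ⊔ ⊤) = π x ⊔ π ⊤ := p2 x ⊤
      rw [sup_top_eq, hx, top_sup_eq] at h1
      exact h1
    have hq := (H.quo A1 B π (fun a => (Dv (ft nu1 a)).Finite) p1 p2 p3 p4).2.2 ⊤
    rw [hπ, b3] at hq
    rw [← hq]
    refine @H.trw A1 ℕ i1 bo' (fun x => em (x, ⊥)) ⊤ (fun a => (Dv (ft nu1 a)).Finite)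
      (fun b => @ft M ℕ bo' mu' b ∈ G) ?_ ?_ ?_ ?_ ?_
    · intro b _ c _
      rw [← k4]
      exact ⟨fun h => Prod.mk_le_mk.2 ⟨h, le_rfl⟩, fun h => (Prod.mk_le_mk.1 h).1⟩
    · intro c hc
      have h1 : bo'.le c (em ⊤) := bo'.le_trans c _ _ hc ((k4 _ _).1 le_top)
      obtain ⟨b, hb⟩ := k5 c h1
      subst hb
      have h2 : b ≤ ((⊤ : A1), (⊥ : A2)) := (k4 _ _).2 hc
      have h3 := (Prod.mk_le_mk (a₁ := b.1) (b₁ := b.2)).1 h2
      exact ⟨b.1, le_top, congrArg em (Prod.ext rfl (le_bot_iff.1 h3.2).symm)⟩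
    · intro b _
      show @ft M ℕ bo' mu' (em (b, ⊥)) ∈ G ↔ _
      have h1 : @ft M ℕ bo' mu' (em (b, ⊥)) = ft nu1 b := by
        rw [ft_em H k4 k5 k6, ft_left H.trn m2]
      constructor
      · intro h
        have h2 := h.2
        rw [h1] at h2
        exact h2
      · intro h
        refine ⟨hRT' _, ?_⟩
        rw [h1]
        exact h
    · intro a b hba h
      exact Set.Finite.subset h (dv_trans H.radd (ft_dv m1 hba))
    · intro a b hba h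
      refine ⟨hRT' _, ?_⟩
      exact Set.Finite.subset h.2 (dv_trans H.radd (@ft_dv M _ ℕ bo' mu' k2 a b hba))
  · intro hc
    have h1 : (Set.univ : Set (Set ℕ)).Countable := by
      have h3 := Set.countable_setOf_finite_subset (Set.countable_univ (α := ℕ))
      have h2 : ({w : Set ℕ | w.Finite} : Set (Set ℕ)).Countable :=
        h3.mono (by
          intro w hw
          exact ⟨hw, Set.subset_univ w⟩)
      refine (h2.union hc).mono fun w _ => ?_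
      by_cases h : w.Finite
      · exact Or.inl h
      · exact Or.inr h
    haveI : Countable (Set ℕ) := Set.countable_univ_iff.1 h1
    obtain ⟨f, hf⟩ := exists_injective_nat (Set ℕ)
    exact Function.cantor_injective f hf

end

end Pool.Agent.N641.VB
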