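import Pool.Agent.N641.VB.Main2

set_option autoImplicit false
set_option linter.style.haveILetI false
set_option linter.unusedVariables false

/-!
# Project VB (helper641): assembly, part 3
-/

namespace Pool.Agent.N641.VB

open FirstOrder FirstOrder.Language

/-- isomorphic structures on `ℕ` -/
def Iso {L : FirstOrder.Language.{0, 0}} (S S' : L.Structure ℕ) : Prop :=
  Nonempty (@FirstOrder.Language.Equiv L ℕ ℕ S S')

theorem Iso.symm {L : FirstOrder.Language.{0, 0}} {S S' : L.Structure ℕ} (h : Iso S S') :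
    Iso S' S := by
  obtain ⟨e⟩ := h
  exact ⟨@FirstOrder.Language.Equiv.symm L ℕ ℕ S S' e⟩

/-- a class of structures is covered by countably many isomorphism types -/
def Few {L : FirstOrder.Language.{0, 0}} (K : L.Structure ℕ → Prop) : Prop :=
  ∃ C : Set (L.Structure ℕ), C.Countable ∧ ∀ S, K S → ∃ S' ∈ C, Iso S S'

theorem Few.iUnion {L : FirstOrder.Language.{0, 0}} {ι : Type} [Countable ι]
    {K : ι → L.Structure ℕ → Prop} (h : ∀ i, Few (K i)) : Few (fun S => ∃ i, K i S) := by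
  choose C h1 h2 using h
  refine ⟨⋃ i, C i, Set.countable_iUnion h1, ?_⟩
  rintro S ⟨i, hi⟩
  obtain ⟨S', h3, h4⟩ := h2 i S hi
  exact ⟨S', Set.mem_iUnion.2 ⟨i, h3⟩, h4⟩

/-- countably many invariants that determine the isomorphism type -/
theorem Few.of_inv {L : FirstOrder.Language.{0, 0}} {K : L.Structure ℕ → Prop} {D : Type}
    (inv : L.Structure ℕ → D → Prop) (Z : Set D) (hZ : Z.Countable)
    (h1 : ∀ S, K S → ∃ d ∈ Z, inv S d)
    (h2 : ∀ S S' d, K S → K S' → inv S d → inv S' d → Iso S S') : Few K := by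
  classical
  let Z' : Set D := {d | d ∈ Z ∧ ∃ S, K S ∧ inv S d}
  have hZ' : Z'.Countable := hZ.mono (by
    intro d hd
    exact hd.1)
  haveI : Nonempty (L.Structure ℕ) := ⟨⟨fun _ _ => 0, fun _ _ => False⟩⟩
  choose! F hF using fun (d : D) (hd : d ∈ Z') => hd.2
  refine ⟨F '' Z', hZ'.image F, fun S hS => ?_⟩
  obtain ⟨d, hd, hi⟩ := h1 S hS
  have hd' : d ∈ Z' := ⟨hd, S, hS, hi⟩
  exact ⟨F d, ⟨d, hd', rfl⟩, h2 S (F d) d hS (hF d hd').1 hi (hF d hd').2⟩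

theorem few_seq {L : FirstOrder.Language.{0, 0}} {K : L.Structure ℕ → Prop} (h : Few K) :
    ∃ g : ℕ → L.Structure ℕ, ∀ S, K S → ∃ n, Iso S (g n) := by
  classical
  obtain ⟨C, hC, h1⟩ := h
  rcases C.eq_empty_or_nonempty with rfl | hne
  · refine ⟨fun _ => ⟨fun _ _ => 0, fun _ _ => False⟩, fun S hS => ?_⟩
    obtain ⟨S', h2, -⟩ := h1 S hS
    exact absurd h2 (Set.notMem_empty S')
  · obtain ⟨g, hg⟩ := hC.exists_eq_range hne
    refine ⟨g, fun S hS => ?_⟩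
    obtain ⟨S', h2, h3⟩ := h1 S hS
    rw [hg] at h2
    obtain ⟨n, rfl⟩ := h2
    exact ⟨n, h3⟩

/-- the models with fixed defining formulas -/
def Kσ {L : FirstOrder.Language.{0, 0}} {M : Type} [AddCommMonoid M] {n : ℕ} (T : L.Theory)
    (φ : L.Formula (Fin n ⊕ Fin 2)) (ψ : M → L.Formula (Fin n ⊕ Fin 1))
    (S : L.Structure ℕ) : Prop :=
  @Theory.Model L ℕ S T ∧ ∃ (p : Fin n → ℕ) (bo : BooleanAlgebra ℕ) (mu : ℕ → M),
    Dec S p φ ψ bo mu ∧ Enc S p bo mu ∧ @AM M _ ℕ bo mu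

theorem few_sigma (H : Lv) {L : FirstOrder.Language.{0, 0}} (hL : Countable L.Symbols)
    {M : Type} [AddCommMonoid M] [Finite M] {n : ℕ} (T : L.Theory) (hP : ¬ Perfect L T)
    (φ : L.Formula (Fin n ⊕ Fin 2)) (ψ : M → L.Formula (Fin n ⊕ Fin 1)) :
    Few (Kσ T φ ψ) := by
  have hRT : (RT T φ ψ).Countable := H.st2 L hL T M n φ ψ hP
  have hTh := H.st1 L hL T n hP
  refine Few.of_inv (D := Set (L.Formula (Fin n)) × ((Fin n → Bool) → FT M))
    (fun S d => ∃ (p : Fin n → ℕ) (bo : BooleanAlgebra ℕ) (mu : ℕ → M),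
      Dec S p φ ψ bo mu ∧ Enc S p bo mu ∧ @AM M _ ℕ bo mu ∧
      d = ({χ | @Formula.Realize L ℕ S _ χ p}, fun ε => @ft M ℕ bo mu (@cell ℕ bo n p ε)))
    ({q : Set (L.Formula (Fin n)) | ∃ (S : L.Structure ℕ) (p : Fin n → ℕ),
      @Theory.Model L ℕ S T ∧ q = {χ | @Formula.Realize L ℕ S _ χ p}} ×ˢ
      {θ : (Fin n → Bool) → FT M | ∀ ε, θ ε ∈ RT T φ ψ})
    (hTh.prod (Set.countable_pi fun _ => hRT)) ?_ ?_
  · rintro S ⟨hS, p, bo, mu, hD, hE, hA⟩
    refine ⟨_, ⟨⟨S, p, hS, rfl⟩, fun ε => ?_⟩, p, bo, mu, hD, hE, hA, rfl⟩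
    exact ⟨S, p, bo, mu, _, hS, hD, hA, rfl⟩
  · rintro S S' d ⟨hS, -⟩ ⟨hS', -⟩ ⟨p, bo, mu, hD, hE, hA, rfl⟩ ⟨p', bo', mu', hD', hE', hA', hd⟩
    have h1 := congrArg Prod.fst hd
    have h2 := congrArg Prod.snd hd
    obtain ⟨e, e1, e2⟩ := @H.cat M _ _ ℕ ℕ bo bo' _ _ mu mu' n p p' hA hA'
      (fun ε => congrFun h2 ε) (fun ε => dv_fin H hL hP hS hD hE hA ε)
    refine H.unq L M n φ ψ S S' p p' bo bo' mu mu' hD hD' hE ?_ e.toEquiv ?_ e1 e2
    · intro χ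
      exact Set.ext_iff.1 h1 χ
    · intro a b
      exact (@OrderIso.le_iff_le ℕ ℕ bo.toLE bo'.toLE e a b).symm

end Pool.Agent.N641.VB
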