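import Pool.Agent.N641.VB.Main3

set_option autoImplicit false
set_option linter.style.haveILetI false
set_option linter.unusedVariables false

/-!
# Project VB (helper641): assembly, part 4
-/

namespace Pool.Agent.N641.VB

open FirstOrder FirstOrder.Language

theorem ctbl_formula {L : FirstOrder.Language.{0, 0}} (hL : Countable L.Symbols) (α : Type)
    [Finite α] : Countable (L.Formula α) := by
  have h3 : Cardinal.mk (Σ k, L.BoundedFormula α k) ≤ Cardinal.aleph0 := by
    refine BoundedFormula.card_le.trans ?_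
    refine max_le le_rfl ?_
    refine Cardinal.add_le_aleph0.2 ⟨?_, ?_⟩
    · simp only [Cardinal.lift_id]
      haveI : Countable α := Finite.to_countable
      exact Cardinal.mk_le_aleph0
    · simp only [Cardinal.lift_id]
      haveI : Countable L.Symbols := hL
      exact Cardinal.mk_le_aleph0
  haveI : Countable (Σ k, L.BoundedFormula α k) := Cardinal.mk_le_aleph0_iff.1 h3
  exact Function.Injective.countable (f := fun φ : L.Formula α =>
    (⟨0, φ⟩ : Σ k, L.BoundedFormula α k)) (fun a b h => by
      simpa using h)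

/-- the dichotomy for theories of structures interdefinable with algebras with a measure -/
theorem few_all (H : Lv) {L : FirstOrder.Language.{0, 0}} (hL : Countable L.Symbols)
    (T : L.Theory) (hP : ¬ Perfect L T) :
    Few (fun S : L.Structure ℕ => ∃ (m : ℕ) (i : AddCommMonoid (Fin m)) (n : ℕ)
      (φ : L.Formula (Fin n ⊕ Fin 2)) (ψ : Fin m → L.Formula (Fin n ⊕ Fin 1)), Kσ T φ ψ S) := by
  haveI := H.cns
  refine Few.iUnion fun m => ?_
  haveI : Countable (AddCommMonoid (Fin m)) := H.cns m
  refine Few.iUnion fun i => ?_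
  refine Few.iUnion fun n => ?_
  haveI : Countable (L.Formula (Fin n ⊕ Fin 2)) := ctbl_formula hL _
  haveI : Countable (L.Formula (Fin n ⊕ Fin 1)) := ctbl_formula hL _
  refine Few.iUnion fun φ => ?_
  refine Few.iUnion fun ψ => ?_
  exact few_sigma H hL T hP φ ψ

section complete

variable {M : Type} [AddCommMonoid M] [Finite M]

/-- the formula for the order -/
def fle (M : Type) : (LM M).Formula (Fin 0 ⊕ Fin 2) :=
  Relations.formula (Sym.le : (LM M).Relations 2) (fun j => Term.var (Sum.inr j))

/-- the formulas for the measure -/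
def fval {M : Type} (c : M) : (LM M).Formula (Fin 0 ⊕ Fin 1) :=
  Relations.formula (Sym.val c : (LM M).Relations 1) (fun j => Term.var (Sum.inr j))

theorem dec_str (bo : BooleanAlgebra ℕ) (mu : ℕ → M) :
    Dec (str bo.le mu) Fin.elim0 (fle M) fval bo mu where
  le := fun v => by
    letI := str bo.le mu
    unfold fle
    rw [Formula.realize_rel]
    exact Iff.rfl
  val := fun c v => by
    letI := str bo.le mu
    unfold fval
    rw [Formula.realize_rel]
    exact Iff.rfl

theorem enc_str (bo : BooleanAlgebra ℕ) (mu : ℕ → M) :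
    Enc (L := LM M) (str bo.le mu) (n := 0) Fin.elim0 bo mu where
  rel := fun l R => ⟨Relations.formula R (fun j => Term.var (Sum.inr j)), fun v => by
    letI := str bo.le mu
    rw [Formula.realize_rel]
    exact Iff.rfl⟩
  fun_ := fun l F => Empty.elim F

theorem ft_top_eq (H : Lv) {T : (LM M).Theory} (hT : T.IsComplete) {bo bo' : BooleanAlgebra ℕ}
    {mu mu' : ℕ → M} (h : @Theory.Model (LM M) ℕ (str bo.le mu) T)
    (h' : @Theory.Model (LM M) ℕ (str bo'.le mu') T) :
    @ft M ℕ bo mu bo.top = @ft M ℕ bo' mu' bo'.top := by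
  funext k
  obtain ⟨χ, hχ⟩ := H.chi M k (@tp M ℕ bo mu k bo.top)
  let top : (LM M).Formula (Fin 1) := Formula.iAlls (Fin 1)
    (Relations.formula₂ (Sym.le : (LM M).Relations 2) (Term.var (Sum.inr 0))
      (Term.var (Sum.inl 0)) : (LM M).Formula (Fin 1 ⊕ Fin 1))
  let σ : (LM M).Sentence := Formula.iExs (Fin 1)
    (Formula.relabel (Sum.inr : Fin 1 → Empty ⊕ Fin 1) (top ⊓ χ))
  have key : ∀ (c : BooleanAlgebra ℕ) (nu : ℕ → M), @Sentence.Realize (LM M) ℕ (str c.le nu) σ ↔
      @tp M ℕ c nu k c.top = @tp M ℕ bo mu k bo.top := by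
    intro c nu
    letI := str c.le nu
    have h1 : ∀ x : Fin 1 → ℕ, top.Realize x ↔ ∀ y, c.le y (x 0) := by
      intro x
      rw [Formula.realize_iAlls]
      constructor
      · intro h y
        have h2 := h (fun _ => y)
        rw [Formula.realize_rel₂] at h2
        exact h2
      · intro h y
        rw [Formula.realize_rel₂]
        exact h (y 0)
    have h2 : Sentence.Realize ℕ σ ↔ ∃ x : Fin 1 → ℕ, top.Realize x ∧ χ.Realize x := by
      show Formula.Realize _ _ ↔ _
      rw [Formula.realize_iExs]
      refine exists_congr fun x => ?_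
      rw [Formula.realize_relabel, Formula.realize_inf]
      exact Iff.rfl
    rw [h2]
    constructor
    · rintro ⟨x, h3, h4⟩
      have h5 : x 0 = c.top := by
        rw [h1] at h3
        exact c.le_antisymm _ _ (c.le_top _) (h3 _)
      have h6 : x = fun _ => c.top := by
        funext j
        rw [Subsingleton.elim j 0, h5]
      rw [h6] at h4
      exact (@hχ ℕ c nu c.top).1 h4
    · intro h3
      refine ⟨fun _ => c.top, (h1 _).2 fun y => c.le_top y, (@hχ ℕ c nu c.top).2 h3⟩
  have e1 : T ⊨ᵇ σ := by
    exact ((@Theory.IsComplete.realize_sentence_iff (LM M) T hT σ ℕ (str bo.le mu) h _).1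
      ((key bo mu).2 rfl))
  have e2 := (@Theory.IsComplete.realize_sentence_iff (LM M) T hT σ ℕ (str bo'.le mu') h' _).2 e1
  exact ((key bo' mu').1 e2).symm

theorem cell_zero {A : Type} [BooleanAlgebra A] (p : Fin 0 → A) (ε : Fin 0 → Bool) :
    cell p ε = ⊤ := by
  unfold cell
  rw [Finset.univ_eq_empty, Finset.inf_empty]

theorem complete_unique (H : Lv) {T : (LM M).Theory} (hT : T.IsComplete)
    (hP : ¬ Perfect (LM M) T) {bo bo' : BooleanAlgebra ℕ}
    {mu mu' : ℕ → M} (hA : @AM M _ ℕ bo mu) (hA' : @AM M _ ℕ bo' mu')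
    (h : @Theory.Model (LM M) ℕ (str bo.le mu) T)
    (h' : @Theory.Model (LM M) ℕ (str bo'.le mu') T) :
    Iso (L := LM M) (str bo.le mu) (str bo'.le mu') := by
  have hL : Countable (LM M).Symbols := by
    haveI : Countable M := Finite.to_countable
    haveI : ∀ k, Countable ((LM M).Functions k) := fun k => inferInstanceAs (Countable Empty)
    haveI : ∀ k, Countable ((LM M).Relations k) := fun k => by
      have : Function.Injective (fun r : Sym M k => match r with
        | .le => (none : Option M)
        | .val c => some c) := by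
        intro r s hrs
        cases r <;> cases s <;> simp_all
      exact this.countable
    exact inferInstanceAs (Countable ((Σ l, (LM M).Functions l) ⊕ Σ l, (LM M).Relations l))
  have hcell : ∀ (c : BooleanAlgebra ℕ) (ε : Fin 0 → Bool),
      @cell ℕ c 0 (Fin.elim0 : Fin 0 → ℕ) ε = c.top := fun c ε => @cell_zero ℕ c _ ε
  obtain ⟨e, e1, e2⟩ := @H.cat M _ _ ℕ ℕ bo bo' _ _ mu mu' 0 Fin.elim0 Fin.elim0 hA hA'
    (fun ε => by rw [hcell, hcell]; exact ft_top_eq H hT h h')
    (fun ε => dv_fin H hL hP h (dec_str bo mu) (enc_str bo mu) hA ε)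
  refine ⟨@FirstOrder.Language.Equiv.mk (LM M) ℕ ℕ (str bo.le mu) (str bo'.le mu') e.toEquiv
    (fun f => Empty.elim f) ?_⟩
  intro l R x
  cases R with
  | le => exact @OrderIso.le_iff_le ℕ ℕ bo.toLE bo'.toLE e (x 0) (x 1)
  | val c =>
    show mu' (e (x 0)) = c ↔ mu (x 0) = c
    rw [e1]

end complete

end Pool.Agent.N641.VB
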