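import Pool.Agent.N641.VB.Stm5
import Pool.Agent.N641.VB.All3

set_option autoImplicit false
set_option linter.style.haveILetI false
set_option linter.unusedVariables false

/-!
# Project VB (helper641): assembly, part 6

Bi-interpretable structures in countable languages; complete theories; arbitrary finite monoids.
-/

namespace Pool.Agent.N641.VB

open FirstOrder FirstOrder.Language

theorem ctbl_LM (M : Type) [Finite M] : Countable (LM M).Symbols := by
  haveI : Countable M := Finite.to_countable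
  haveI : ∀ k, Countable ((LM M).Functions k) := fun k => inferInstanceAs (Countable Empty)
  haveI : ∀ k, Countable ((LM M).Relations k) := fun k => by
    have : Function.Injective (fun r : Sym M k => match r with
      | .le => (none : Option M)
      | .val c => some c) := by
      intro r s hrs
      cases r <;> cases s <;> simp_all
    exact this.countable
  exact inferInstanceAs (Countable ((Σ l, (LM M).Functions l) ⊕ Σ l, (LM M).Relations l))

section

variable {L : FirstOrder.Language.{0, 0}} {M : Type} [AddCommMonoid M] [Finite M]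

/-- the models with fixed formulas (not for the symbols of `L`) -/
def K5 (T : L.Theory) (n n' r : ℕ) (φ : L.Formula (Fin n ⊕ Fin 2))
    (ψ : M → L.Formula (Fin n ⊕ Fin 1)) (δ : (LM M).Formula (Fin n' ⊕ Fin r))
    (κ : (LM M).Formula (Fin n' ⊕ Fin r ⊕ Fin 1)) (π : Fin n → Fin r → Fin n')
    (κ' : L.Formula (Fin n ⊕ Fin 1 ⊕ Fin r)) (π' : Fin n' → Fin n) (S : L.Structure ℕ) : Prop :=
  @Theory.Model L ℕ S T ∧
    ∃ (ρ : (l : ℕ) → L.Relations l → (LM M).Formula (Fin n' ⊕ Fin l × Fin r))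
      (γ : (l : ℕ) → L.Functions l → (LM M).Formula (Fin n' ⊕ Fin (l + 1) × Fin r))
      (bo : BooleanAlgebra ℕ) (mu : ℕ → M) (q : Fin n' → ℕ) (p : Fin n → ℕ)
      (g : ℕ → Fin r → ℕ) (f : ℕ → ℕ),
      BiInt ⟨n, n', r, φ, ψ, δ, ρ, γ, κ, π⟩ S bo mu q p g f ∧ Back S κ' π' q p g f ∧
        @AM M _ ℕ bo mu

theorem few_sigma5 (UN5 : S_UN5) (hL : Countable L.Symbols) (T : L.Theory)
    (hP : ¬ Perfect L T) (n n' r : ℕ) (φ : L.Formula (Fin n ⊕ Fin 2))
    (ψ : M → L.Formula (Fin n ⊕ Fin 1)) (δ : (LM M).Formula (Fin n' ⊕ Fin r))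
    (κ : (LM M).Formula (Fin n' ⊕ Fin r ⊕ Fin 1)) (π : Fin n → Fin r → Fin n')
    (κ' : L.Formula (Fin n ⊕ Fin 1 ⊕ Fin r)) (π' : Fin n' → Fin n) :
    Few (K5 T n n' r φ ψ δ κ π κ' π') := by
  have H := lv
  have hRT : (RT3 T φ ψ).Countable := st4 L hL T M n φ ψ hP
  have hTh := H.st1 L hL T n hP
  refine Few.of_inv (D := Set (L.Formula (Fin n)) × ((Fin n' → Bool) → FT M))
    (fun S d => ∃ (ρ : (l : ℕ) → L.Relations l → (LM M).Formula (Fin n' ⊕ Fin l × Fin r))
      (γ : (l : ℕ) → L.Functions l → (LM M).Formula (Fin n' ⊕ Fin (l + 1) × Fin r))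
      (bo : BooleanAlgebra ℕ) (mu : ℕ → M) (q : Fin n' → ℕ) (p : Fin n → ℕ)
      (g : ℕ → Fin r → ℕ) (f : ℕ → ℕ),
      BiInt ⟨n, n', r, φ, ψ, δ, ρ, γ, κ, π⟩ S bo mu q p g f ∧ Back S κ' π' q p g f ∧
        @AM M _ ℕ bo mu ∧
      d = ({χ | @Formula.Realize L ℕ S _ χ p}, fun ε => @ft M ℕ bo mu (@cell ℕ bo n' q ε)))
    ({t : Set (L.Formula (Fin n)) | ∃ (S : L.Structure ℕ) (p : Fin n → ℕ),
      @Theory.Model L ℕ S T ∧ t = {χ | @Formula.Realize L ℕ S _ χ p}} ×ˢ
      {θ : (Fin n' → Bool) → FT M | ∀ ε, θ ε ∈ RT3 T φ ψ})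
    (hTh.prod (Set.countable_pi fun _ => hRT)) ?_ ?_
  · rintro S ⟨hS, ρ, γ, bo, mu, q, p, g, f, hB, hK, hA⟩
    refine ⟨_, ⟨⟨S, p, hS, rfl⟩, fun ε => ?_⟩, ρ, γ, bo, mu, q, p, g, f, hB, hK, hA, rfl⟩
    exact ⟨S, p, bo, mu, f, _, hS, hB.dec, hA, rfl⟩
  · rintro S S' d ⟨hS, -⟩ ⟨hS', -⟩ ⟨ρ, γ, bo, mu, q, p, g, f, hB, hK, hA, rfl⟩
      ⟨ρ', γ', bo', mu', q', p', g', f', hB', hK', hA', hd⟩
    have h1 := congrArg Prod.fst hd
    have h2 := congrArg Prod.snd hd
    obtain ⟨e, e1, e2⟩ := @H.cat M _ _ ℕ ℕ bo bo' _ _ mu mu' n' q q' hA hA'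
      (fun ε => congrFun h2 ε) (fun ε => dv_fin3 H ex3 st4 st5 hL hP hS hB hA ε)
    have hB'' := UN5 L M n n' r φ ψ δ ρ ρ' γ γ' κ π κ' π' S S' bo bo' mu mu' q q' p p' g g' f f'
      hB hB' hK hK' (fun χ => Set.ext_iff.1 h1 χ)
    refine un3 L M ⟨n, n', r, φ, ψ, δ, ρ, γ, κ, π⟩ S S' bo bo' mu mu' q q' p p' g g' f f' hB hB''
      e.toEquiv ?_ e1 e2
    intro a b
    exact (@OrderIso.le_iff_le ℕ ℕ bo.toLE bo'.toLE e a b).symm

end

/-- the dichotomy for theories of bi-interpretable structures, countable languages -/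
theorem few_all5 (UN5 : S_UN5) {L : FirstOrder.Language.{0, 0}} (hL : Countable L.Symbols)
    (T : L.Theory) (hP : ¬ Perfect L T) :
    Few (fun S : L.Structure ℕ => ∃ (m : ℕ) (i : AddCommMonoid (Fin m)) (n n' r : ℕ)
      (φ : L.Formula (Fin n ⊕ Fin 2)) (ψ : Fin m → L.Formula (Fin n ⊕ Fin 1))
      (δ : (LM (Fin m)).Formula (Fin n' ⊕ Fin r))
      (κ : (LM (Fin m)).Formula (Fin n' ⊕ Fin r ⊕ Fin 1)) (π : Fin n → Fin r → Fin n')
      (κ' : L.Formula (Fin n ⊕ Fin 1 ⊕ Fin r)) (π' : Fin n' → Fin n),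
      K5 T n n' r φ ψ δ κ π κ' π' S) := by
  refine Few.iUnion fun m => ?_
  haveI : Countable (AddCommMonoid (Fin m)) := lv.cns m
  refine Few.iUnion fun i => ?_
  refine Few.iUnion fun n => ?_
  refine Few.iUnion fun n' => ?_
  refine Few.iUnion fun r => ?_
  haveI : Countable (L.Formula (Fin n ⊕ Fin 2)) := ctbl_formula hL _
  haveI : Countable (L.Formula (Fin n ⊕ Fin 1)) := ctbl_formula hL _
  haveI : Countable (L.Formula (Fin n ⊕ Fin 1 ⊕ Fin r)) := ctbl_formula hL _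
  haveI : Countable ((LM (Fin m)).Formula (Fin n' ⊕ Fin r)) := ctbl_formula (ctbl_LM _) _
  haveI : Countable ((LM (Fin m)).Formula (Fin n' ⊕ Fin r ⊕ Fin 1)) := ctbl_formula (ctbl_LM _) _
  refine Few.iUnion fun φ => ?_
  refine Few.iUnion fun ψ => ?_
  refine Few.iUnion fun δ => ?_
  refine Few.iUnion fun κ => ?_
  refine Few.iUnion fun π => ?_
  refine Few.iUnion fun κ' => ?_
  refine Few.iUnion fun π' => ?_
  exact few_sigma5 UN5 hL T hP n n' r φ ψ δ κ π κ' π'

/-- complete theories -/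
theorem categorical (RNT : S_RNT) (FT3 : S_FT3) {L : FirstOrder.Language.{0, 0}}
    (hL : Countable L.Symbols) {T : L.Theory} (hT : T.IsComplete) (hP : ¬ Perfect L T)
    {M : Type} [AddCommMonoid M] [Finite M] {σ : Sch L M} {S S' : L.Structure ℕ}
    {bo : BooleanAlgebra ℕ} {mu : ℕ → M}
    {q : Fin σ.n' → ℕ} {p : Fin σ.n → ℕ} {g : ℕ → Fin σ.r → ℕ} {f : ℕ → ℕ}
    (hB : BiInt σ S bo mu q p g f) (hA : @AM M _ ℕ bo mu) (hS : @Theory.Model L ℕ S T)
    (hS' : @Theory.Model L ℕ S' T) : Iso S S' := by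
  refine RNT L S S' ?_ ?_
  · intro χ
    have e1 := @Theory.IsComplete.realize_sentence_iff L T hT χ ℕ S hS _
    have e2 := @Theory.IsComplete.realize_sentence_iff L T hT χ ℕ S' hS' _
    exact e1.trans e2.symm
  · exact FT3 L M σ S bo mu q p g f hB hA
      (fun ε => dv_fin3 lv ex3 st4 st5 hL hP hS hB hA ε)

section transport

variable {M M' : Type}

/-- renaming of the values -/
def lh (e : M → M') : LM M →ᴸ LM M' where
  onFunction := fun {_} F => Empty.elim F
  onRelation := fun {_} R => match R with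
    | .le => .le
    | .val v => .val (e v)

theorem realize_lh (e : M ≃ M') {A : Type} (le : A → A → Prop) (mu : A → M) {α : Type}
    (χ : (LM M).Formula α) (v : α → A) :
    @Formula.Realize (LM M') A (str le (fun a => e (mu a))) _ ((lh e).onFormula χ) v ↔
      @Formula.Realize (LM M) A (str le mu) _ χ v := by
  letI i1 := str le mu
  letI i2 := str le (fun a => e (mu a))
  haveI : (lh e).IsExpansionOn A := by
    refine ⟨fun F => Empty.elim F, ?_⟩
    intro l R x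
    cases R with
    | le => rfl
    | val c => exact propext (e.injective.eq_iff)
  exact LHom.realize_onFormula (lh e) χ

theorem am_lh [AddCommMonoid M] [AddCommMonoid M'] (e : M ≃ M') (h0 : e 0 = 0)
    (ha : ∀ x y, e (x + y) = e x + e y) {bo : BooleanAlgebra ℕ} {mu : ℕ → M}
    (h : @AM M _ ℕ bo mu) : @AM M' _ ℕ bo (fun a => e (mu a)) :=
  @AM.mk M' _ ℕ bo _ (by rw [h.bot, h0]) (fun a b hab => by rw [h.sup a b hab, ha])

/-- renaming of the values in a scheme -/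
def shl {L : FirstOrder.Language.{0, 0}} (e : M ≃ M') (σ : Sch L M) : Sch L M' :=
  ⟨σ.n, σ.n', σ.r, σ.φ, fun c => σ.ψ (e.symm c), (lh e).onFormula σ.δ,
    fun l R => (lh e).onFormula (σ.ρ l R), fun l F => (lh e).onFormula (σ.γ l F),
    (lh e).onFormula σ.κ, σ.π⟩

theorem bi_lh {L : FirstOrder.Language.{0, 0}} (e : M ≃ M') {σ : Sch L M} {S : L.Structure ℕ}
    {bo : BooleanAlgebra ℕ} {mu : ℕ → M}
    {q : Fin σ.n' → ℕ} {p : Fin σ.n → ℕ} {g : ℕ → Fin σ.r → ℕ} {f : ℕ → ℕ}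
    (h : BiInt σ S bo mu q p g f) : BiInt (shl e σ) S bo (fun a => e (mu a)) q p g f where
  inj := h.inj
  surj := h.surj
  uni := fun x => (realize_lh e _ _ _ _).trans (h.uni x)
  rel := fun l R v => (realize_lh e _ _ _ _).trans (h.rel l R v)
  fun_ := fun l F v => (realize_lh e _ _ _ _).trans (h.fun_ l F v)
  le := h.le
  val := fun c v => (h.val (e.symm c) v).trans ⟨fun h1 => by rw [h1]; exact e.apply_symm_apply c,
    fun h1 => by rw [← h1]; exact (e.symm_apply_apply _).symm⟩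
  comp := fun s b => (realize_lh e _ _ _ _).trans (h.comp s b)
  par := h.par

end transport

end Pool.Agent.N641.VB
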