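import Pool.Agent.N641.VB.Main6
import Pool.Agent.N697.VB.FT3
import Pool.Agent.N353.VB.RNT

set_option autoImplicit false
set_option linter.style.haveILetI false
set_option linter.unusedVariables false

/-!
# Project VB (helper641): assembly, part 7

The models of a theory without perfectly many models are determined by their theories.
-/

namespace Pool.Agent.N641.VB

open FirstOrder FirstOrder.Language

theorem ft3 : S_FT3 := Pool.Agent.N697.VB.FT3 tm3 tm4

theorem rnt : S_RNT := Pool.Agent.N353.VB.RNT

/-- elementarily equivalent structures -/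
def EEq {L : FirstOrder.Language.{0, 0}} (S S' : L.Structure ℕ) : Prop :=
  ∀ χ : L.Sentence, @Sentence.Realize L ℕ S χ ↔ @Sentence.Realize L ℕ S' χ

theorem EEq.model {L : FirstOrder.Language.{0, 0}} {S S' : L.Structure ℕ} (h : EEq S S')
    {T : L.Theory} (hS : @Theory.Model L ℕ S T) : @Theory.Model L ℕ S' T :=
  @Theory.Model.mk L ℕ S' T fun χ hχ => (h χ).1 (@Theory.Model.realize_of_mem L ℕ S T hS χ hχ)

/-- the structure is determined by its theory if `T` does not have perfectly many models -/
theorem iso_of_good {L : FirstOrder.Language.{0, 0}} (hL : Countable L.Symbols)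
    {T : L.Theory} (hP : ¬ Perfect L T) {m : ℕ} [AddCommMonoid (Fin m)]
    {σ : Sch L (Fin m)} {S : L.Structure ℕ} {bo : BooleanAlgebra ℕ} {mu : ℕ → Fin m}
    {q : Fin σ.n' → ℕ} {p : Fin σ.n → ℕ} {g : ℕ → Fin σ.r → ℕ} {f : ℕ → ℕ}
    (hB : BiInt σ S bo mu q p g f) (hA : @AM (Fin m) _ ℕ bo mu) (hS : @Theory.Model L ℕ S T)
    {S' : L.Structure ℕ} (h : EEq S S') : Iso S S' :=
  rnt L S S' h (ft3 L (Fin m) σ S bo mu q p g f hB hA
    (fun ε => dv_fin3 lv ex3 st4 st5 hL hP hS hB hA ε))

/-- there are only countably many theories, so only countably many models -/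
theorem few_of_unique {L : FirstOrder.Language.{0, 0}} (hL : Countable L.Symbols)
    {T : L.Theory} (hP : ¬ Perfect L T)
    (h : ∀ S S' : L.Structure ℕ, @Theory.Model L ℕ S T → @Theory.Model L ℕ S' T → EEq S S' →
      Iso S S') : Few (fun S : L.Structure ℕ => @Theory.Model L ℕ S T) := by
  have hTh := lv.st1 L hL T 0 hP
  refine Few.of_inv (fun S d => d = {χ : L.Formula (Fin 0) |
      @Formula.Realize L ℕ S _ χ Fin.elim0}) _ hTh ?_ ?_
  · intro S hS
    exact ⟨_, ⟨S, Fin.elim0, hS, rfl⟩, rfl⟩
  · intro S S' d hS hS' h1 h2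
    refine h S S' hS hS' fun χ => ?_
    have h3 : ∀ S : L.Structure ℕ, @Sentence.Realize L ℕ S χ ↔
        @Formula.Realize L ℕ S _ (Formula.relabel (Empty.elim : Empty → Fin 0) χ) Fin.elim0 := by
      intro S
      letI := S
      rw [Formula.realize_relabel]
      exact iff_of_eq (congrArg (Formula.Realize χ) (Subsingleton.elim _ _))
    have h4 := Set.ext_iff.1 (h1.symm.trans h2)
      (Formula.relabel (Empty.elim : Empty → Fin 0) χ)
    exact (h3 S).trans (h4.trans (h3 S').symm)

end Pool.Agent.N641.VB
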