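import Pool.Agent.N641.VB.Main7

set_option autoImplicit false
set_option linter.style.haveILetI false
set_option linter.unusedVariables false

/-!
# Project VB (helper641): assembly, part 8

The general theorem; interdefinable structures; distinguished ideals.
-/

namespace Pool.Agent.N641.VB

open FirstOrder FirstOrder.Language

/-- bi-interpretable with an algebra with a measure in a finite commutative monoid -/
def BMS {L : FirstOrder.Language.{0, 0}} (S : L.Structure ℕ) : Prop :=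
  ∃ (M : Type) (_ : AddCommMonoid M) (_ : Finite M) (bo : BooleanAlgebra ℕ) (mu : ℕ → M)
    (σ : Sch L M) (q : Fin σ.n' → ℕ) (p : Fin σ.n → ℕ) (g : ℕ → Fin σ.r → ℕ) (f : ℕ → ℕ),
    @AM M _ ℕ bo mu ∧ BiInt σ S bo mu q p g f

theorem tr_mon {M N : Type} [iM : AddCommMonoid M] (e : M ≃ N) : ∃ i : AddCommMonoid N,
    e 0 = 0 ∧ ∀ x y, e (x + y) = e x + e y := by
  refine ⟨e.symm.addCommMonoid, rfl, fun x y => ?_⟩
  show e (x + y) = e (e.symm (e x) + e.symm (e y))
  rw [e.symm_apply_apply, e.symm_apply_apply]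

theorem BMS.iso {L : FirstOrder.Language.{0, 0}} (hL : Countable L.Symbols)
    {T : L.Theory} (hP : ¬ Perfect L T) {S S' : L.Structure ℕ} (h : BMS S)
    (hS : @Theory.Model L ℕ S T) (he : EEq S S') : Iso S S' := by
  obtain ⟨M, iM, fM, bo, mu, σ, q, p, g, f, hA, hB⟩ := h
  obtain ⟨m, ⟨e⟩⟩ := Finite.exists_equiv_fin M
  obtain ⟨i, h0, ha⟩ := tr_mon e
  exact @iso_of_good L hL T hP m i _ S bo _ q p g f (bi_lh e hB)
    (@am_lh M (Fin m) iM i e h0 ha bo mu hA) hS S' he

theorem dichotomy {L : FirstOrder.Language.{0, 0}} (hL : Countable L.Symbols)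
    {T : L.Theory} (hP : ¬ Perfect L T)
    (hT : ∀ S : L.Structure ℕ, @Theory.Model L ℕ S T → ∃ S', EEq S S' ∧ BMS S') :
    (∀ S S' : L.Structure ℕ, @Theory.Model L ℕ S T → @Theory.Model L ℕ S' T → EEq S S' →
      Iso S S') ∧ ∃ g : ℕ → L.Structure ℕ, ∀ S, @Theory.Model L ℕ S T → ∃ n, Iso S (g n) := by
  have h1 : ∀ S S' : L.Structure ℕ, @Theory.Model L ℕ S T → @Theory.Model L ℕ S' T →
      EEq S S' → Iso S S' := by
    intro S S' hS hS' he
    obtain ⟨S0, h2, h3⟩ := hT S hS
    have h4 : @Theory.Model L ℕ S0 T := h2.model hS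
    have h5 : Iso S0 S := h3.iso hL hP h4 (fun χ => (h2 χ).symm)
    have h6 : Iso S0 S' := h3.iso hL hP h4 (fun χ => ((h2 χ).symm.trans (he χ)))
    obtain ⟨e5⟩ := h5
    obtain ⟨e6⟩ := h6
    exact ⟨@FirstOrder.Language.Equiv.comp L ℕ ℕ S S0 ℕ S'
      e6 (@FirstOrder.Language.Equiv.symm L ℕ ℕ S0 S e5)⟩
  exact ⟨h1, few_seq (few_of_unique hL hP h1)⟩

/-- interdefinable structures are bi-interpretable -/
theorem good_of_def {L : FirstOrder.Language.{0, 0}} {S : L.Structure ℕ} {M : Type}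
    [AddCommMonoid M] [Finite M] {bo : BooleanAlgebra ℕ} {mu : ℕ → M} {n : ℕ} {p : Fin n → ℕ}
    {φ : L.Formula (Fin n ⊕ Fin 2)} {ψ : M → L.Formula (Fin n ⊕ Fin 1)}
    (hA : @AM M _ ℕ bo mu) (hD : Dec S p φ ψ bo mu) (hE : Enc S p bo mu) : BMS S := by
  choose ρ hρ using hE.rel
  choose γ hγ using hE.fun_
  let τ : ∀ l, Fin n ⊕ Fin l → Fin n ⊕ Fin l × Fin 1 := fun l =>
    Sum.map id fun i => (i, 0)
  refine ⟨M, inferInstance, inferInstance, bo, mu,
    ⟨n, n, 1, φ, ψ, ⊤, fun l R => Formula.relabel (τ l) (ρ l R),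
      fun l F => Formula.relabel (τ (l + 1)) (γ l F),
      Term.equal (Term.var (Sum.inr (Sum.inl 0))) (Term.var (Sum.inr (Sum.inr 0))),
      fun j _ => j⟩, p, p, fun s _ => s, id, hA, ?_⟩
  refine @BiInt.mk L M _ S bo mu _ _ _ _ ?_ Function.surjective_id ?_ ?_ ?_ ?_ ?_ ?_ ?_
  · intro a b h
    exact congrFun h 0
  · intro x
    letI := str bo.le mu
    constructor
    · intro _
      refine ⟨x 0, funext fun i => ?_⟩
      rw [Subsingleton.elim i 0]
    · intro _
      exact Formula.realize_top.2 trivial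
  · intro l R v
    letI := str bo.le mu
    rw [Formula.realize_relabel]
    refine Iff.trans ?_ (hρ l R v)
    refine iff_of_eq (congrArg _ (funext fun x => ?_))
    rcases x with i | i <;> rfl
  · intro l F v
    letI := str bo.le mu
    rw [Formula.realize_relabel]
    refine Iff.trans ?_ (hγ l F v)
    refine iff_of_eq (congrArg _ (funext fun x => ?_))
    rcases x with i | i <;> rfl
  · intro v
    exact hD.le v
  · intro c v
    exact hD.val c v
  · intro s b
    letI := str bo.le mu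
    rw [Formula.realize_equal]
    exact Iff.rfl
  · intro j i
    rfl

end Pool.Agent.N641.VB
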