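import Pool.Agent.N641.VB.Stm4

set_option autoImplicit false

/-!
# Project VB (helper641): general bi-interpretations: statements

Interpretations in the usual sense: on definable sets of tuples, modulo definable equivalence
relations, with parameters.
-/

namespace Pool.Agent.N641.VB

open FirstOrder FirstOrder.Language

/-- formulas for an interpretation of `L`-structures in Boolean algebras with a measure (dimension
`r`, parameters `q_1, ..., q_n'`) and of the algebra in the structure (dimension `t`, parameters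
`p_1, ..., p_n`) -/
structure Sc6 (L : FirstOrder.Language.{0, 0}) (M : Type) where
  /-- number of parameters in the structure -/
  n : ℕ
  /-- number of parameters in the algebra -/
  n' : ℕ
  /-- dimension of the algebra in the structure -/
  t : ℕ
  /-- dimension of the structure in the algebra -/
  r : ℕ
  /-- the tuples of the structure that represent elements of the algebra -/
  dom : L.Formula (Fin n ⊕ Fin t)
  /-- the order of the algebra, in the structure -/
  φ : L.Formula (Fin n ⊕ Fin 2 × Fin t)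
  /-- the measure of the algebra, in the structure -/
  ψ : M → L.Formula (Fin n ⊕ Fin t)
  /-- the tuples of the algebra that represent elements of the structure -/
  δ : (LM M).Formula (Fin n' ⊕ Fin r)
  /-- equality in the structure, in the algebra -/
  ε : (LM M).Formula (Fin n' ⊕ Fin 2 × Fin r)
  /-- the relations of the structure, in the algebra -/
  ρ : (l : ℕ) → L.Relations l → (LM M).Formula (Fin n' ⊕ Fin l × Fin r)
  /-- the graphs of the functions of the structure, in the algebra -/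
  γ : (l : ℕ) → L.Functions l → (LM M).Formula (Fin n' ⊕ Fin (l + 1) × Fin r)
  /-- the composition of the interpretations, in the algebra -/
  κ : (LM M).Formula (Fin n' ⊕ (Fin t × Fin r) ⊕ Fin 1)
  /-- coordinates of the parameters of the structure -/
  π : Fin n → Fin r → Fin n'

/-- the algebra `(bo, mu)` is interpreted in the structure `S` via `f` -/
structure Dec6 {L : FirstOrder.Language.{0, 0}} {M : Type} (S : L.Structure ℕ) {n t : ℕ}
    (p : Fin n → ℕ) (dom : L.Formula (Fin n ⊕ Fin t)) (φ : L.Formula (Fin n ⊕ Fin 2 × Fin t))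
    (ψ : M → L.Formula (Fin n ⊕ Fin t)) (bo : BooleanAlgebra ℕ) (mu : ℕ → M)
    (f : (Fin t → ℕ) → ℕ) : Prop where
  surj : ∀ b, ∃ x, @Formula.Realize L ℕ S _ dom (Sum.elim p x) ∧ f x = b
  le : ∀ v : Fin 2 × Fin t → ℕ,
    (∀ i, @Formula.Realize L ℕ S _ dom (Sum.elim p fun j => v (i, j))) →
    (@Formula.Realize L ℕ S _ φ (Sum.elim p v) ↔
      bo.le (f fun j => v (0, j)) (f fun j => v (1, j)))
  val : ∀ (c : M) (x : Fin t → ℕ), @Formula.Realize L ℕ S _ dom (Sum.elim p x) →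
    (@Formula.Realize L ℕ S _ (ψ c) (Sum.elim p x) ↔ mu (f x) = c)

/-- the structure `S` is interpreted in the algebra `(A, mu)` with parameters `q` via `g` -/
structure In6 {L : FirstOrder.Language.{0, 0}} {M : Type} (σ : Sc6 L M) {A : Type}
    [BooleanAlgebra A] (mu : A → M) (q : Fin σ.n' → A) {U : Type} (S : L.Structure U)
    (g : (Fin σ.r → A) → U) : Prop where
  onto : ∀ s, ∃ x, @Formula.Realize (LM M) A (str (· ≤ ·) mu) _ σ.δ (Sum.elim q x) ∧ g x = s
  eq : ∀ v : Fin 2 × Fin σ.r → A,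
    (∀ i, @Formula.Realize (LM M) A (str (· ≤ ·) mu) _ σ.δ (Sum.elim q fun j => v (i, j))) →
    (@Formula.Realize (LM M) A (str (· ≤ ·) mu) _ σ.ε (Sum.elim q v) ↔
      g (fun j => v (0, j)) = g (fun j => v (1, j)))
  rel : ∀ (l : ℕ) (R : L.Relations l) (v : Fin l × Fin σ.r → A),
    (∀ i, @Formula.Realize (LM M) A (str (· ≤ ·) mu) _ σ.δ (Sum.elim q fun j => v (i, j))) →
    (@Formula.Realize (LM M) A (str (· ≤ ·) mu) _ (σ.ρ l R) (Sum.elim q v) ↔
      @Structure.RelMap L U S l R (fun i => g fun j => v (i, j)))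
  fun_ : ∀ (l : ℕ) (F : L.Functions l) (v : Fin (l + 1) × Fin σ.r → A),
    (∀ i, @Formula.Realize (LM M) A (str (· ≤ ·) mu) _ σ.δ (Sum.elim q fun j => v (i, j))) →
    (@Formula.Realize (LM M) A (str (· ≤ ·) mu) _ (σ.γ l F) (Sum.elim q v) ↔
      @Structure.funMap L U S l F (fun i => g fun j => v (i.castSucc, j)) =
        g (fun j => v (Fin.last l, j)))

/-- the structure `S` and the algebra `(bo, mu)` are interpreted in each other, and the composition
of the interpretations is definable in the algebra -/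
structure Bi6 {L : FirstOrder.Language.{0, 0}} {M : Type} (σ : Sc6 L M) (S : L.Structure ℕ)
    (bo : BooleanAlgebra ℕ) (mu : ℕ → M) (q : Fin σ.n' → ℕ) (p : Fin σ.n → ℕ)
    (g : (Fin σ.r → ℕ) → ℕ) (f : (Fin σ.t → ℕ) → ℕ) : Prop where
  inn : @In6 L M σ ℕ bo mu q ℕ S g
  dec : Dec6 S p σ.dom σ.φ σ.ψ bo mu f
  comp : ∀ (v : Fin σ.t × Fin σ.r → ℕ) (b : ℕ),
    (∀ i, @Formula.Realize (LM M) ℕ (str bo.le mu) _ σ.δ (Sum.elim q fun j => v (i, j))) →
    (@Formula.Realize (LM M) ℕ (str bo.le mu) _ σ.κ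
      (Sum.elim q (Sum.elim v fun _ => b)) ↔
      @Formula.Realize L ℕ S _ σ.dom (Sum.elim p fun i => g fun j => v (i, j)) ∧
        f (fun i => g fun j => v (i, j)) = b)
  par : ∀ j, @Formula.Realize (LM M) ℕ (str bo.le mu) _ σ.δ (Sum.elim q fun i => q (σ.π j i)) ∧
    g (fun i => q (σ.π j i)) = p j

/-- TM6: formulas of the interpreted structure are translated -/
def S_TM6 : Prop := ∀ (L : FirstOrder.Language.{0, 0}) (M : Type) (σ : Sc6 L M) (α : Type)
  [Finite α] (χ : L.Formula α), ∃ χ' : (LM M).Formula (Fin σ.n' ⊕ α × Fin σ.r),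
  ∀ (A : Type) [BooleanAlgebra A] (mu : A → M) (q : Fin σ.n' → A) (U : Type)
    (S : L.Structure U) (g : (Fin σ.r → A) → U), In6 σ mu q S g →
    ∀ v : α × Fin σ.r → A,
    (∀ i, @Formula.Realize (LM M) A (str (· ≤ ·) mu) _ σ.δ (Sum.elim q fun j => v (i, j))) →
    (@Formula.Realize (LM M) A (str (· ≤ ·) mu) _ χ' (Sum.elim q v) ↔
      @Formula.Realize L U S _ χ (fun i => g fun j => v (i, j)))

/-- the same formulas hold in two algebras -/
def SameF {M : Type} {n' : ℕ} (bo bo' : BooleanAlgebra ℕ) (mu mu' : ℕ → M)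
    (q q' : Fin n' → ℕ) : Prop :=
  ∀ χ : (LM M).Formula (Fin n'), @Formula.Realize (LM M) ℕ (str bo.le mu) _ χ q ↔
    @Formula.Realize (LM M) ℕ (str bo'.le mu') _ χ q'

/-- EXA: transfer of the interpreted structure -/
def S_EXA : Prop := ∀ (L : FirstOrder.Language.{0, 0}) (M : Type) (σ : Sc6 L M)
  (S : L.Structure ℕ) (bo bo' : BooleanAlgebra ℕ) (mu mu' : ℕ → M) (q q' : Fin σ.n' → ℕ)
  (g : (Fin σ.r → ℕ) → ℕ), @In6 L M σ ℕ bo mu q ℕ S g → SameF bo bo' mu mu' q q' →
  ∃ (S' : L.Structure ℕ) (g' : (Fin σ.r → ℕ) → ℕ), @In6 L M σ ℕ bo' mu' q' ℕ S' g'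

/-- EXB: transfer of the bi-interpretation -/
def S_EXB : Prop := ∀ (L : FirstOrder.Language.{0, 0}) (M : Type) (σ : Sc6 L M)
  (S S' : L.Structure ℕ) (bo bo' : BooleanAlgebra ℕ) (mu mu' : ℕ → M) (q q' : Fin σ.n' → ℕ)
  (p : Fin σ.n → ℕ) (g g' : (Fin σ.r → ℕ) → ℕ) (f : (Fin σ.t → ℕ) → ℕ),
  Bi6 σ S bo mu q p g f → SameF bo bo' mu mu' q q' → @In6 L M σ ℕ bo' mu' q' ℕ S' g' →
  ∃ (p' : Fin σ.n → ℕ) (f' : (Fin σ.t → ℕ) → ℕ), Bi6 σ S' bo' mu' q' p' g' f'

/-- FT6: interpreted structures have finitely many types -/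
def S_FT6 : Prop := ∀ (L : FirstOrder.Language.{0, 0}) (M : Type) [AddCommMonoid M] [Finite M]
  (σ : Sc6 L M) (S : L.Structure ℕ) (bo : BooleanAlgebra ℕ) (mu : ℕ → M)
  (q : Fin σ.n' → ℕ) (g : (Fin σ.r → ℕ) → ℕ),
  @In6 L M σ ℕ bo mu q ℕ S g → @AM M _ ℕ bo mu →
  (∀ ε, (Dv (@ft M ℕ bo mu (@cell ℕ bo σ.n' q ε))).Finite) → FinTypes S

/-- ST6: countably many types in the interpreted Boolean algebras -/
def S_ST6 : Prop := ∀ (L : FirstOrder.Language.{0, 0}), Countable L.Symbols →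
  ∀ (T : L.Theory) (M : Type) [AddCommMonoid M] [Finite M] (n t : ℕ)
  (dom : L.Formula (Fin n ⊕ Fin t)) (φ : L.Formula (Fin n ⊕ Fin 2 × Fin t))
  (ψ : M → L.Formula (Fin n ⊕ Fin t)), ¬ Perfect L T →
  {w : FT M | ∃ (S : L.Structure ℕ) (p : Fin n → ℕ) (bo : BooleanAlgebra ℕ) (mu : ℕ → M)
    (f : (Fin t → ℕ) → ℕ) (a : ℕ), @Theory.Model L ℕ S T ∧ Dec6 S p dom φ ψ bo mu f ∧
      @AM M _ ℕ bo mu ∧ @ft M ℕ bo mu a = w}.Countable

/-- SW6: countably many codes in the interpreted Boolean algebras -/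
def S_SW6 : Prop := ∀ (L : FirstOrder.Language.{0, 0}), Countable L.Symbols →
  ∀ (T : L.Theory) (M : Type) [AddCommMonoid M] [Finite M] (n t : ℕ)
  (dom : L.Formula (Fin n ⊕ Fin t)) (φ : L.Formula (Fin n ⊕ Fin 2 × Fin t))
  (ψ : M → L.Formula (Fin n ⊕ Fin t)) (G : Set (FT M)), G.Countable → ¬ Perfect L T →
  {w : Set ℕ | ∃ (S : L.Structure ℕ) (p : Fin n → ℕ) (bo : BooleanAlgebra ℕ) (mu : ℕ → M)
    (f : (Fin t → ℕ) → ℕ) (a : ℕ), @Theory.Model L ℕ S T ∧ Dec6 S p dom φ ψ bo mu f ∧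
      @AM M _ ℕ bo mu ∧ @WW ℕ bo (fun b => @ft M ℕ bo mu b ∈ G) a = w}.Countable

end Pool.Agent.N641.VB
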