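import Pool.Agent.N641.VB.Main7
import Pool.Agent.N641.VB.Stm6

set_option autoImplicit false
set_option linter.style.haveILetI false
set_option linter.unusedVariables false

/-!
# Project VB (helper641): assembly, part 9

General bi-interpretations.
-/

namespace Pool.Agent.N641.VB

open FirstOrder FirstOrder.Language

section

variable {L : FirstOrder.Language.{0, 0}} {M : Type} [AddCommMonoid M] [Finite M]

/-- algebras with the same full types of the cells satisfy the same formulas -/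
theorem sameF {n' : ℕ} {bo bo' : BooleanAlgebra ℕ} {mu mu' : ℕ → M} {q q' : Fin n' → ℕ}
    (hA : @AM M _ ℕ bo mu) (hA' : @AM M _ ℕ bo' mu')
    (h : ∀ ε, @ft M ℕ bo mu (@cell ℕ bo n' q ε) = @ft M ℕ bo' mu' (@cell ℕ bo' n' q' ε)) :
    SameF bo bo' mu mu' q q' := by
  intro χ
  obtain ⟨k, hk⟩ := tm4 M n' χ
  exact @hk ℕ ℕ bo bo' mu mu' q q' hA hA' (fun ε => congrFun (h ε) k)

/-- the types realised in the interpreted algebras -/
def RT6 {n t : ℕ} (T : L.Theory) (dom : L.Formula (Fin n ⊕ Fin t))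
    (φ : L.Formula (Fin n ⊕ Fin 2 × Fin t)) (ψ : M → L.Formula (Fin n ⊕ Fin t)) : Set (FT M) :=
  {w : FT M | ∃ (S : L.Structure ℕ) (p : Fin n → ℕ) (bo : BooleanAlgebra ℕ) (mu : ℕ → M)
    (f : (Fin t → ℕ) → ℕ) (a : ℕ), @Theory.Model L ℕ S T ∧ Dec6 S p dom φ ψ bo mu f ∧
      @AM M _ ℕ bo mu ∧ @ft M ℕ bo mu a = w}

variable {T : L.Theory} {σ : Sc6 L M}
  {S : L.Structure ℕ} {bo : BooleanAlgebra ℕ} {mu : ℕ → M}
  {q : Fin σ.n' → ℕ} {p : Fin σ.n → ℕ} {g : (Fin σ.r → ℕ) → ℕ} {f : (Fin σ.t → ℕ) → ℕ}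

/-- elementarily equivalent structures -/
theorem eeq6 (TM6 : S_TM6) {S' : L.Structure ℕ} {bo' : BooleanAlgebra ℕ} {mu' : ℕ → M}
    {q' : Fin σ.n' → ℕ} {g' : (Fin σ.r → ℕ) → ℕ} (h : @In6 L M σ ℕ bo mu q ℕ S g)
    (hs : SameF bo bo' mu mu' q q') (h' : @In6 L M σ ℕ bo' mu' q' ℕ S' g') : EEq S S' := by
  intro χ
  obtain ⟨χ', hχ⟩ := TM6 L M σ Empty χ
  let e : Fin σ.n' ⊕ Empty × Fin σ.r → Fin σ.n' := Sum.elim id fun x => x.1.elim
  have key : ∀ (c : BooleanAlgebra ℕ) (nu : ℕ → M) (w : Fin σ.n' → ℕ) (X : L.Structure ℕ)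
      (k : (Fin σ.r → ℕ) → ℕ), @In6 L M σ ℕ c nu w ℕ X k →
      (@Formula.Realize (LM M) ℕ (str c.le nu) _ (Formula.relabel e χ') w ↔
        @Sentence.Realize L ℕ X χ) := by
    intro c nu w X k hk
    have h1 := @hχ ℕ c nu w ℕ X k hk (fun x => x.1.elim) (fun i => i.elim)
    letI := str c.le nu
    rw [Formula.realize_relabel]
    have h2 : (w ∘ e) = Sum.elim w (fun x : Empty × Fin σ.r => x.1.elim) := by
      funext x
      rcases x with i | x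
      · rfl
      · exact x.1.elim
    rw [h2]
    refine h1.trans ?_
    exact iff_of_eq (congrArg (@Formula.Realize L ℕ X _ χ) (Subsingleton.elim _ _))
  rw [← key bo mu q S g h, ← key bo' mu' q' S' g' h']
  exact hs _

theorem ex6 (TM6 : S_TM6) (EXA : S_EXA) (EXB : S_EXB) {bo' : BooleanAlgebra ℕ} {mu' : ℕ → M}
    {q' : Fin σ.n' → ℕ} (hB : Bi6 σ S bo mu q p g f)
    (hA : @AM M _ ℕ bo mu) (hA' : @AM M _ ℕ bo' mu')
    (h : ∀ ε, @ft M ℕ bo mu (@cell ℕ bo σ.n' q ε) = @ft M ℕ bo' mu' (@cell ℕ bo' σ.n' q' ε)) :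
    ∃ (S' : L.Structure ℕ) (p' : Fin σ.n → ℕ) (g' : (Fin σ.r → ℕ) → ℕ)
      (f' : (Fin σ.t → ℕ) → ℕ), Bi6 σ S' bo' mu' q' p' g' f' ∧
      ∀ T : L.Theory, @Theory.Model L ℕ S T → @Theory.Model L ℕ S' T := by
  have hs := sameF hA hA' h
  obtain ⟨S', g', hI⟩ := EXA L M σ S bo bo' mu mu' q q' g hB.inn hs
  obtain ⟨p', f', hB'⟩ := EXB L M σ S S' bo bo' mu mu' q q' p g g' f hB hs hI
  exact ⟨S', p', g', f', hB', fun T hT => (eeq6 TM6 hB.inn hs hI).model hT⟩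

theorem dv_sub6 (TM6 : S_TM6) (EXA : S_EXA) (EXB : S_EXB) (hS : @Theory.Model L ℕ S T)
    (hB : Bi6 σ S bo mu q p g f) (hA : @AM M _ ℕ bo mu) (ε0 : Fin σ.n' → Bool) :
    Dv (@ft M ℕ bo mu (@cell ℕ bo σ.n' q ε0)) ⊆ RT6 T σ.dom σ.φ σ.ψ := by
  have H := lv
  rintro u ⟨hu, v, hv, huv⟩
  obtain ⟨A1, i1, nu1, c1, m1, t1⟩ := H.ls M u hu
  obtain ⟨A2, i2, nu2, c2, m2, t2⟩ := H.ls M v hv
  obtain ⟨q', bo', mu', em, k2, kc, k4, k5, k6⟩ := family0 H hA ε0 (A1 × A2)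
    (mprod nu1 nu2) (mprod_am m1 m2) (by rw [ft_prod_top H.trn m1 m2, t1, t2, huv])
  obtain ⟨S', p', g', f', kB, k3⟩ := ex6 TM6 EXA EXB hB hA k2 kc
  refine ⟨S', p', bo', mu', f', em ((⊤ : A1), (⊥ : A2)), k3 T hS, kB.dec, k2, ?_⟩
  rw [ft_em H k4 k5 k6, ft_left H.trn m2, t1]

theorem dv_fin6 (TM6 : S_TM6) (EXA : S_EXA) (EXB : S_EXB) (ST6 : S_ST6) (SW6 : S_SW6)
    (hL : Countable L.Symbols)
    (hP : ¬ Perfect L T) (hS : @Theory.Model L ℕ S T)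
    (hB : Bi6 σ S bo mu q p g f) (hA : @AM M _ ℕ bo mu) (ε0 : Fin σ.n' → Bool) :
    (Dv (@ft M ℕ bo mu (@cell ℕ bo σ.n' q ε0))).Finite := by
  have H := lv
  by_contra hinf
  have hRT : (RT6 T σ.dom σ.φ σ.ψ).Countable := ST6 L hL T M σ.n σ.t σ.dom σ.φ σ.ψ hP
  have hct : (Dv (@ft M ℕ bo mu (@cell ℕ bo σ.n' q ε0))).Countable :=
    hRT.mono (dv_sub6 TM6 EXA EXB hS hB hA ε0)
  obtain ⟨e, ⟨he1, w, hw, hew⟩, hG⟩ := H.algf M _ ⟨ℕ, bo, mu, _, hA, rfl⟩ hinf hct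
  obtain ⟨A2, i2, nu2, c2, m2, t2⟩ := H.ls M w hw
  let G : Set (FT M) := {u | u ∈ RT6 T σ.dom σ.φ σ.ψ ∧ (Dv u).Finite}
  have hGc : G.Countable := hRT.mono fun u hu => hu.1
  have hcodes := SW6 L hL T M σ.n σ.t σ.dom σ.φ σ.ψ G hGc hP
  refine absurd (hcodes.mono (s₁ := {w : Set ℕ | w.Infinite}) ?_) ?_
  · intro W hW
    obtain ⟨B, iB, b1, b2, b3⟩ := exists_code H.e H.ws W hW
    obtain ⟨A1, i1, nu1, π, c1, m1, t1, p1, p2, p3, p4⟩ := H.con M e hG B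
    obtain ⟨q', bo', mu', em, k2, kc, k4, k5, k6⟩ := family0 H hA ε0 (A1 × A2)
      (mprod nu1 nu2) (mprod_am m1 m2) (by rw [ft_prod_top H.trn m1 m2, t1, t2, hew])
    obtain ⟨S', p', g', f', kB, k3⟩ := ex6 TM6 EXA EXB hB hA k2 kc
    refine ⟨S', p', bo', mu', f', em ((⊤ : A1), (⊥ : A2)), k3 T hS, kB.dec, k2, ?_⟩
    have hRT' : ∀ a, @ft M ℕ bo' mu' a ∈ RT6 T σ.dom σ.φ σ.ψ := fun a =>
      ⟨S', p', bo', mu', f', a, k3 T hS, kB.dec, k2, rfl⟩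
    have hπ : π ⊤ = ⊤ := by
      obtain ⟨x, hx⟩ := p1 ⊤
      have h1 : π (x ⊔ ⊤) = π x ⊔ π ⊤ := p2 x ⊤
      rw [sup_top_eq, hx, top_sup_eq] at h1
      exact h1
    have hq := (H.quo A1 B π (fun a => (Dv (ft nu1 a)).Finite) p1 p2 p3 p4).2.2 ⊤
    rw [hπ, b3] at hq
    rw [← hq]
    refine @H.trw A1 ℕ i1 bo' (fun x => em (x, ⊥)) ⊤ (fun a => (Dv (ft nu1 a)).Finite)
      (fun b => @ft M ℕ bo' mu' b ∈ G) ?_ ?_ ?_ ?_ ?_
    · intro b _ c _
      rw [← k4]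
      exact ⟨fun h => Prod.mk_le_mk.2 ⟨h, le_rfl⟩, fun h => (Prod.mk_le_mk.1 h).1⟩
    · intro c hc
      have h1 : bo'.le c (em ⊤) := bo'.le_trans c _ _ hc ((k4 _ _).1 le_top)
      obtain ⟨b, hb⟩ := k5 c h1
      subst hb
      have h2 : b ≤ ((⊤ : A1), (⊥ : A2)) := (k4 _ _).2 hc
      have h3 := (Prod.mk_le_mk (a₁ := b.1) (b₁ := b.2)).1 h2
      exact ⟨b.1, le_top, congrArg em (Prod.ext rfl (le_bot_iff.1 h3.2).symm)⟩
    · intro b _
      show @ft M ℕ bo' mu' (em (b, ⊥)) ∈ G ↔ _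
      have h1 : @ft M ℕ bo' mu' (em (b, ⊥)) = ft nu1 b := by
        rw [ft_em H k4 k5 k6, ft_left H.trn m2]
      constructor
      · intro h
        have h2 := h.2
        rw [h1] at h2
        exact h2
      · intro h
        refine ⟨hRT' _, ?_⟩
        rw [h1]
        exact h
    · intro a b hba h
      exact Set.Finite.subset h (dv_trans H.radd (ft_dv m1 hba))
    · intro a b hba h
      refine ⟨hRT' _, ?_⟩
      exact Set.Finite.subset h.2 (dv_trans H.radd (@ft_dv M _ ℕ bo' mu' k2 a b hba))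
  · intro hc
    have h1 : (Set.univ : Set (Set ℕ)).Countable := by
      have h3 := Set.countable_ofPred_finite_subset (Set.countable_univ (α := ℕ))
      have h2 : ({w : Set ℕ | w.Finite} : Set (Set ℕ)).Countable :=
        h3.mono (by
          intro w hw
          exact ⟨hw, Set.subset_univ w⟩)
      refine (h2.union hc).mono fun w _ => ?_
      by_cases h : w.Finite
      · exact Or.inl h
      · exact Or.inr h
    haveI : Countable (Set ℕ) := Set.countable_univ_iff.1 h1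
    obtain ⟨f, hf⟩ := exists_injective_nat (Set ℕ)
    exact Function.cantor_injective f hf

/-- the structure is determined by its theory if `T` does not have perfectly many models -/
theorem iso_of6 (TM6 : S_TM6) (EXA : S_EXA) (EXB : S_EXB) (FT6 : S_FT6) (ST6 : S_ST6)
    (SW6 : S_SW6) (hL : Countable L.Symbols) (hP : ¬ Perfect L T)
    (hB : Bi6 σ S bo mu q p g f) (hA : @AM M _ ℕ bo mu) (hS : @Theory.Model L ℕ S T)
    {S' : L.Structure ℕ} (h : EEq S S') : Iso S S' :=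
  rnt L S S' h (FT6 L M σ S bo mu q g hB.inn hA
    (fun ε => dv_fin6 TM6 EXA EXB ST6 SW6 hL hP hS hB hA ε))

end

end Pool.Agent.N641.VB
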