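import Pool.Agent.N641.VB.Stm6
import Pool.Agent.N641.VB.Lang

set_option autoImplicit false

/-!
# Project VB (helper641): examples: statements
-/

namespace Pool.Agent.N641.VB

open FirstOrder FirstOrder.Language

/-- bi-interpretable with an algebra with a measure in a finite commutative monoid -/
def BM6 {L : FirstOrder.Language.{0, 0}} (S : L.Structure ℕ) : Prop :=
  ∃ (M : Type) (_ : AddCommMonoid M) (_ : Finite M) (bo : BooleanAlgebra ℕ) (mu : ℕ → M)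
    (σ : Sc6 L M) (q : Fin σ.n' → ℕ) (p : Fin σ.n → ℕ) (g : (Fin σ.r → ℕ) → ℕ)
    (f : (Fin σ.t → ℕ) → ℕ), @AM M _ ℕ bo mu ∧ Bi6 σ S bo mu q p g f

/-- definability with parameters -/
def DefP {L : FirstOrder.Language.{0, 0}} {U : Type} (S : L.Structure U) {α : Type}
    (s : (α → U) → Prop) : Prop :=
  ∃ (n : ℕ) (p : Fin n → U) (φ : L.Formula (Fin n ⊕ α)),
    ∀ v, @Formula.Realize L U S _ φ (Sum.elim p v) ↔ s v

/-- DPC: closure properties of definability with parameters -/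
def S_DPC : Prop := ∀ (L : FirstOrder.Language.{0, 0}) (U : Type) (S : L.Structure U),
  (∀ (α : Type) (s : (α → U) → Prop), DefP S s → DefP S (fun v => ¬ s v)) ∧
  (∀ (α : Type) (s t : (α → U) → Prop), DefP S s → DefP S t → DefP S (fun v => s v ∧ t v)) ∧
  (∀ (α : Type) (s t : (α → U) → Prop), DefP S s → DefP S t → DefP S (fun v => s v ∨ t v)) ∧
  (∀ (α : Type) (s t : (α → U) → Prop), DefP S s → DefP S t → DefP S (fun v => s v → t v)) ∧
  (∀ (α β : Type) (s : (α → U) → Prop) (h : α → β), DefP S s → DefP S (fun v => s (v ∘ h))) ∧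
  (∀ (α β : Type) [Finite β] (s : (α ⊕ β → U) → Prop), DefP S s →
    DefP S (fun v => ∃ w : β → U, s (Sum.elim v w)) ∧
    DefP S (fun v => ∀ w : β → U, s (Sum.elim v w))) ∧
  (∀ (α ι : Type) [Finite ι] (s : ι → (α → U) → Prop), (∀ i, DefP S (s i)) →
    DefP S (fun v => ∀ i, s i v) ∧ DefP S (fun v => ∃ i, s i v)) ∧
  (∀ (α : Type) (i j : α), DefP S (fun v : α → U => v i = v j)) ∧
  (∀ (α : Type) (i : α) (c : U), DefP S (fun v : α → U => v i = c)) ∧
  (∀ (α : Type) (l : ℕ) (R : L.Relations l) (h : Fin l → α),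
    DefP S (fun v : α → U => @Structure.RelMap L U S l R (fun i => v (h i)))) ∧
  (∀ (α : Type) (l : ℕ) (F : L.Functions l) (h : Fin l → α) (j : α),
    DefP S (fun v : α → U => @Structure.funMap L U S l F (fun i => v (h i)) = v j)) ∧
  (∀ (α : Type) (P : Prop), DefP S (fun _ : α → U => P))

/-- a bi-interpretation of the `L`-structure `S` with a Boolean algebra `B` with a measure, given by
definable sets -/
def BiD {L : FirstOrder.Language.{0, 0}} (S : L.Structure ℕ) {M B : Type}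
    [BooleanAlgebra B] (mu : B → M) : Prop :=
  ∃ (t r : ℕ) (D : (Fin r → B) → Prop) (g : (Fin r → B) → ℕ) (E : (Fin t → ℕ) → Prop)
    (f : (Fin t → ℕ) → B),
    DefP (str (· ≤ ·) mu) D ∧ (∀ s, ∃ x, D x ∧ g x = s) ∧
    DefP (str (· ≤ ·) mu) (fun v : Fin 2 × Fin r → B => (∀ i, D fun j => v (i, j)) ∧
      g (fun j => v (0, j)) = g (fun j => v (1, j))) ∧
    (∀ (l : ℕ) (R : L.Relations l), DefP (str (· ≤ ·) mu)
      (fun v : Fin l × Fin r → B => (∀ i, D fun j => v (i, j)) ∧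
        @Structure.RelMap L ℕ S l R (fun i => g fun j => v (i, j)))) ∧
    (∀ (l : ℕ) (F : L.Functions l), DefP (str (· ≤ ·) mu)
      (fun v : Fin (l + 1) × Fin r → B => (∀ i, D fun j => v (i, j)) ∧
        @Structure.funMap L ℕ S l F (fun i => g fun j => v (i.castSucc, j)) =
          g (fun j => v (Fin.last l, j)))) ∧
    DefP S E ∧ (∀ b, ∃ x, E x ∧ f x = b) ∧
    DefP S (fun v : Fin 2 × Fin t → ℕ => (∀ i, E fun j => v (i, j)) ∧
      f (fun j => v (0, j)) ≤ f (fun j => v (1, j))) ∧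
    (∀ c, DefP S (fun x : Fin t → ℕ => E x ∧ mu (f x) = c)) ∧
    DefP (str (· ≤ ·) mu) (fun v : (Fin t × Fin r) ⊕ Fin 1 → B =>
      (∀ i, D fun j => v (Sum.inl (i, j))) ∧ (E fun i => g fun j => v (Sum.inl (i, j))) ∧
        f (fun i => g fun j => v (Sum.inl (i, j))) = v (Sum.inr 0))

/-- BMD: the criterion -/
def S_BMD : Prop := ∀ (L : FirstOrder.Language.{0, 0}), Finite L.Symbols →
  ∀ (S : L.Structure ℕ) (M : Type) [AddCommMonoid M] [Finite M] (B : Type) [BooleanAlgebra B]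
  [Countable B] [Infinite B] (mu : B → M), AM mu → BiD S mu → BM6 S

/-- RCA: the Boolean algebra of a relatively complemented distributive lattice -/
def S_RCA : Prop := ∀ (D : Type) [DistribLattice D] [Countable D] [Infinite D],
  (∀ a b c : D, a ≤ b → b ≤ c → ∃ d, b ⊓ d = a ∧ b ⊔ d = c) → ∀ e : D,
  ∃ (B : Type) (_ : BooleanAlgebra B) (k : D → B), Countable B ∧ Infinite B ∧
    Function.Injective k ∧ k e = ⊥ ∧
    (∀ x y, k x ≤ k y ↔ (x ⊓ y) ⊔ (x ⊓ e) ⊔ (y ⊓ e) = x) ∧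
    (∀ b, (∃ x, k x = b) ∨ ∃ x, k x = bᶜ) ∧
    (∀ b x, b ≤ k x → ∃ y, k y = b) ∧
    (∀ x y, ∃ z, k z = k x ⊔ k y) ∧
    (∀ b x, b ≤ k x → e ≤ x → ∃ y, e ≤ y ∧ k y = b) ∧
    (∀ b x, b ≤ k x → x ≤ e → ∃ y, y ≤ e ∧ k y = b) ∧
    (∀ x y, e ≤ x → e ≤ y → k (x ⊔ y) = k x ⊔ k y) ∧
    (∀ x y, x ≤ e → y ≤ e → k (x ⊓ y) = k x ⊔ k y) ∧
    (∀ x, k x = k (x ⊔ e) ⊔ k (x ⊓ e) ∧ k (x ⊔ e) ⊓ k (x ⊓ e) = ⊥) ∧
    (∀ x y, x ≤ y ↔ k (x ⊔ e) ≤ k (y ⊔ e) ∧ k (y ⊓ e) ≤ k (x ⊓ e))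

/-- RCB: relatively complemented distributive lattices -/
def S_RCB : Prop := ∀ (D : DistribLattice ℕ),
  (∀ a b c : ℕ, D.le a b → D.le b c → ∃ d, D.inf b d = a ∧ D.sup b d = c) →
  BM6 (strO D.le)

/-- the values -/
abbrev KC (p m : ℕ) [Fact p.Prime] : Type := {c : AlgebraicClosure (ZMod p) // c ^ m = c}

/-- `ev c x` is the idempotent of the set of the points at which `x` has the value `c` -/
structure EvD (p m : ℕ) [Fact p.Prime] {R : Type} [CommRing R] (ev : KC p m → R → R) :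
    Prop where
  idem : ∀ c x, ev c x * ev c x = ev c x
  orth : ∀ c d x, c ≠ d → ev c x * ev d x = 0
  total : ∀ x b, (∀ c, b * ev c x = 0) → b = 0
  inj : ∀ x y, (∀ c, ev c x = ev c y) → x = y
  glue : ∀ b x y c, b * b = b → ev c (b * x + (1 - b) * y) = b * ev c x + (1 - b) * ev c y
  add : ∀ (c d e : KC p m) (x y : R), e.1 = c.1 + d.1 →
    ev c x * ev d y * ev e (x + y) = ev c x * ev d y
  add' : ∀ (c d : KC p m) (x y : R), (∀ e : KC p m, e.1 ≠ c.1 + d.1) → ev c x * ev d y = 0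
  mul : ∀ (c d e : KC p m) (x y : R), e.1 = c.1 * d.1 →
    ev c x * ev d y * ev e (x * y) = ev c x * ev d y
  one : ∀ (x : R) (c : KC p m), c.1 = 1 → x * x = x → ev c x = x
  ideal : ∀ (c : KC p m) (b : R), c.1 ≠ 0 → b * b = b → ((∃ x, b * ev c x = b) ↔
    ∃ x, x ^ orderOf c.1 * b = b ∧
      ∀ k, 0 < k → k < orderOf c.1 → ∃ y, y * (x ^ k - 1) * b = b)
  zero : ∀ c : KC p m, c.1 = 0 → ev c (0 : R) = 1

/-- RNA: the theorem of Arens and Kaplansky for rings with `x ^ m = x` -/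
def S_RNA : Prop := ∀ (p : ℕ) [Fact p.Prime] (m : ℕ), 2 ≤ m → ∀ (R : Type) [CommRing R]
  [CharP R p] [Countable R], (∀ x : R, x ^ m = x) → ∃ ev : KC p m → R → R, EvD p m ev

/-- RNB: rings with `x ^ m = x` are bi-interpretable with Boolean algebras with ideals -/
def S_RNB : Prop := ∀ (p : ℕ) [Fact p.Prime] (m : ℕ), 2 ≤ m → ∀ (R : CommRing ℕ)
  (ev : KC p m → ℕ → ℕ), @EvD p m _ ℕ R ev → BM6 (strR R)

end Pool.Agent.N641.VB
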