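import Pool.Agent.N641.VB.Main9
import Pool.Agent.N641.VB.Stm7
import Pool.Agent.N164.VB.SW6
import Pool.Agent.N390.VB.ST6
import Pool.Agent.N91.VB.FT6
import Pool.Agent.N249.VB.EXB
import Pool.Agent.N106.VB.EXA
import Pool.Agent.N776.VB.TM6

set_option autoImplicit false
set_option linter.style.haveILetI false
set_option linter.unusedVariables false

/-!
# Project VB (helper641): interface for the final theorem
-/

namespace Pool.Agent.N641.VB

open FirstOrder FirstOrder.Language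

/-- the leaves of the last part -/
structure Lv6 : Prop where
  tm6 : S_TM6
  exa : S_EXA
  exb : S_EXB
  ft6 : S_FT6
  st6 : S_ST6
  sw6 : S_SW6

theorem lv6 : Lv6 where
  tm6 := Pool.Agent.N776.VB.TM6
  exa := Pool.Agent.N106.VB.EXA
  exb := Pool.Agent.N249.VB.EXB Pool.Agent.N776.VB.TM6
  ft6 := Pool.Agent.N91.VB.FT6 Pool.Agent.N776.VB.TM6 tm4
  st6 := Pool.Agent.N390.VB.ST6.ST6 Pool.Agent.N353.VB.SIL Pool.Agent.N568.VB.Mea.MEA
  sw6 := Pool.Agent.N164.VB.SW6.SW6 Pool.Agent.N353.VB.SIL Pool.Agent.N568.VB.Mea.MEA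
    Pool.Agent.N999.VB.MEW

theorem BM6.iso {L : FirstOrder.Language.{0, 0}} (hL : Countable L.Symbols)
    {T : L.Theory} (hP : ¬ Perfect L T) {S S' : L.Structure ℕ} (h : BM6 S)
    (hS : @Theory.Model L ℕ S T) (he : EEq S S') : Iso S S' := by
  obtain ⟨M, iM, fM, bo, mu, σ, q, p, g, f, hA, hB⟩ := h
  exact iso_of6 lv6.tm6 lv6.exa lv6.exb lv6.ft6 lv6.st6 lv6.sw6 hL hP hB hA hS he

theorem dichotomy6 {L : FirstOrder.Language.{0, 0}} (hL : Countable L.Symbols)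
    {T : L.Theory} (hP : ¬ Perfect L T)
    (hT : ∀ S : L.Structure ℕ, @Theory.Model L ℕ S T → ∃ S', EEq S S' ∧ BM6 S') :
    (∀ S S' : L.Structure ℕ, @Theory.Model L ℕ S T → @Theory.Model L ℕ S' T → EEq S S' →
      Iso S S') ∧ ∃ g : ℕ → L.Structure ℕ, ∀ S, @Theory.Model L ℕ S T → ∃ n, Iso S (g n) := by
  have h1 : ∀ S S' : L.Structure ℕ, @Theory.Model L ℕ S T → @Theory.Model L ℕ S' T →
      EEq S S' → Iso S S' := by
    intro S S' hS hS' he
    obtain ⟨S0, h2, h3⟩ := hT S hS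
    have h4 : @Theory.Model L ℕ S0 T := h2.model hS
    have h5 : Iso S0 S := h3.iso hL hP h4 (fun χ => (h2 χ).symm)
    have h6 : Iso S0 S' := h3.iso hL hP h4 (fun χ => ((h2 χ).symm.trans (he χ)))
    obtain ⟨e5⟩ := h5
    obtain ⟨e6⟩ := h6
    exact ⟨@FirstOrder.Language.Equiv.comp L ℕ ℕ S S0 ℕ S'
      e6 (@FirstOrder.Language.Equiv.symm L ℕ ℕ S0 S e5)⟩
  exact ⟨h1, few_seq (few_of_unique hL hP h1)⟩

end Pool.Agent.N641.VB
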