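import Pool.Agent.N641.VB.Defs

set_option autoImplicit false

/-!
# Project VB (helper641): statements of the leaves

Vaught's conjecture for first-order theories of Boolean algebras with a finitely additive measure in
a finite commutative monoid.
-/

namespace Pool.Agent.N641.VB

/-- TRN: types are invariant under isomorphisms of intervals -/
def S_TRN : Prop := ∀ (M : Type) [AddCommMonoid M] (A A' : Type) [BooleanAlgebra A]
  [BooleanAlgebra A'] (mu : A → M) (mu' : A' → M) (e : A → A') (a0 : A),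
  (∀ b ≤ a0, ∀ c ≤ a0, (b ≤ c ↔ e b ≤ e c)) → (∀ c ≤ e a0, ∃ b ≤ a0, e b = c) →
  (∀ b ≤ a0, mu' (e b) = mu b) → ∀ a ≤ a0, ft mu' (e a) = ft mu a

/-- TRW: codes are invariant under isomorphisms of intervals -/
def S_TRW : Prop := ∀ (A A' : Type) [BooleanAlgebra A] [BooleanAlgebra A'] (e : A → A') (a0 : A)
  (D0 : A → Prop) (D0' : A' → Prop),
  (∀ b ≤ a0, ∀ c ≤ a0, (b ≤ c ↔ e b ≤ e c)) → (∀ c ≤ e a0, ∃ b ≤ a0, e b = c) →
  (∀ b ≤ a0, (D0' (e b) ↔ D0 b)) → (∀ a b, b ≤ a → D0 a → D0 b) →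
  (∀ a b, b ≤ a → D0' a → D0' b) → WW D0' (e a0) = WW D0 a0

/-- TOP: the interval below an element is a Boolean algebra -/
def S_TOP : Prop := ∀ (M : Type) [AddCommMonoid M] (A : Type) [BooleanAlgebra A] (mu : A → M)
  (a : A), AM mu → ∃ (B : Type) (_ : BooleanAlgebra B) (e : B → A), (∀ b c, b ≤ c ↔ e b ≤ e c) ∧
    (∀ c ≤ a, ∃ b, e b = c) ∧ e ⊤ = a ∧ AM (fun b => mu (e b))

/-- RADD: realised types are closed under sums -/
def S_RADD : Prop := ∀ (M : Type) [AddCommMonoid M] (u v : FT M), Rl u → Rl v → Rl (u + v)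

/-- ULT: ultraproducts of Boolean algebras with measures -/
def S_ULT : Prop := ∀ (M : Type) [AddCommMonoid M] [Finite M] (A : ℕ → Type)
  [∀ j, BooleanAlgebra (A j)] (mu : ∀ j, A j → M), (∀ j, AM (mu j)) → ∀ U : Ultrafilter ℕ,
  ∃ (B : Type) (_ : BooleanAlgebra B) (nu : B → M) (f : (∀ j, A j) → B), AM nu ∧
    Function.Surjective f ∧ (∀ x y, f x ≤ f y ↔ ∀ᶠ j in U, x j ≤ y j) ∧
    ∀ x v, (∀ᶠ j in U, mu j (x j) = v) → nu (f x) = v

/-- UP: the set of realised types is closed -/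
def S_UP : Prop := ∀ (M : Type) [AddCommMonoid M] [Finite M] (t : FT M),
  (∀ k, ∃ s, Rl s ∧ ∀ j ≤ k, s j = t j) → Rl t

/-- LS: realised types are realised by the top element of a countable algebra -/
def S_LS : Prop := ∀ (M : Type) [AddCommMonoid M] [Finite M] (t : FT M), Rl t →
  ∃ (A : Type) (_ : BooleanAlgebra A) (mu : A → M), Countable A ∧ AM mu ∧ ft mu ⊤ = t

/-- REF: refinement -/
def S_REF : Prop := ∀ (M : Type) [AddCommMonoid M] [Finite M] (p q u v : FT M),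
  Rl p → Rl q → Rl u → Rl v → p + q = u + v →
  ∃ p1 p2 q1 q2 : FT M, Rl p1 ∧ Rl p2 ∧ Rl q1 ∧ Rl q2 ∧ p1 + p2 = p ∧ q1 + q2 = q ∧
    p1 + q1 = u ∧ p2 + q2 = v

/-- OPN: addition is open -/
def S_OPN : Prop := ∀ (M : Type) [AddCommMonoid M] [Finite M] (p q s : FT M) (k : ℕ),
  Rl p → Rl q → Rl s → s (k + 1) = (p + q) (k + 1) →
  ∃ p' q' : FT M, Rl p' ∧ Rl q' ∧ p' + q' = s ∧ (∀ j ≤ k, p' j = p j) ∧ ∀ j ≤ k, q' j = q j

/-- FIN: types with finitely many divisors split exactly -/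
def S_FIN : Prop := ∀ (M : Type) [AddCommMonoid M] [Finite M] (A : Type) [BooleanAlgebra A]
  (mu : A → M) (a : A) (u v : FT M), AM mu → (Dv (ft mu a)).Finite → Rl u → Rl v →
  u + v = ft mu a → ∃ b ≤ a, ft mu b = u ∧ ft mu (a \ b) = v

/-- ISO: types with finitely many divisors are isolated -/
def S_ISO : Prop := ∀ (M : Type) [AddCommMonoid M] [Finite M] (t : FT M), Rl t →
  (Dv t).Finite → ∃ k, ∀ s, Rl s → (∀ j ≤ k, s j = t j) → s = t

/-- ALG1: compact monoids, existence of a minimal type -/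
def S_ALG1 : Prop := ∀ (X : Type) [TopologicalSpace X] [CompactSpace X] [T2Space X]
  [AddCommMonoid X] [ContinuousAdd X],
  (∀ t : X, {u : X | ∃ v, u + v = t}.Finite → IsOpen {t}) →
  ∀ t0 : X, {u : X | ∃ v, u + v = t0}.Infinite →
  ∃ t1 : X, (∃ v, t1 + v = t0) ∧ {u : X | ∃ v, u + v = t1}.Infinite ∧
    (∀ u : X, (∃ v, u + v = t1) → {w : X | ∃ v, w + v = u}.Infinite → ∃ v, t1 + v = u) ∧
    ∃ h : X, (∃ v, h + v = t1) ∧ h ∈ closure ({u : X | ∃ v, u + v = t1} \ {h})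

/-- ALG2: compact monoids, structure of a minimal type -/
def S_ALG2 : Prop := ∀ (X : Type) [TopologicalSpace X] [CompactSpace X] [T2Space X]
  [AddCommMonoid X] [ContinuousAdd X],
  (∀ t : X, {u : X | ∃ v, u + v = t}.Finite → IsOpen {t}) →
  IsOpenMap (fun q : X × X => q.1 + q.2) →
  (∀ p q u v : X, p + q = u + v → ∃ p1 p2 q1 q2 : X, p1 + p2 = p ∧ q1 + q2 = q ∧
    p1 + q1 = u ∧ p2 + q2 = v) →
  ∀ t1 : X, {u : X | ∃ v, u + v = t1}.Infinite → {u : X | ∃ v, u + v = t1}.Countable →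
  (∀ u : X, (∃ v, u + v = t1) → {w : X | ∃ v, w + v = u}.Infinite → ∃ v, t1 + v = u) →
  (∃ h : X, (∃ v, h + v = t1) ∧ h ∈ closure ({u : X | ∃ v, u + v = t1} \ {h})) →
  ∃ e : X, (∃ v, e + v = t1) ∧ e + e = e ∧ {u : X | ∃ v, u + v = e}.Infinite ∧
    (∀ u : X, (∃ v, u + v = e) → {w : X | ∃ v, w + v = u}.Infinite →
      u + e = u ∧ ∃ w : X, (∃ v, w + v = e) ∧ {x : X | ∃ v, x + v = w}.Infinite ∧ u + w = e) ∧
    ∀ u : X, (∃ v, u + v = e) → {w : X | ∃ v, w + v = u}.Infinite →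
      u ∈ closure {f : X | (∃ v, f + v = e) ∧ {w : X | ∃ v, w + v = f}.Finite ∧ f + e = u}

/-- the idempotent types from which many models are built -/
structure Good {M : Type} [AddCommMonoid M] (e : FT M) : Prop where
  rl : Rl e
  idem : e + e = e
  inf : (Dv e).Infinite
  ct : (Dv e).Countable
  grp : ∀ u ∈ Dv e, (Dv u).Infinite → u + e = u ∧ ∃ w ∈ Dv e, (Dv w).Infinite ∧ u + w = e
  acc : ∀ u ∈ Dv e, (Dv u).Infinite → ∀ k, ∃ f ∈ Dv e, (Dv f).Finite ∧ f + e = u ∧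
    ∀ j ≤ k, f j = u j

/-- ALGF: existence of good types -/
def S_ALGF : Prop := ∀ (M : Type) [AddCommMonoid M] [Finite M] (t0 : FT M), Rl t0 →
  (Dv t0).Infinite → (Dv t0).Countable → ∃ e ∈ Dv t0, Good e

/-- IND: an additive assignment of types with splitting is the assignment of the types -/
def S_IND : Prop := ∀ (M : Type) [AddCommMonoid M] [Finite M] (A : Type) [BooleanAlgebra A]
  (τ : A → FT M), (∀ x, Rl (τ x)) → (∀ x, τ x 0 = (x = ⊥ : Prop)) →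
  (∀ x y, Disjoint x y → τ (x ⊔ y) = τ x + τ y) →
  (∀ x k u v, Rl u → Rl v → u + v = τ x → ∃ y ≤ x, τ y k = u k ∧ τ (x \ y) k = v k) →
  AM (fun x => (τ x 1).1) ∧ ∀ x, ft (fun x => (τ x 1).1) x = τ x

/-- SET: countable Boolean algebras have countably many homomorphisms that separate -/
def S_SET : Prop := ∀ (B : Type) [BooleanAlgebra B] [Countable B] [Nontrivial B],
  ∃ h : ℕ → B → Prop, (∀ n b c, h n (b ⊔ c) ↔ h n b ∨ h n c) ∧
    (∀ n b, h n bᶜ ↔ ¬ h n b) ∧ ∀ b, b ≠ ⊥ → ∃ n, h n b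

/-- the algebra of almost prescribed functions: `val`, `π` describe an algebra `A` of functions on
`ι` which are almost everywhere `⊤` on `r b` and `⊥` off `r b` -/
structure FAlg {ι : Type} (P : ι → Type) [∀ i, BooleanAlgebra (P i)] {B : Type}
    [BooleanAlgebra B] (r : B → Set ι) {A : Type} [BooleanAlgebra A] (val : A → ∀ i, P i)
    (π : A → B) : Prop where
  le : ∀ x y, x ≤ y ↔ val x ≤ val y
  bot : val ⊥ = ⊥
  sup : ∀ x y, val (x ⊔ y) = val x ⊔ val y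
  sdiff : ∀ x y, val (x \ y) = val x \ val y
  pbot : π ⊥ = ⊥
  ptop : π ⊤ = ⊤
  psup : ∀ x y, π (x ⊔ y) = π x ⊔ π y
  psdiff : ∀ x y, π (x \ y) = π x \ π y
  on : ∀ x, {i | i ∈ r (π x) ∧ val x i ≠ ⊤}.Finite
  off : ∀ x, {i | i ∉ r (π x) ∧ val x i ≠ ⊥}.Finite
  surj : ∀ (b : B) (z : ∀ i, P i), {i | i ∈ r b ∧ z i ≠ ⊤}.Finite →
    {i | i ∉ r b ∧ z i ≠ ⊥}.Finite → ∃ x, val x = z ∧ π x = b

/-- FA: existence of the algebra of almost prescribed functions -/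
def S_FA : Prop := ∀ (ι : Type) [Countable ι] (P : ι → Type) [∀ i, BooleanAlgebra (P i)]
  [∀ i, Countable (P i)] [∀ i, Nontrivial (P i)] (B : Type) [BooleanAlgebra B] [Countable B]
  (r : B → Set ι), (∀ b c, r (b ⊔ c) = r b ∪ r c) → (∀ b, r bᶜ = (r b)ᶜ) →
  (∀ b, b ≠ ⊥ → (r b).Infinite) →
  ∃ (A : Type) (_ : BooleanAlgebra A) (val : A → ∀ i, P i) (π : A → B), Countable A ∧
    FAlg P r val π

/-- TAU: types in the algebra of almost prescribed functions -/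
def S_TAU : Prop := ∀ (M : Type) [AddCommMonoid M] [Finite M] (e : FT M), Good e →
  ∀ (ι : Type) [Countable ι] (P : ι → Type) [∀ i, BooleanAlgebra (P i)]
  [∀ i, Countable (P i)] (nu : ∀ i, P i → M) (B : Type) [BooleanAlgebra B] [Countable B]
  (r : B → Set ι) (A : Type) [BooleanAlgebra A] (val : A → ∀ i, P i) (π : A → B),
  (∀ b c, r (b ⊔ c) = r b ∪ r c) → (∀ b, r bᶜ = (r b)ᶜ) →
  (∀ i, AM (nu i)) → (∀ i, ft (nu i) ⊤ ∈ Dv e ∧ (Dv (ft (nu i) ⊤)).Finite ∧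
    ft (nu i) ⊤ + e = e) →
  (∀ b, b ≠ ⊥ → ∀ f ∈ Dv e, (Dv f).Finite → f + e = e → f ≠ 0 →
    {i | i ∈ r b ∧ ft (nu i) ⊤ = f}.Infinite) →
  FAlg P r val π →
  ∃ mu : A → M, AM mu ∧ (∀ a, π a = ⊥ → (Dv (ft mu a)).Finite) ∧
    (∀ a, π a ≠ ⊥ → (Dv (ft mu a)).Infinite) ∧ (Nontrivial B → ft mu ⊤ = e)

/-- CON: the algebra over a good type with a prescribed quotient -/
def S_CON : Prop := ∀ (M : Type) [AddCommMonoid M] [Finite M] (e : FT M), Good e →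
  ∀ (B : Type) [BooleanAlgebra B] [Countable B] [Nontrivial B],
  ∃ (A : Type) (_ : BooleanAlgebra A) (mu : A → M) (π : A → B), Countable A ∧ AM mu ∧
    ft mu ⊤ = e ∧ Function.Surjective π ∧ (∀ x y, π (x ⊔ y) = π x ⊔ π y) ∧
    (∀ x y, π (x \ y) = π x \ π y) ∧ ∀ a, (Dv (ft mu a)).Finite ↔ π a = ⊥

/-- QUO: codes and quotients -/
def S_QUO : Prop := ∀ (A B : Type) [BooleanAlgebra A] [BooleanAlgebra B] (π : A → B)
  (D0 : A → Prop), Function.Surjective π → (∀ x y, π (x ⊔ y) = π x ⊔ π y) →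
  (∀ x y, π (x \ y) = π x \ π y) → (∀ a, D0 a ↔ π a = ⊥) →
  (∀ n a, DD D0 n a ↔ DD (fun b : B => b = ⊥) n (π a)) ∧
  (∀ n a, AL D0 n a ↔ AL (fun b : B => b = ⊥) n (π a)) ∧
  ∀ a, WW D0 a = WW (fun b : B => b = ⊥) (π a)

/-- pure algebras of rank `n` -/
structure Pure (E : Type) [BooleanAlgebra E] (n : ℕ) : Prop where
  top : ¬ DD (fun b : E => b = ⊥) n ⊤
  al : AL (fun b : E => b = ⊥) n ⊤
  low : ∀ k < n, ∀ c : E, AL (fun b : E => b = ⊥) k c → DD (fun b : E => b = ⊥) k c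

/-- LIFT: atomic lift -/
def S_LIFT : Prop := ∀ (B : Type) [BooleanAlgebra B] [Countable B] [Nontrivial B],
  ∃ (A : Type) (_ : BooleanAlgebra A) (π : A → B), Countable A ∧ Function.Surjective π ∧
    (∀ x y, π (x ⊔ y) = π x ⊔ π y) ∧ (∀ x y, π (x \ y) = π x \ π y) ∧
    (∀ a, DD (fun b : A => b = ⊥) 1 a ↔ π a = ⊥) ∧
    ∀ a : A, a ≠ ⊥ → ∃ c ≤ a, c ≠ ⊥ ∧ ∀ d ≤ c, d = ⊥ ∨ c \ d = ⊥

/-- E: pure algebras exist -/
def S_E : Prop := ∀ n : ℕ, ∃ (E : Type) (_ : BooleanAlgebra E), Countable E ∧ Pure E n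

/-- WS: weak sums of pure algebras -/
def S_WS : Prop := ∀ (E : ℕ → Type) [∀ i, BooleanAlgebra (E i)] [∀ i, Countable (E i)]
  (g : ℕ → ℕ), StrictMono g → (∀ i, Pure (E i) (g i)) →
  ∃ (B : Type) (_ : BooleanAlgebra B), Countable B ∧ Nontrivial B ∧
    WW (fun b : B => b = ⊥) ⊤ = Set.range g

/-- CAT: finitely many divisors give uniqueness -/
def S_CAT : Prop := ∀ (M : Type) [AddCommMonoid M] [Finite M] (A A' : Type) [BooleanAlgebra A]
  [BooleanAlgebra A'] [Countable A] [Countable A'] (mu : A → M) (mu' : A' → M) (n : ℕ)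
  (p : Fin n → A) (p' : Fin n → A'), AM mu → AM mu' →
  (∀ ε, ft mu (cell p ε) = ft mu' (cell p' ε)) → (∀ ε, (Dv (ft mu (cell p ε))).Finite) →
  ∃ e : A ≃o A', (∀ a, mu' (e a) = mu a) ∧ ∀ j, e (p j) = p' j

/-- GLU: algebras with prescribed cells -/
def S_GLU : Prop := ∀ (M : Type) [AddCommMonoid M] (n : ℕ) (A : (Fin n → Bool) → Type)
  [∀ ε, BooleanAlgebra (A ε)] [∀ ε, Countable (A ε)] (mu : ∀ ε, A ε → M), (∀ ε, AM (mu ε)) →
  ∃ (B : Type) (_ : BooleanAlgebra B) (nu : B → M) (p : Fin n → B) (emb : ∀ ε, A ε → B),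
    Countable B ∧ AM nu ∧ (∀ ε, emb ε ⊤ = cell p ε) ∧
    (∀ ε b c, b ≤ c ↔ emb ε b ≤ emb ε c) ∧ (∀ ε, ∀ c ≤ cell p ε, ∃ b, emb ε b = c) ∧
    ∀ ε b, nu (emb ε b) = mu ε b

end Pool.Agent.N641.VB
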