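import Pool.Agent.N641.VB.Stm7
import Pool.Agent.N641.VB.Lang2

set_option autoImplicit false

/-!
# Project VB (helper641): Boolean algebras with a finite abelian group of automorphisms: statements
-/

namespace Pool.Agent.N641.VB

open FirstOrder FirstOrder.Language

/-- `c` is a join of `N` elements that are disjoint from their images under `t` -/
def AvoidP (N : ℕ) {B : Type} [BooleanAlgebra B] (t : B → B) (c : B) : Prop :=
  ∃ d : Fin N → B, (∀ j, d j ⊓ t (d j) = ⊥) ∧ ∀ x, (∀ j, d j ≤ x) ↔ c ≤ x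

/-- AGA: structure of Boolean algebras with a finite abelian group of automorphisms -/
def S_AGA : Prop := ∀ (G : Type) [CommGroup G] [Finite G] (B : Type) [BooleanAlgebra B]
  [Countable B] (s : G → B → B), (∀ g a b, a ≤ b ↔ s g a ≤ s g b) → (∀ a, s 1 a = a) →
  (∀ g h a, s (g * h) a = s g (s h a)) →
  ∃ Φ : B → G → B,
    (∀ b g h, s h (Φ b g) = Φ b g) ∧ (∀ a b, a ≤ b ↔ ∀ g, Φ a g ≤ Φ b g) ∧
    (∀ b g h, Φ (s h b) g = Φ b (h⁻¹ * g)) ∧ (∀ b, (∀ h, s h b = b) → ∀ g, Φ b g = b) ∧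
    (∀ b g h, AvoidP (Nat.card G) (s h) (symmDiff (Φ b g) (Φ b (g * h)))) ∧
    (∀ c : G → B, (∀ g h, s h (c g) = c g) →
      (∀ g h, AvoidP (Nat.card G) (s h) (symmDiff (c g) (c (g * h)))) → ∃ b, Φ b = c)

/-- AGB: Boolean algebras with a finite abelian group of automorphisms are bi-interpretable with
Boolean algebras with ideals -/
def S_AGB : Prop := ∀ (G : Type) [CommGroup G] [Finite G] (bo : BooleanAlgebra ℕ)
  (s : G → ℕ → ℕ), (∀ g a b, bo.le a b ↔ bo.le (s g a) (s g b)) → (∀ a, s 1 a = a) →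
  (∀ g h a, s (g * h) a = s g (s h a)) → BM6 (strG bo.le s)

end Pool.Agent.N641.VB
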