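import Pool.Agent.N641.VB.Stm

set_option autoImplicit false

/-!
# Project VB (helper641): first-order logic, Silver's theorem, measurability: statements
-/

namespace Pool.Agent.N641.VB

open FirstOrder FirstOrder.Language

/-- perfectly many models with universe `ℕ` -/
def Perfect (L : FirstOrder.Language.{0, 0}) (T : L.Theory) : Prop :=
  ∃ f : (ℕ → Bool) → L.Structure ℕ,
    (∀ x : ℕ → Bool, @FirstOrder.Language.Theory.Model L ℕ (f x) T) ∧
    (∀ x y : ℕ → Bool, Nonempty (@FirstOrder.Language.Equiv L ℕ ℕ (f x) (f y)) → x = y) ∧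
    (∀ (n : ℕ) (R : L.Relations n) (a : Fin n → ℕ),
      IsClopen {x : ℕ → Bool | @FirstOrder.Language.Structure.RelMap L ℕ (f x) n R a}) ∧
    (∀ (n : ℕ) (F : L.Functions n) (a : Fin n → ℕ) (b : ℕ),
      IsOpen {x : ℕ → Bool | @FirstOrder.Language.Structure.funMap L ℕ (f x) n F a = b})

/-- the relation symbols for the order and the values of the measure -/
inductive Sym (M : Type) : ℕ → Type
  | le : Sym M 2
  | val (v : M) : Sym M 1

/-- the language of Boolean algebras with a measure -/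
def LM (M : Type) : FirstOrder.Language.{0, 0} := ⟨fun _ => Empty, Sym M⟩

/-- the structure given by a relation and a map -/
@[reducible] def str {A M : Type} (le : A → A → Prop) (mu : A → M) : (LM M).Structure A where
  funMap := fun {_} f _ => Empty.elim f
  RelMap := fun {_} R => match R with
    | .le => fun v => le (v 0) (v 1)
    | .val x => fun v => mu (v 0) = x

/-- the formula `φ` defines the relation `X` in the structure `S` with the parameters `p` -/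
def Def {L : FirstOrder.Language.{0, 0}} (S : L.Structure ℕ) {n k : ℕ} (p : Fin n → ℕ)
    (φ : L.Formula (Fin n ⊕ Fin k)) (X : (Fin k → ℕ) → Prop) : Prop :=
  ∀ v, @Formula.Realize L ℕ S _ φ (Sum.elim p v) ↔ X v

/-- formulas that define a Boolean algebra with a measure -/
structure Dec {L : FirstOrder.Language.{0, 0}} {M : Type} (S : L.Structure ℕ) {n : ℕ}
    (p : Fin n → ℕ) (φ : L.Formula (Fin n ⊕ Fin 2)) (ψ : M → L.Formula (Fin n ⊕ Fin 1))
    (bo : BooleanAlgebra ℕ) (mu : ℕ → M) : Prop where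
  le : Def S p φ (fun v => bo.le (v 0) (v 1))
  val : ∀ c, Def S p (ψ c) (fun v => mu (v 0) = c)

/-- the structure `S` is definable in a Boolean algebra with a measure with parameters `p` -/
structure Enc {L : FirstOrder.Language.{0, 0}} {M : Type} (S : L.Structure ℕ) {n : ℕ}
    (p : Fin n → ℕ) (bo : BooleanAlgebra ℕ) (mu : ℕ → M) : Prop where
  rel : ∀ (l : ℕ) (R : L.Relations l), ∃ ρ : (LM M).Formula (Fin n ⊕ Fin l),
    @Def (LM M) (str bo.le mu) n l p ρ (fun v => @Structure.RelMap L ℕ S l R v)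
  fun_ : ∀ (l : ℕ) (F : L.Functions l), ∃ ρ : (LM M).Formula (Fin n ⊕ Fin (l + 1)),
    @Def (LM M) (str bo.le mu) n (l + 1) p ρ
      (fun v => @Structure.funMap L ℕ S l F (fun i => v i.castSucc) = v (Fin.last l))

/-- uniform predicates on tuples of Boolean algebras with measures -/
def UPr (M : Type) (n : ℕ) : Type 1 :=
  ∀ (A : Type) [BooleanAlgebra A], (A → M) → (Fin n → A) → Prop

/-- a uniform predicate is determined by the types of the cells at some level -/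
def Tame {M : Type} [AddCommMonoid M] {n : ℕ} (Q : UPr M n) : Prop :=
  ∃ k, ∀ (A A' : Type) [BooleanAlgebra A] [BooleanAlgebra A'] (mu : A → M) (mu' : A' → M)
    (p : Fin n → A) (p' : Fin n → A'), AM mu → AM mu' →
    (∀ ε, tp mu k (cell p ε) = tp mu' k (cell p' ε)) → (Q A mu p → Q A' mu' p')

/-- TM1: closure properties of tame predicates -/
def S_TM1 : Prop := ∀ (M : Type) [AddCommMonoid M],
  (∀ n (i j : Fin n), Tame (M := M) (n := n) (fun _ _ _ p => p i ≤ p j)) ∧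
  (∀ n (i : Fin n) (v : M), Tame (M := M) (n := n) (fun _ _ mu p => mu (p i) = v)) ∧
  (∀ n, Tame (M := M) (n := n) (fun _ _ _ _ => False)) ∧
  (∀ n (Q Q' : UPr M n), Tame Q → Tame Q' → Tame (fun A _ mu p => Q A mu p → Q' A mu p)) ∧
  (∀ n (Q : UPr M (n + 1)), Tame Q →
    Tame (M := M) (n := n) (fun A _ mu p => ∀ b : A, Q A mu (Fin.snoc p b))) ∧
  (∀ n m (g : Fin n → Fin m) (Q : UPr M n), Tame Q →
    Tame (M := M) (n := m) (fun A _ mu p => Q A mu (p ∘ g)))

/-- TM2: formulas are tame -/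
def S_TM2 : Prop := ∀ (M : Type) [AddCommMonoid M] (L : FirstOrder.Language.{0, 0}) (n : ℕ)
  (J : ∀ (A : Type) [BooleanAlgebra A], (A → M) → (Fin n → A) → L.Structure A),
  (∀ (l : ℕ) (R : L.Relations l), Tame (M := M) (n := n + l) (fun A _ mu x =>
    @Structure.RelMap L A (J A mu (fun i => x (Fin.castAdd l i))) l R
      (fun j => x (Fin.natAdd n j)))) →
  (∀ (l : ℕ) (F : L.Functions l), Tame (M := M) (n := n + (l + 1)) (fun A _ mu x =>
    @Structure.funMap L A (J A mu (fun i => x (Fin.castAdd (l + 1) i))) l F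
      (fun j => x (Fin.natAdd n j.castSucc)) = x (Fin.natAdd n (Fin.last l)))) →
  ∀ (k : ℕ) (φ : L.Formula (Fin n ⊕ Fin k)), Tame (M := M) (n := n + k) (fun A _ mu x =>
    @Formula.Realize L A (J A mu (fun i => x (Fin.castAdd k i))) _ φ
      (Sum.elim (fun i => x (Fin.castAdd k i)) (fun j => x (Fin.natAdd n j))))

/-- TRL: translation of formulas -/
def S_TRL : Prop := ∀ (L : FirstOrder.Language.{0, 0}) (M : Type) (n : ℕ)
  (φ : L.Formula (Fin n ⊕ Fin 2)) (ψ : M → L.Formula (Fin n ⊕ Fin 1)) (k : ℕ)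
  (ρ : (LM M).Formula (Fin n ⊕ Fin k)), ∃ ρ' : L.Formula (Fin n ⊕ Fin k),
  ∀ (S : L.Structure ℕ) (p : Fin n → ℕ) (bo : BooleanAlgebra ℕ) (mu : ℕ → M),
    Dec S p φ ψ bo mu → ∀ v, @Formula.Realize L ℕ S _ ρ' (Sum.elim p v) ↔
      @Formula.Realize (LM M) ℕ (str bo.le mu) _ ρ (Sum.elim p v)

/-- UNQ: uniqueness of the structure over the Boolean algebra -/
def S_UNQ : Prop := ∀ (L : FirstOrder.Language.{0, 0}) (M : Type) (n : ℕ)
  (φ : L.Formula (Fin n ⊕ Fin 2)) (ψ : M → L.Formula (Fin n ⊕ Fin 1))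
  (S S' : L.Structure ℕ) (p p' : Fin n → ℕ) (bo bo' : BooleanAlgebra ℕ) (mu mu' : ℕ → M),
  Dec S p φ ψ bo mu → Dec S' p' φ ψ bo' mu' → Enc S p bo mu →
  (∀ χ : L.Formula (Fin n), @Formula.Realize L ℕ S _ χ p ↔ @Formula.Realize L ℕ S' _ χ p') →
  ∀ e : ℕ ≃ ℕ, (∀ a b, bo.le a b ↔ bo'.le (e a) (e b)) → (∀ a, mu' (e a) = mu a) →
  (∀ j, e (p j) = p' j) → Nonempty (@FirstOrder.Language.Equiv L ℕ ℕ S S')

/-- EXS: transfer of the structure to a Boolean algebra with the same types -/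
def S_EXS : Prop := ∀ (L : FirstOrder.Language.{0, 0}) (M : Type) [AddCommMonoid M] [Finite M]
  (n : ℕ) (φ : L.Formula (Fin n ⊕ Fin 2)) (ψ : M → L.Formula (Fin n ⊕ Fin 1))
  (S : L.Structure ℕ) (p p' : Fin n → ℕ) (bo bo' : BooleanAlgebra ℕ) (mu mu' : ℕ → M),
  Dec S p φ ψ bo mu → Enc S p bo mu → @AM M _ ℕ bo mu → @AM M _ ℕ bo' mu' →
  (∀ ε, @ft M ℕ bo mu (@cell ℕ bo n p ε) = @ft M ℕ bo' mu' (@cell ℕ bo' n p' ε)) →
  ∃ S' : L.Structure ℕ, Dec S' p' φ ψ bo' mu' ∧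
    ∀ T : L.Theory, @Theory.Model L ℕ S T → @Theory.Model L ℕ S' T

/-- the sigma-algebra on the set of structures -/
@[reducible] def SM (L : FirstOrder.Language.{0, 0}) : MeasurableSpace (L.Structure ℕ) :=
  MeasurableSpace.generateFrom
    ({U | ∃ (n : ℕ) (R : L.Relations n) (v : Fin n → ℕ),
        U = {S : L.Structure ℕ | @Structure.RelMap L ℕ S n R v}} ∪
      {U | ∃ (n : ℕ) (F : L.Functions n) (v : Fin n → ℕ) (b : ℕ),
        U = {S : L.Structure ℕ | @Structure.funMap L ℕ S n F v = b}})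

/-- SIL: Silver's theorem for countable sets of real invariants -/
def S_SIL : Prop := ∀ (L : FirstOrder.Language.{0, 0}), Countable L.Symbols →
  ∀ (T : L.Theory) (V : L.Structure ℕ → ℕ → (ℕ → Bool)),
  (∀ m k, @MeasurableSet _ (SM L) {S : L.Structure ℕ | V S m k = true}) →
  (∀ S S' : L.Structure ℕ, Nonempty (@FirstOrder.Language.Equiv L ℕ ℕ S S') →
    ∀ m, ∃ m', V S' m' = V S m) →
  ¬ Perfect L T →
  {v : ℕ → Bool | ∃ S : L.Structure ℕ, @Theory.Model L ℕ S T ∧ ∃ m, V S m = v}.Countable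

/-- ST1: countably many theories with parameters -/
def S_ST1 : Prop := ∀ (L : FirstOrder.Language.{0, 0}), Countable L.Symbols →
  ∀ (T : L.Theory) (n : ℕ), ¬ Perfect L T →
  {q : Set (L.Formula (Fin n)) | ∃ (S : L.Structure ℕ) (p : Fin n → ℕ),
    @Theory.Model L ℕ S T ∧ q = {χ | @Formula.Realize L ℕ S _ χ p}}.Countable

/-- ST2: countably many types in the Boolean algebras -/
def S_ST2 : Prop := ∀ (L : FirstOrder.Language.{0, 0}), Countable L.Symbols →
  ∀ (T : L.Theory) (M : Type) [AddCommMonoid M] [Finite M] (n : ℕ)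
  (φ : L.Formula (Fin n ⊕ Fin 2)) (ψ : M → L.Formula (Fin n ⊕ Fin 1)), ¬ Perfect L T →
  {t : FT M | ∃ (S : L.Structure ℕ) (p : Fin n → ℕ) (bo : BooleanAlgebra ℕ) (mu : ℕ → M)
    (a : ℕ), @Theory.Model L ℕ S T ∧ Dec S p φ ψ bo mu ∧ @AM M _ ℕ bo mu ∧
      @ft M ℕ bo mu a = t}.Countable

/-- ST3: countably many codes -/
def S_ST3 : Prop := ∀ (L : FirstOrder.Language.{0, 0}), Countable L.Symbols →
  ∀ (T : L.Theory) (M : Type) [AddCommMonoid M] [Finite M] (n : ℕ)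
  (φ : L.Formula (Fin n ⊕ Fin 2)) (ψ : M → L.Formula (Fin n ⊕ Fin 1)) (G : Set (FT M)),
  G.Countable → ¬ Perfect L T →
  {w : Set ℕ | ∃ (S : L.Structure ℕ) (p : Fin n → ℕ) (bo : BooleanAlgebra ℕ) (mu : ℕ → M)
    (a : ℕ), @Theory.Model L ℕ S T ∧ Dec S p φ ψ bo mu ∧ @AM M _ ℕ bo mu ∧
      @WW ℕ bo (fun b => @ft M ℕ bo mu b ∈ G) a = w}.Countable

/-- differences, read off the order -/
def Dif (le : ℕ → ℕ → Prop) (a b c : ℕ) : Prop :=
  le b a ∧ le c a ∧ (∀ d, le d b → le d c → ∀ e, le d e) ∧ ∀ d, le b d → le c d → le a d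

/-- types, read off the order -/
def tpc {M : Type} (le : ℕ → ℕ → Prop) (mu : ℕ → M) : (k : ℕ) → ℕ → TP M k
  | 0, a => (∀ b, le a b : Prop)
  | k + 1, a => (mu a, {q | ∃ b c, Dif le a b c ∧ q = (tpc le mu k b, tpc le mu k c)})

/-- MEA: types are measurable -/
def S_MEA : Prop := ∀ (M : Type) [Finite M],
  (∀ (bo : BooleanAlgebra ℕ) (mu : ℕ → M) (k a : ℕ), tpc bo.le mu k a = @tp M ℕ bo mu k a) ∧
  ∀ (Y : Type) [MeasurableSpace Y] (le : Y → ℕ → ℕ → Prop) (mu : Y → ℕ → M),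
    (∀ a b, MeasurableSet {y | le y a b}) → (∀ a v, MeasurableSet {y | mu y a = v}) →
    ∀ (k a : ℕ) (σ : TP M k), MeasurableSet {y | tpc (le y) (mu y) k a = σ}

/-- the ideals, read off the order -/
def DDc (le : ℕ → ℕ → Prop) (D0 : ℕ → Prop) : ℕ → ℕ → Prop
  | 0, a => D0 a
  | n + 1, a => ∃ s : Finset ℕ,
      (∀ c ∈ s, ∀ d e, Dif le c d e → DDc le D0 n d ∨ DDc le D0 n e) ∧
      ∀ u, (∀ c ∈ s, le c u) → le a u

/-- atomless, read off the order -/
def ALc (le : ℕ → ℕ → Prop) (D0 : ℕ → Prop) (n a : ℕ) : Prop :=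
  ∀ c, le c a → ¬ DDc le D0 n c → ∃ d e, Dif le c d e ∧ ¬ DDc le D0 n d ∧ ¬ DDc le D0 n e

/-- pure, read off the order -/
def PPc (le : ℕ → ℕ → Prop) (D0 : ℕ → Prop) (n a : ℕ) : Prop :=
  ¬ DDc le D0 n a ∧ ALc le D0 n a ∧ ∀ c, le c a → ∀ m < n, ALc le D0 m c → DDc le D0 n c

/-- MEW: codes are measurable -/
def S_MEW : Prop :=
  (∀ (bo : BooleanAlgebra ℕ) (D0 : ℕ → Prop) (n a : ℕ),
    (n ∈ @WW ℕ bo D0 a ↔ ∃ b, bo.le b a ∧ PPc bo.le D0 n b)) ∧
  ∀ (Y : Type) [MeasurableSpace Y] (le : Y → ℕ → ℕ → Prop) (D0 : Y → ℕ → Prop),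
    (∀ a b, MeasurableSet {y | le y a b}) → (∀ a, MeasurableSet {y | D0 y a}) →
    ∀ (n a : ℕ), MeasurableSet {y | ∃ b, le y b a ∧ PPc (le y) (D0 y) n b}

/-- NAT: countable infinite algebras live on `ℕ` -/
def S_NAT : Prop := ∀ (M : Type) [AddCommMonoid M] (B : Type) [BooleanAlgebra B] [Countable B]
  [Infinite B] (nu : B → M), AM nu → ∃ (bo : BooleanAlgebra ℕ) (mu : ℕ → M) (e : B ≃ ℕ),
    @AM M _ ℕ bo mu ∧ (∀ a b, a ≤ b ↔ bo.le (e a) (e b)) ∧ (∀ a, mu (e a) = nu a) ∧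
    ∀ (n : ℕ) (p : Fin n → B) (ε : Fin n → Bool),
      e (cell p ε) = @cell ℕ bo n (fun j => e (p j)) ε

/-- CHI: types are first-order definable -/
def S_CHI : Prop := ∀ (M : Type) [Finite M] (k : ℕ) (σ : TP M k),
  ∃ χ : (LM M).Formula (Fin 1), ∀ (A : Type) [BooleanAlgebra A] (mu : A → M) (a : A),
    @Formula.Realize (LM M) A (str (· ≤ ·) mu) _ χ (fun _ => a) ↔ tp mu k a = σ

/-- CNS: there are countably many monoid structures on `Fin m` -/
def S_CNS : Prop := ∀ m : ℕ, Countable (AddCommMonoid (Fin m))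

end Pool.Agent.N641.VB
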