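import Pool.Agent.N641.VB.Stm3

set_option autoImplicit false

/-!
# Project VB (helper641): complete theories: statements
-/

namespace Pool.Agent.N641.VB

open FirstOrder FirstOrder.Language

/-- finitely many types of `k`-tuples for every `k` -/
def FinTypes {L : FirstOrder.Language.{0, 0}} (S : L.Structure ℕ) : Prop :=
  ∀ k : ℕ, {t : Set (L.Formula (Fin k)) | ∃ v : Fin k → ℕ,
    t = {χ | @Formula.Realize L ℕ S _ χ v}}.Finite

/-- RNT: a countable structure with finitely many types of tuples is determined by its theory -/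
def S_RNT : Prop := ∀ (L : FirstOrder.Language.{0, 0}) (S S' : L.Structure ℕ),
  (∀ χ : L.Sentence, @Sentence.Realize L ℕ S χ ↔ @Sentence.Realize L ℕ S' χ) → FinTypes S →
  Nonempty (@FirstOrder.Language.Equiv L ℕ ℕ S S')

/-- FT1: structures definable in an algebra have finitely many types -/
def S_FT1 : Prop := ∀ (L : FirstOrder.Language.{0, 0}) (M : Type) [AddCommMonoid M] [Finite M]
  (n : ℕ) (S : L.Structure ℕ) (p : Fin n → ℕ) (bo : BooleanAlgebra ℕ) (mu : ℕ → M),
  Enc S p bo mu → @AM M _ ℕ bo mu →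
  (∀ ε, (Dv (@ft M ℕ bo mu (@cell ℕ bo n p ε))).Finite) → FinTypes S

/-- FT3: structures interpreted in an algebra have finitely many types -/
def S_FT3 : Prop := ∀ (L : FirstOrder.Language.{0, 0}) (M : Type) [AddCommMonoid M] [Finite M]
  (σ : Sch L M) (S : L.Structure ℕ) (bo : BooleanAlgebra ℕ) (mu : ℕ → M)
  (q : Fin σ.n' → ℕ) (p : Fin σ.n → ℕ) (g : ℕ → Fin σ.r → ℕ) (f : ℕ → ℕ),
  BiInt σ S bo mu q p g f → @AM M _ ℕ bo mu →
  (∀ ε, (Dv (@ft M ℕ bo mu (@cell ℕ bo σ.n' q ε))).Finite) → FinTypes S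

end Pool.Agent.N641.VB
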