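import Pool.Agent.N641.VB.Stm4

set_option autoImplicit false

/-!
# Project VB (helper641): bi-interpretations with both compositions definable: statements
-/

namespace Pool.Agent.N641.VB

open FirstOrder FirstOrder.Language

/-- the composition of the interpretations is definable in the structure `S` by the formula `κ'`,
and the parameters `q` of the algebra are the images of some parameters of the structure -/
structure Back {L : FirstOrder.Language.{0, 0}} (S : L.Structure ℕ) {n n' r : ℕ}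
    (κ' : L.Formula (Fin n ⊕ Fin 1 ⊕ Fin r)) (π' : Fin n' → Fin n) (q : Fin n' → ℕ)
    (p : Fin n → ℕ) (g : ℕ → Fin r → ℕ) (f : ℕ → ℕ) : Prop where
  comp : ∀ (s : ℕ) (t : Fin r → ℕ), @Formula.Realize L ℕ S _ κ'
    (Sum.elim p (Sum.elim (fun _ => s) t)) ↔ ∀ i, g s i = f (t i)
  par : ∀ j, f (p (π' j)) = q j

/-- TR5: translation of formulas of the algebra -/
def S_TR5 : Prop := ∀ (L : FirstOrder.Language.{0, 0}) (M : Type) (n : ℕ)
  (φ : L.Formula (Fin n ⊕ Fin 2)) (ψ : M → L.Formula (Fin n ⊕ Fin 1)) (α : Type)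
  (χ : (LM M).Formula α), ∃ χ' : L.Formula (Fin n ⊕ α),
  ∀ (S : L.Structure ℕ) (p : Fin n → ℕ) (bo : BooleanAlgebra ℕ) (mu : ℕ → M) (f : ℕ → ℕ),
    Dec1 S p φ ψ bo mu f → ∀ v : α → ℕ, @Formula.Realize L ℕ S _ χ' (Sum.elim p v) ↔
      @Formula.Realize (LM M) ℕ (str bo.le mu) _ χ (fun a => f (v a))

/-- UN5: a structure with the same formulas is given by the same formulas in the algebra -/
def S_UN5 : Prop := ∀ (L : FirstOrder.Language.{0, 0}) (M : Type) (n n' r : ℕ)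
  (φ : L.Formula (Fin n ⊕ Fin 2)) (ψ : M → L.Formula (Fin n ⊕ Fin 1))
  (δ : (LM M).Formula (Fin n' ⊕ Fin r))
  (ρ ρ' : (l : ℕ) → L.Relations l → (LM M).Formula (Fin n' ⊕ Fin l × Fin r))
  (γ γ' : (l : ℕ) → L.Functions l → (LM M).Formula (Fin n' ⊕ Fin (l + 1) × Fin r))
  (κ : (LM M).Formula (Fin n' ⊕ Fin r ⊕ Fin 1)) (π : Fin n → Fin r → Fin n')
  (κ' : L.Formula (Fin n ⊕ Fin 1 ⊕ Fin r)) (π' : Fin n' → Fin n)
  (S S' : L.Structure ℕ) (bo bo' : BooleanAlgebra ℕ) (mu mu' : ℕ → M)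
  (q q' : Fin n' → ℕ) (p p' : Fin n → ℕ) (g g' : ℕ → Fin r → ℕ) (f f' : ℕ → ℕ),
  BiInt ⟨n, n', r, φ, ψ, δ, ρ, γ, κ, π⟩ S bo mu q p g f →
  BiInt ⟨n, n', r, φ, ψ, δ, ρ', γ', κ, π⟩ S' bo' mu' q' p' g' f' →
  Back S κ' π' q p g f → Back S' κ' π' q' p' g' f' →
  (∀ χ : L.Formula (Fin n), @Formula.Realize L ℕ S _ χ p ↔ @Formula.Realize L ℕ S' _ χ p') →
  BiInt ⟨n, n', r, φ, ψ, δ, ρ, γ, κ, π⟩ S' bo' mu' q' p' g' f'

/-- CT5: there are countably many schemes without the formulas for the symbols -/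
def S_CT5 : Prop := ∀ (L : FirstOrder.Language.{0, 0}), Countable L.Symbols →
  ∀ (M : Type) [Finite M] (n n' r : ℕ),
    Countable (L.Formula (Fin n ⊕ Fin 2)) ∧ Countable (M → L.Formula (Fin n ⊕ Fin 1)) ∧
    Countable ((LM M).Formula (Fin n' ⊕ Fin r)) ∧
    Countable ((LM M).Formula (Fin n' ⊕ Fin r ⊕ Fin 1)) ∧
    Countable (L.Formula (Fin n ⊕ Fin 1 ⊕ Fin r))

end Pool.Agent.N641.VB
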